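import Pool.Agent.FD.Lower
import Pool.Agent.SDet.BorderGen

/-!
Zero tests by sums (ZTS), rows S and B: specialisation of the generic shift, and the main
inequality for a limit of sums, with a lower bound at the generic point.
-/

open MvPolynomial Finset Filter Topology
open scoped BigOperators ENNReal

namespace Pool.ZTS

universe w

/-- independence over the field of fractions survives all specialisations outside a
hypersurface -/
theorem li_spec {R L Y κ : Type*} [CommRing R] [IsDomain R] [Field L] [Algebra R L]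
    [IsFractionRing R L] [Finite κ] (v : κ → MvPolynomial Y R)
    (hv : LinearIndependent L fun i => MvPolynomial.map (algebraMap R L) (v i)) :
    ∃ s : R, s ≠ 0 ∧ ∀ (K : Type w) [Field K] (ev : R →+* K), ev s ≠ 0 →
      LinearIndependent K fun i => MvPolynomial.map ev (v i) := by
  classical
  have := Fintype.ofFinite κ
  set S : Finset (Y →₀ ℕ) := Finset.univ.biUnion fun i => (v i).support with hS
  let π : MvPolynomial Y L →ₗ[L] (S → L) := LinearMap.pi fun u => lcoeff L u.1
  have hπ : ∀ f u, π f u = coeff u.1 f := fun f u => rfl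
  let f : (κ → L) →ₗ[L] (S → L) :=
    π ∘ₗ Fintype.linearCombination L (fun i => MvPolynomial.map (algebraMap R L) (v i))
  have hf : LinearMap.ker f = ⊥ := by
    rw [LinearMap.ker_eq_bot']
    intro c hc
    have h0 : Fintype.linearCombination L
        (fun i => MvPolynomial.map (algebraMap R L) (v i)) c = 0 := by
      ext u
      by_cases hu : u ∈ S
      · exact congrFun hc ⟨u, hu⟩
      · rw [Fintype.linearCombination_apply, coeff_sum, coeff_zero]
        refine Finset.sum_eq_zero fun i _ => ?_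
        rw [coeff_smul, coeff_map]
        have : coeff u (v i) = 0 := by
          rw [← notMem_support_iff]
          intro hi
          exact hu (Finset.mem_biUnion.mpr ⟨i, Finset.mem_univ _, hi⟩)
        rw [this, map_zero, smul_zero]
    exact hv.fintypeLinearCombination_injective (by rw [h0, map_zero])
  obtain ⟨g, hg⟩ := LinearMap.exists_leftInverse_of_injective f hf
  obtain ⟨b, hb⟩ := IsLocalization.exist_integer_multiples_of_finite (nonZeroDivisors R)
    (fun p : S × κ => g (Pi.single p.1 1) p.2)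
  choose G hG using fun (u : S) (i' : κ) => hb (u, i')
  have hb0 : (b : R) ≠ 0 := nonZeroDivisors.ne_zero b.2
  have hgexp : ∀ (x : S → L) (i' : κ), g x i' = ∑ u, x u * g (Pi.single u 1) i' := by
    intro x i'
    conv_lhs => rw [← Finset.univ_sum_single x]
    rw [map_sum, Finset.sum_apply]
    refine Finset.sum_congr rfl fun u _ => ?_
    have : (Pi.single u (x u) : S → L) = x u • Pi.single u 1 := by
      rw [← Pi.single_smul, smul_eq_mul, mul_one]
    rw [this, map_smul, Pi.smul_apply, smul_eq_mul]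
  have key : ∀ i i' : κ, ∑ u : S, coeff u.1 (v i) * G u i' = if i = i' then (b : R) else 0 := by
    intro i i'
    apply IsFractionRing.injective R L
    rw [map_sum]
    have h1 : ∀ u : S, algebraMap R L (coeff u.1 (v i) * G u i') =
        algebraMap R L b * (π (MvPolynomial.map (algebraMap R L) (v i)) u *
          g (Pi.single u 1) i') := by
      intro u
      rw [map_mul, hG, hπ, coeff_map, Algebra.smul_def]
      ring
    rw [Finset.sum_congr rfl fun u _ => h1 u, ← Finset.mul_sum, ← hgexp]
    have h3 : f (Pi.single i 1) = π (MvPolynomial.map (algebraMap R L) (v i)) := by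
      change π (Fintype.linearCombination L (fun i => MvPolynomial.map (algebraMap R L) (v i))
        (Pi.single i 1)) = _
      rw [Fintype.linearCombination_apply_single, one_smul]
    rw [← h3]
    have h4 : g (f (Pi.single i 1)) = Pi.single i 1 := LinearMap.congr_fun hg _
    rw [h4, Pi.single_apply]
    by_cases h : i = i'
    · subst h
      simp
    · rw [if_neg h, if_neg (fun h' => h h'.symm), mul_zero, map_zero]
  refine ⟨b, hb0, ?_⟩
  intro K _ ev hev
  rw [Fintype.linearIndependent_iff]
  intro c hc i'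
  have h1 : ∑ u : S, coeff u.1 (∑ i, c i • MvPolynomial.map ev (v i)) * ev (G u i') = 0 := by
    rw [hc]
    simp
  have h2 : ∑ u : S, coeff u.1 (∑ i, c i • MvPolynomial.map ev (v i)) * ev (G u i') =
      ∑ i, c i * ev (∑ u : S, coeff u.1 (v i) * G u i') := by
    have h3 : ∀ u : S, coeff u.1 (∑ i, c i • MvPolynomial.map ev (v i)) * ev (G u i') =
        ∑ i, c i * ev (coeff u.1 (v i) * G u i') := by
      intro u
      rw [coeff_sum, Finset.sum_mul]
      refine Finset.sum_congr rfl fun i _ => ?_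
      rw [coeff_smul, coeff_map, smul_eq_mul, map_mul, mul_assoc]
    rw [Finset.sum_congr rfl fun u _ => h3 u, Finset.sum_comm]
    refine Finset.sum_congr rfl fun i _ => ?_
    rw [map_sum, Finset.mul_sum]
  rw [h1] at h2
  have h4 : ∑ i, c i * ev (∑ u : S, coeff u.1 (v i) * G u i') = c i' * ev b := by
    rw [Finset.sum_eq_single i']
    · rw [key, if_pos rfl]
    · intro i _ hi
      rw [key, if_neg hi, map_zero, mul_zero]
    · intro h
      exact absurd (Finset.mem_univ _) h
  rw [h4] at h2
  rcases mul_eq_zero.mp h2.symm with h5 | h5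
  · exact h5
  · exact absurd h5 hev

/-- the generic rank is attained outside a hypersurface -/
theorem finrank_spec {R L Y κ : Type*} [CommRing R] [IsDomain R] [Field L] [Algebra R L]
    [IsFractionRing R L] [Finite κ] (v : κ → MvPolynomial Y R) :
    ∃ s : R, s ≠ 0 ∧ ∀ (K : Type w) [Field K] (ev : R →+* K), ev s ≠ 0 →
      Module.finrank L (Submodule.span L
        (Set.range fun i => MvPolynomial.map (algebraMap R L) (v i))) ≤
      Module.finrank K (Submodule.span K (Set.range fun i => MvPolynomial.map ev (v i))) := by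
  classical
  obtain ⟨κ', a, ha, hspan, hli⟩ := exists_linearIndependent' L
    (fun i => MvPolynomial.map (algebraMap R L) (v i))
  have : Finite κ' := Finite.of_injective a ha
  have := Fintype.ofFinite κ'
  obtain ⟨s, hs, H⟩ := li_spec.{w} (fun i => v (a i)) hli
  refine ⟨s, hs, ?_⟩
  intro K _ ev hev
  have h1 := H K ev hev
  rw [← hspan, finrank_span_eq_card hli, ← finrank_span_eq_card h1]
  have : Module.Finite K (Submodule.span K (Set.range fun i => MvPolynomial.map ev (v i))) :=
    FiniteDimensional.span_of_finite K (Set.finite_range _)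
  refine Submodule.finrank_mono (Submodule.span_mono ?_)
  rintro _ ⟨i, rfl⟩
  exact ⟨a i, rfl⟩

/-- one point at which finitely many generic ranks are attained -/
theorem exists_point {K Z Y : Type} [Field K] [Infinite K] (M : ℕ) (κ : ℕ → Type)
    [∀ l, Finite (κ l)] (v : ∀ l, κ l → MvPolynomial Y (MvPolynomial Z K)) :
    ∃ x0 : Z → K, ∀ l < M,
      Module.finrank (FractionRing (MvPolynomial Z K))
        (Submodule.span (FractionRing (MvPolynomial Z K)) (Set.range fun i =>
          MvPolynomial.map (algebraMap (MvPolynomial Z K) (FractionRing (MvPolynomial Z K)))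
            (v l i))) ≤
      Module.finrank K (Submodule.span K (Set.range fun i =>
        MvPolynomial.map (eval x0) (v l i))) := by
  classical
  choose s hs H using fun l => finrank_spec.{0} (L := FractionRing (MvPolynomial Z K)) (v l)
  have h1 : ∏ l ∈ Finset.range M, s l ≠ 0 := Finset.prod_ne_zero_iff.mpr fun l _ => hs l
  obtain ⟨x0, hx0⟩ : ∃ x0 : Z → K, eval x0 (∏ l ∈ Finset.range M, s l) ≠ 0 := by
    by_contra hcon
    push Not at hcon
    exact h1 (MvPolynomial.funext fun x => by rw [hcon x, map_zero])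
  refine ⟨x0, fun l hl => H l K (eval x0) ?_⟩
  rw [map_prod, Finset.prod_ne_zero_iff] at hx0
  exact hx0 l (Finset.mem_range.mpr hl)

/-- the shift at a point -/
lemma map_eval_shR {K X₀ Y : Type*} [CommRing K] (x0 : X₀ → K) (φ : X₀ → MvPolynomial Y K)
    (p : MvPolynomial X₀ K) :
    MvPolynomial.map (eval x0) (Pool.FD.shR φ p) = aeval (fun x => C (x0 x) + φ x) p := by
  have h : (MvPolynomial.map (eval x0)).comp (Pool.FD.shR φ) =
      ((aeval (fun x => C (x0 x) + φ x) : MvPolynomial X₀ K →ₐ[K] MvPolynomial Y K) :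
        MvPolynomial X₀ K →+* MvPolynomial Y K) := by
    apply MvPolynomial.ringHom_ext
    · intro r
      simp [Pool.FD.shR, algebraMap_eq]
    · intro x
      have h1 : (eval x0).comp C = RingHom.id K := by
        ext r
        simp
      rw [RingHom.comp_apply, Pool.FD.shR, eval₂Hom_X', map_add, map_C, eval_X,
        MvPolynomial.map_map, h1, MvPolynomial.map_id, RingHom.coe_coe, aeval_X]
  exact RingHom.congr_fun h p

/-- the shift at the generic point -/
lemma map_alg_shR {K X₀ Y : Type*} [Field K] (φ : X₀ → MvPolynomial Y K)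
    (p : MvPolynomial X₀ K) :
    MvPolynomial.map (algebraMap (MvPolynomial X₀ K) (FractionRing (MvPolynomial X₀ K)))
      (Pool.FD.shR φ p) = Pool.FD.shift φ p := by
  have h := Pool.FD.map_shR_io (RingHom.id K) φ p
  have h1 : (algebraMap (MvPolynomial X₀ K) (FractionRing (MvPolynomial X₀ K))).comp
      (MvPolynomial.map (RingHom.id K)) =
      algebraMap (MvPolynomial X₀ K) (FractionRing (MvPolynomial X₀ K)) := by
    ext x
    · simp
    · simp
  rw [h1] at h
  rw [h]
  simp only [MvPolynomial.map_id]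

/-- the substitution with the directions `u` and the shift `x0` -/
noncomputable def phi {K X₀ Y : Type*} [CommRing K] {D : ℕ} (φ0 : X₀ → MvPolynomial Y K)
    (x0 : X₀ → K) (u : Fin D → X₀ → K) (x : X₀) : MvPolynomial (Y ⊕ Fin D) K :=
  C (x0 x) + rename Sum.inl (φ0 x) + ∑ b, C (u b x) * X (Sum.inr b)

lemma phi_totalDegree {K X₀ Y : Type*} [Field K] {D : ℕ} (φ0 : X₀ → MvPolynomial Y K)
    (x0 : X₀ → K) (u : Fin D → X₀ → K) (x : X₀) (h : (φ0 x).totalDegree ≤ 1) :
    (phi φ0 x0 u x).totalDegree ≤ 1 := by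
  classical
  unfold phi
  refine (totalDegree_add _ _).trans (max_le ((totalDegree_add _ _).trans (max_le ?_ ?_)) ?_)
  · rw [totalDegree_C]
    exact Nat.zero_le _
  · exact (totalDegree_rename_le _ _).trans h
  · refine (totalDegree_finsetSum _ _).trans (Finset.sup_le fun b _ => ?_)
    refine (totalDegree_mul _ _).trans ?_
    rw [totalDegree_C, totalDegree_X]

lemma aeval_phi {K X₀ Y : Type*} [Field K] {D : ℕ} (φ0 : X₀ → MvPolynomial Y K)
    (x0 : X₀ → K) (u : Fin D → X₀ → K) (x : X₀) :
    aeval (Sum.elim X 0 : _ → MvPolynomial Y K) (phi φ0 x0 u x) = C (x0 x) + φ0 x := by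
  unfold phi
  rw [map_add, map_add, map_sum, aeval_C, algebraMap_eq, aeval_rename]
  have h1 : (Sum.elim X 0 : Y ⊕ Fin D → MvPolynomial Y K) ∘ Sum.inl = X := by
    funext y
    rfl
  rw [h1, aeval_X_left, AlgHom.id_apply]
  have h2 : ∀ b : Fin D, aeval (Sum.elim X 0 : _ → MvPolynomial Y K)
      (C (u b x) * X (Sum.inr b) : MvPolynomial (Y ⊕ Fin D) K) = 0 := by
    intro b
    rw [map_mul, aeval_X, Sum.elim_inr, Pi.zero_apply, mul_zero]
  rw [Finset.sum_congr rfl fun b _ => h2 b, Finset.sum_const_zero, add_zero]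

lemma pderiv_phi {K X₀ Y : Type*} [Field K] {D : ℕ} (φ0 : X₀ → MvPolynomial Y K)
    (x0 : X₀ → K) (u : Fin D → X₀ → K) (b : Fin D) (x : X₀) :
    pderiv (Sum.inr b) (phi φ0 x0 u x) = C (u b x) := by
  classical
  unfold phi
  rw [map_add, map_add, map_sum, pderiv_C, zero_add]
  have h1 : pderiv (Sum.inr b : Y ⊕ Fin D) (rename Sum.inl (φ0 x)) = 0 := by
    apply pderiv_eq_zero_of_notMem_vars
    intro h
    have h2 := MvPolynomial.vars_rename (R := K) (Sum.inl : Y → Y ⊕ Fin D) (φ0 x) h
    obtain ⟨y, -, hy⟩ := Finset.mem_image.mp h2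
    exact Sum.inl_ne_inr hy
  rw [h1, zero_add]
  have h2 : ∀ b' : Fin D, pderiv (Sum.inr b : Y ⊕ Fin D)
      (C (u b' x) * X (Sum.inr b') : MvPolynomial (Y ⊕ Fin D) K) =
      if b' = b then C (u b x) else 0 := by
    intro b'
    rw [pderiv_C_mul, pderiv_X]
    by_cases h : b' = b
    · subst h
      simp
    · rw [if_neg h, Pi.single_eq_of_ne, mul_zero]
      intro h'
      exact h (Sum.inr_injective h')
  rw [Finset.sum_congr rfl fun b' _ => h2 b', Finset.sum_ite_eq' Finset.univ b,
    if_pos (Finset.mem_univ _)]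

/-- mixed coefficients are iterated derivatives in constant directions -/
theorem mixed {K X₀ Y : Type*} [Field K] {D : ℕ} (φ0 : X₀ → MvPolynomial Y K)
    (x0 : X₀ → K) (u : Fin D → X₀ → K) (F : MvPolynomial X₀ K) (m : Y →₀ ℕ) :
    coeff m (aeval (fun x => C (x0 x) + φ0 x)
      (Pool.FD.itd ((List.finRange D).map u) F)) =
    coeff (m.embDomain ⟨Sum.inl, Sum.inl_injective⟩ +
      ∑ b : Fin D, Finsupp.single (Sum.inr b) 1) (aeval (phi φ0 x0 u) F) := by
  have hcomp0 : ∀ q : MvPolynomial X₀ K,
      Pool.SDD.epsD K Y D (aeval (phi φ0 x0 u) q) = aeval (fun x => C (x0 x) + φ0 x) q := by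
    intro q
    unfold Pool.SDD.epsD
    rw [comp_aeval_apply]
    congr 2
    funext x
    exact aeval_phi φ0 x0 u x
  rw [← hcomp0, ← Pool.FD.iterD_aeval (phi φ0 x0 u) u (fun b x => pderiv_phi φ0 x0 u b x),
    Pool.SDD.coeff_epsD, Pool.SDD.coeff_iterD _ (List.nodup_finRange D), ← Fin.sum_univ_def]
  intro b _
  apply Finsupp.embDomain_of_notMem_range
  simp

/-- the rank at a point, one degree at a time (form (6') of the project) -/
theorem exists_point_one {K Z Y C : Type} [Field K] [Infinite K] [Finite Y] [Finite C] {D : ℕ}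
    (φ0 : Z → MvPolynomial Y K) (u : C → Fin D → Z → K) (F : MvPolynomial Z K) (l low : ℕ)
    (hlow : low ≤ Module.finrank (FractionRing (MvPolynomial Z K))
      (Submodule.span (FractionRing (MvPolynomial Z K))
        (Set.range fun i : {μ : Y →₀ ℕ // μ.degree ≤ l} × C =>
          (monomial i.1.1 1 : MvPolynomial Y (FractionRing (MvPolynomial Z K))) *
            Pool.FD.shift φ0 (Pool.FD.itd ((List.finRange D).map (u i.2)) F)))) :
    ∃ x0 : Z → K, low ≤ Module.finrank K (Submodule.span K
      (Set.range fun i : {μ : Y →₀ ℕ // μ.degree ≤ l} × C =>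
        (monomial i.1.1 1 : MvPolynomial Y K) *
          aeval (fun x => MvPolynomial.C (x0 x) + φ0 x)
            (Pool.FD.itd ((List.finRange D).map (u i.2)) F))) := by
  classical
  have hfin : ∀ l, Finite {μ : Y →₀ ℕ // μ.degree ≤ l} := fun l =>
    Pool.SDD.finite_degree_le Y l
  obtain ⟨x0, hx0⟩ := exists_point (K := K) (Z := Z) (Y := Y) (l + 1)
      (fun l => {μ : Y →₀ ℕ // μ.degree ≤ l} × C)
      (fun l i => monomial i.1.1 1 *
        Pool.FD.shR φ0 (Pool.FD.itd ((List.finRange D).map (u i.2)) F))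
  refine ⟨x0, hlow.trans ?_⟩
  have h1 := hx0 l (Nat.lt_succ_self l)
  have h2 : (fun i : {μ : Y →₀ ℕ // μ.degree ≤ l} × C =>
      MvPolynomial.map (algebraMap (MvPolynomial Z K) (FractionRing (MvPolynomial Z K)))
        (monomial i.1.1 1 *
          Pool.FD.shR φ0 (Pool.FD.itd ((List.finRange D).map (u i.2)) F))) =
      fun i => (monomial i.1.1 1 : MvPolynomial Y (FractionRing (MvPolynomial Z K))) *
        Pool.FD.shift φ0 (Pool.FD.itd ((List.finRange D).map (u i.2)) F) := by
    funext i
    rw [map_mul, map_monomial, map_one, map_alg_shR]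
  have h3 : (fun i : {μ : Y →₀ ℕ // μ.degree ≤ l} × C =>
      MvPolynomial.map (eval x0) (monomial i.1.1 1 *
          Pool.FD.shR φ0 (Pool.FD.itd ((List.finRange D).map (u i.2)) F))) =
      fun i => (monomial i.1.1 1 : MvPolynomial Y K) *
        aeval (fun x => MvPolynomial.C (x0 x) + φ0 x)
          (Pool.FD.itd ((List.finRange D).map (u i.2)) F) := by
    funext i
    rw [map_mul, map_monomial, map_one, map_eval_shR]
  rw [h2, h3] at h1
  exact h1

variable {K : Type} [Field K] [Infinite K] [TopologicalSpace K] [IsTopologicalRing K] [T1Space K]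

/-- the main inequality: the lower side is given at the generic point -/
theorem zts_ineq {Z E Y0 C : Type} {ι ι' : Type} [Finite ι] [Fintype Y0] [Finite C]
    {T D dl nu : ℕ}
    (pK : ι' → MvPolynomial E K) (pk : ι → MvPolynomial E K)
    (φ0 : Z → MvPolynomial Y0 K) (u : C → Fin D → Z → K)
    (hφ0 : ∀ x, (φ0 x).totalDegree ≤ 1)
    (hR2 : ∀ (A : E → MvPolynomial (Y0 ⊕ Fin D) K),
      (∀ e, (A e).totalDegree ≤ dl) → ∀ F ∈ Pool.SDD.Wl (fun j => aeval A (pK j)) nu,
      ∃ G ∈ Pool.SDD.Wl (fun j => aeval (fun e => aeval (Sum.elim X 0 : _ →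
        MvPolynomial Y0 K) (A e)) (pk j)) (nu + D * (dl - 1)),
      ∀ u : Y0 →₀ ℕ, coeff u G =
        coeff (u.embDomain ⟨Sum.inl, Sum.inl_injective⟩ +
          ∑ b : Fin D, Finsupp.single (Sum.inr b) 1) F)
    (Q : ℝ≥0∞) (S : ℝ≥0∞)
    (hU : ∀ A : E → MvPolynomial Y0 K, (∀ e, (A e).totalDegree ≤ dl) →
      (1 - Q) ^ (Fintype.card Y0 + 1) *
        ∑' l, Q ^ l * (Module.finrank K (Pool.SDD.Wl (fun j => aeval A (pk j)) l) : ℝ≥0∞) ≤ S)
    (A : ℕ → Fin T → E → MvPolynomial Z K)
    (hA : ∀ r t e, (A r t e).totalDegree ≤ dl)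
    (f : ℕ → Fin T → MvPolynomial Z K)
    (hf : ∀ r t, f r t ∈ Pool.SDD.Wl (fun j => aeval (A r t) (pK j)) nu)
    (Sf : Finset (Z →₀ ℕ)) (hSf : ∀ r, (∑ t, f r t).support ⊆ Sf) (F : MvPolynomial Z K)
    (h : ∀ u, Tendsto (fun r => coeff u (∑ t, f r t)) atTop (𝓝 (coeff u F)))
    (low : ℕ → ℕ)
    (hlow : ∀ l, low l ≤ Module.finrank (FractionRing (MvPolynomial Z K))
      (Submodule.span (FractionRing (MvPolynomial Z K))
        (Set.range fun i : {μ : Y0 →₀ ℕ // μ.degree ≤ l} × C =>
          (monomial i.1.1 1 : MvPolynomial Y0 (FractionRing (MvPolynomial Z K))) *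
            Pool.FD.shift φ0 (Pool.FD.itd ((List.finRange D).map (u i.2)) F)))) :
    Q ^ (nu + D * (dl - 1)) * ((1 - Q) ^ (Fintype.card Y0 + 1) *
      ∑' l, Q ^ l * (low l : ℝ≥0∞)) ≤ T * S := by
  classical
  have hfin : ∀ l, Finite {μ : Y0 →₀ ℕ // μ.degree ≤ l} := fun l =>
    Pool.SDD.finite_degree_le Y0 l
  have hpart : ∀ M : ℕ, (1 - Q) ^ (Fintype.card Y0 + 1) * (Q ^ (nu + D * (dl - 1)) *
      ∑ l ∈ range M, Q ^ l * (low l : ℝ≥0∞)) ≤ T * S := by
    intro M
    obtain ⟨x0, hx0⟩ := exists_point (K := K) (Z := Z) (Y := Y0) M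
      (fun l => {μ : Y0 →₀ ℕ // μ.degree ≤ l} × C)
      (fun l i => monomial i.1.1 1 *
        Pool.FD.shR φ0 (Pool.FD.itd ((List.finRange D).map (u i.2)) F))
    set g : C → MvPolynomial Y0 K := fun c => aeval (fun x => MvPolynomial.C (x0 x) + φ0 x)
      (Pool.FD.itd ((List.finRange D).map (u c)) F) with hg
    have key := Pool.SDD.border_ineq pK pk (fun x => MvPolynomial.C (x0 x) + φ0 x)
      (fun c => phi φ0 x0 (u c)) (by
        intro x
        refine (totalDegree_add _ _).trans (max_le ?_ (hφ0 x))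
        rw [totalDegree_C]
        exact Nat.zero_le _) (fun c x => phi_totalDegree φ0 x0 (u c) x (hφ0 x))
      (fun c x => aeval_phi φ0 x0 (u c) x) hR2 Q S hU A hA f hf Sf hSf F h g
      (fun c m => mixed φ0 x0 (u c) F m)
    have hle : ∀ l < M, low l ≤ Module.finrank K (Pool.SDD.Wl g l) := by
      intro l hl
      refine (hlow l).trans ?_
      have h1 := hx0 l hl
      have h2 : (fun i : {μ : Y0 →₀ ℕ // μ.degree ≤ l} × C =>
          MvPolynomial.map (algebraMap (MvPolynomial Z K) (FractionRing (MvPolynomial Z K)))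
            (monomial i.1.1 1 *
              Pool.FD.shR φ0 (Pool.FD.itd ((List.finRange D).map (u i.2)) F))) =
          fun i => (monomial i.1.1 1 : MvPolynomial Y0 (FractionRing (MvPolynomial Z K))) *
            Pool.FD.shift φ0 (Pool.FD.itd ((List.finRange D).map (u i.2)) F) := by
        funext i
        rw [map_mul, map_monomial, map_one, map_alg_shR]
      have h3 : (fun i : {μ : Y0 →₀ ℕ // μ.degree ≤ l} × C =>
          MvPolynomial.map (eval x0) (monomial i.1.1 1 *
              Pool.FD.shR φ0 (Pool.FD.itd ((List.finRange D).map (u i.2)) F))) =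
          fun i => monomial i.1.1 1 * g i.2 := by
        funext i
        rw [map_mul, map_monomial, map_one, map_eval_shR]
      rw [h2, h3] at h1
      refine h1.trans ?_
      have hWfin : Module.Finite K (Pool.SDD.Wl g l) := inferInstance
      refine Submodule.finrank_mono (Submodule.span_le.mpr ?_)
      rintro _ ⟨i, rfl⟩
      exact Submodule.subset_span ⟨i.1.1, i.2, i.1.2, rfl⟩
    calc (1 - Q) ^ (Fintype.card Y0 + 1) * (Q ^ (nu + D * (dl - 1)) *
          ∑ l ∈ range M, Q ^ l * (low l : ℝ≥0∞))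
        ≤ (1 - Q) ^ (Fintype.card Y0 + 1) * (Q ^ (nu + D * (dl - 1)) *
          ∑' l, Q ^ l * (Module.finrank K (Pool.SDD.Wl g l) : ℝ≥0∞)) := by
          refine mul_le_mul_right (mul_le_mul_right ?_ _) _
          refine le_trans ?_ (ENNReal.sum_le_tsum (Finset.range M))
          refine Finset.sum_le_sum fun l hl => mul_le_mul_right ?_ _
          have h4 := hle l (Finset.mem_range.mp hl)
          exact_mod_cast h4
      _ = Q ^ (nu + D * (dl - 1)) * ((1 - Q) ^ (Fintype.card Y0 + 1) *
          ∑' l, Q ^ l * (Module.finrank K (Pool.SDD.Wl g l) : ℝ≥0∞)) := by ring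
      _ ≤ _ := key
  have hfinal : (1 - Q) ^ (Fintype.card Y0 + 1) * (Q ^ (nu + D * (dl - 1)) *
      ∑' l, Q ^ l * (low l : ℝ≥0∞)) ≤ T * S := by
    rw [ENNReal.tsum_eq_iSup_nat, ENNReal.mul_iSup, ENNReal.mul_iSup]
    exact iSup_le hpart
  calc Q ^ (nu + D * (dl - 1)) * ((1 - Q) ^ (Fintype.card Y0 + 1) *
      ∑' l, Q ^ l * (low l : ℝ≥0∞))
      = (1 - Q) ^ (Fintype.card Y0 + 1) * (Q ^ (nu + D * (dl - 1)) *
      ∑' l, Q ^ l * (low l : ℝ≥0∞)) := by ring
    _ ≤ _ := hfinal

end Pool.ZTS
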