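import Pool.Agent.ZTS.RowLa

/-!
# The leading form of the permanent at the block matrices, part 2 (MP_381749_lc)
-/

set_option autoImplicit false

namespace Pool.ZTS

open Finset Matrix Pool.Agent.SDet

/-- the special corner entries: `S` is a set of positions in a corner -/
def isC {ρ ρ' : Type*} {D k : ℕ} (S : ρ → ρ → Bool) :
    ((ρ ⊕ ρ') × Fin D) ⊕ Fin k → ((ρ ⊕ ρ') × Fin D) ⊕ Fin k → Bool
  | Sum.inl (Sum.inl r, b), Sum.inl (Sum.inl c, b') => decide (b = b') && S r c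
  | Sum.inl (Sum.inl _, _), Sum.inl (Sum.inr _, _) => false
  | Sum.inl (Sum.inl _, _), Sum.inr _ => false
  | Sum.inl (Sum.inr _, _), _ => false
  | Sum.inr _, _ => false

/-- the weights of the entries -/
def wI {ρ ρ' : Type*} {D k : ℕ} (S : ρ → ρ → Bool) (i j : ((ρ ⊕ ρ') × Fin D) ⊕ Fin k) : ℕ :=
  if isC S i j = true then 1 else 2

/-- the tall rows -/
def tr {ρ ρ' : Type*} {D k : ℕ} : ((ρ ⊕ ρ') × Fin D) ⊕ Fin k → ℕ
  | Sum.inl (Sum.inl _, _) => 1
  | Sum.inl (Sum.inr _, _) => 0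
  | Sum.inr _ => 0

/-- the columns of the tall blocks -/
def tc {ρ ρ' : Type*} {D k : ℕ} : ((ρ ⊕ ρ') × Fin D) ⊕ Fin k → ℕ
  | Sum.inl (Sum.inl _, _) => 0
  | Sum.inl (Sum.inr _, _) => 1
  | Sum.inr _ => 0

section lead

variable {R : Type*} [CommRing R] {ρ ρ' : Type*} [Fintype ρ] [Fintype ρ'] [DecidableEq ρ]
  [DecidableEq ρ']

omit [DecidableEq ρ] [DecidableEq ρ'] in
theorem sum_tr {D k : ℕ} : ∑ i : ((ρ ⊕ ρ') × Fin D) ⊕ Fin k, tr i = Fintype.card ρ * D := by
  rw [Fintype.sum_sum_type, Fintype.sum_prod_type, Fintype.sum_sum_type]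
  simp [tr]

omit [DecidableEq ρ] [DecidableEq ρ'] in
theorem sum_tc {D k : ℕ} : ∑ i : ((ρ ⊕ ρ') × Fin D) ⊕ Fin k, tc i = Fintype.card ρ' * D := by
  rw [Fintype.sum_sum_type, Fintype.sum_prod_type, Fintype.sum_sum_type]
  simp [tc]

/-- the matrix with the special corner entries taken from `x` -/
noncomputable def cornM {D k : ℕ} (S : ρ → ρ → Bool) (T : Fin D → Matrix ρ ρ' R)
    (W : Fin D → Matrix ρ' ρ R)
    (x : ((ρ ⊕ ρ') × Fin D) ⊕ Fin k → ((ρ ⊕ ρ') × Fin D) ⊕ Fin k → R) :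
    Matrix (((ρ ⊕ ρ') × Fin D) ⊕ Fin k) (((ρ ⊕ ρ') × Fin D) ⊕ Fin k) R :=
  bigM fun b => Matrix.fromBlocks
    (Matrix.of fun r c => if S r c = true then
      x (Sum.inl (Sum.inl r, b)) (Sum.inl (Sum.inl c, b)) else 0) (T b) (W b) 0

/-- the perturbed matrix -/
noncomputable def M1 {D k : ℕ} (S : ρ → ρ → Bool) (T : Fin D → Matrix ρ ρ' R)
    (W : Fin D → Matrix ρ' ρ R)
    (x : ((ρ ⊕ ρ') × Fin D) ⊕ Fin k → ((ρ ⊕ ρ') × Fin D) ⊕ Fin k → R) :
    Matrix (((ρ ⊕ ρ') × Fin D) ⊕ Fin k) (((ρ ⊕ ρ') × Fin D) ⊕ Fin k) (Polynomial R) :=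
  Matrix.of fun i j =>
    Polynomial.C ((bigM (k := k) fun b => Matrix.fromBlocks (0 : Matrix ρ ρ R) (T b) (W b) 0) i j) +
      Polynomial.X ^ wI S i j * Polynomial.C (x i j)

/-- the rescaled matrix -/
noncomputable def M2 {D k : ℕ} (S : ρ → ρ → Bool) (T : Fin D → Matrix ρ ρ' R)
    (W : Fin D → Matrix ρ' ρ R)
    (x : ((ρ ⊕ ρ') × Fin D) ⊕ Fin k → ((ρ ⊕ ρ') × Fin D) ⊕ Fin k → R) :
    Matrix (((ρ ⊕ ρ') × Fin D) ⊕ Fin k) (((ρ ⊕ ρ') × Fin D) ⊕ Fin k) (Polynomial R) :=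
  Matrix.of fun i j =>
    Polynomial.C (cornM (k := k) S T W x i j) +
      (if isC S i j = true then 0 else Polynomial.X ^ (2 + tc j - tr i) * Polynomial.C (x i j))

omit [Fintype ρ] [Fintype ρ'] [DecidableEq ρ] [DecidableEq ρ'] in
theorem M_scale {D k : ℕ} (S : ρ → ρ → Bool) (T : Fin D → Matrix ρ ρ' R)
    (W : Fin D → Matrix ρ' ρ R)
    (x : ((ρ ⊕ ρ') × Fin D) ⊕ Fin k → ((ρ ⊕ ρ') × Fin D) ⊕ Fin k → R) (i j) :
    (Polynomial.X : Polynomial R) ^ tc j * M1 S T W x i j =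
      Polynomial.X ^ tr i * M2 S T W x i j := by
  rcases i with ⟨i | i, b⟩ | i <;> rcases j with ⟨j | j, b'⟩ | j
  · by_cases h : b = b'
    · subst h
      by_cases hS : S i j = true
      · simp [M1, M2, cornM, isC, wI, tc, tr, bigM, hS]
      · simp [M1, M2, cornM, isC, wI, tc, tr, bigM, hS]
        ring
    · simp [M1, M2, cornM, isC, wI, tc, tr, bigM, Matrix.blockDiagonal_apply, h]
      ring
  · by_cases h : b = b'
    · subst h
      simp [M1, M2, cornM, isC, wI, tc, tr, bigM]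
    · simp [M1, M2, cornM, isC, wI, tc, tr, bigM, Matrix.blockDiagonal_apply, h]
  · simp [M1, M2, cornM, isC, wI, tc, tr, bigM]
    ring
  · by_cases h : b = b'
    · subst h
      simp [M1, M2, cornM, isC, wI, tc, tr, bigM]
    · simp [M1, M2, cornM, isC, wI, tc, tr, bigM, Matrix.blockDiagonal_apply, h]
  · by_cases h : b = b'
    · subst h
      simp [M1, M2, cornM, isC, wI, tc, tr, bigM]
      ring
    · simp [M1, M2, cornM, isC, wI, tc, tr, bigM, Matrix.blockDiagonal_apply, h]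
      ring
  · simp [M1, M2, cornM, isC, wI, tc, tr, bigM]
  · simp [M1, M2, cornM, isC, wI, tc, tr, bigM]
  · simp [M1, M2, cornM, isC, wI, tc, tr, bigM]
    ring
  · simp [M1, M2, cornM, isC, wI, tc, tr, bigM]

/-- **the leading form of the permanent** at the block matrix -/
theorem perm_lead {D k : ℕ} (hc : Fintype.card ρ = Fintype.card ρ' + 1) (S : ρ → ρ → Bool)
    (T : Fin D → Matrix ρ ρ' R) (W : Fin D → Matrix ρ' ρ R)
    (x : ((ρ ⊕ ρ') × Fin D) ⊕ Fin k → ((ρ ⊕ ρ') × Fin D) ⊕ Fin k → R) :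
    ∃ H : Polynomial R, (M1 S T W x).permanent = Polynomial.X ^ D * H ∧
      H.coeff 0 = ∏ b, ∑ r, ∑ c, (if S r c = true then
          x (Sum.inl (Sum.inl r, b)) (Sum.inl (Sum.inl c, b)) else 0) *
        (pairM r c 1 (T b) (W b)).permanent := by
  classical
  refine ⟨(M2 S T W x).permanent, ?_, ?_⟩
  · have h := perm_scale (Polynomial.X : Polynomial R) (M1 S T W x) (M2 S T W x) tr tc
      (M_scale S T W x)
    rw [sum_tr, sum_tc, hc, add_mul, one_mul, pow_add, mul_assoc] at h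
    exact (Polynomial.isRegular_X_pow _).left h
  · have h1 : (M2 S T W x).permanent.coeff 0 = (cornM S T W x).permanent := by
      rw [← Polynomial.constantCoeff_apply]
      simp only [Matrix.permanent, map_sum, map_prod]
      refine Finset.sum_congr rfl fun σ _ => Finset.prod_congr rfl fun i _ => ?_
      simp only [M2, Matrix.of_apply, map_add, Polynomial.constantCoeff_apply,
        Polynomial.coeff_C_zero, add_eq_left]
      split_ifs with h
      · rfl
      · have h2 : 2 + tc i - tr (σ i) = (1 + tc i - tr (σ i)) + 1 := by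
          have : tr (σ i) ≤ 1 := by
            rcases σ i with ⟨y | y, b⟩ | y <;> simp [tr]
          omega
        rw [h2, pow_succ', mul_assoc, Polynomial.coeff_zero_eq_eval_zero, Polynomial.eval_mul,
          Polynomial.eval_X, zero_mul]
    rw [h1, cornM, perm_bigM]
    refine Finset.prod_congr rfl fun b _ => ?_
    rw [perm_corner hc]
    rfl

end lead

end Pool.ZTS
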