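import Pool.Agent.ZTS.Defs
import Pool.Agent.ZTS.RowLb

/-!
# The leading form of the permanent at the block matrices (MP_381749_lc, zero tests by sums)
-/

set_option autoImplicit false

namespace Pool.ZTS

open Finset MvPolynomial Pool.SDL Pool.Agent.SDet

variable {K : Type} [Field K]

/-- positions of the special corner entries -/
def spS (N a : ℕ) (r c : Fin N ⊕ Fin (a + 1)) : Bool := r.isRight && c.isRight

theorem wt_eq {N a D k0 : ℕ} (i j : Rw N a D k0) : wt (i, j) = wI (spS N a) i j := by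
  classical
  unfold wt wI
  have h : (∃ b p, ((i, j) : Zs N a D k0) = pos b p) ↔ isC (spS N a) i j = true := by
    rcases i with ⟨(i | i) | i, b⟩ | i <;> rcases j with ⟨(j | j) | j, b'⟩ | j <;>
      simp [isC, spS, pos]
    exact eq_comm
  by_cases h0 : ∃ b p, ((i, j) : Zs N a D k0) = pos b p
  · rw [if_pos h0, if_pos (h.1 h0)]
  · rw [if_neg h0, if_neg (fun e => h0 (h.2 e))]

theorem perm_pair_gg {D N a : ℕ} (b : Fin D) (p : Sp a) :
    (pairM (Sum.inr p.1) (Sum.inr p.2) 1 (TT K D N a b) (WW K D N a b)).permanent =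
      gg K D N a b p := by
  have h := perm_pairM (eK N a p.1) (eK N a p.2) 1 (TT K D N a b) (WW K D N a b)
  rw [eK_none, eK_none, one_mul] at h
  rw [h, gg]
  congr 1
  · rw [Pool.Agent.SDet.bp_eq]
    simp [Matrix.permanent, map_sum, map_prod, TT]
  · rw [Pool.Agent.SDet.bp_eq, ← Matrix.permanent_transpose]
    simp [Matrix.permanent, map_sum, map_prod, WW]

theorem big_map {R S : Type*} [CommRing R] [CommRing S] (f : R →+* S) {ρ ρ' : Type*}
    [DecidableEq ρ] [DecidableEq ρ'] {D k : ℕ} (T : Fin D → Matrix ρ ρ' R)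
    (W : Fin D → Matrix ρ' ρ R) (i j) :
    (bigM (k := k) fun b => Matrix.fromBlocks (0 : Matrix ρ ρ S) ((T b).map f) ((W b).map f) 0)
      i j = f ((bigM (k := k) fun b => Matrix.fromBlocks (0 : Matrix ρ ρ R) (T b) (W b) 0) i j) := by
  rcases i with ⟨i | i, b⟩ | i <;> rcases j with ⟨j | j, b'⟩ | j <;>
    simp [bigM, Matrix.blockDiagonal_apply, Matrix.one_apply, apply_ite f]

theorem pair_map {R S : Type*} [CommRing R] [CommRing S] (f : R →+* S) {ρ ρ' : Type*}
    [Fintype ρ] [Fintype ρ'] [DecidableEq ρ] [DecidableEq ρ'] (r c : ρ) (T : Matrix ρ ρ' R)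
    (W : Matrix ρ' ρ R) :
    (pairM r c 1 (T.map f) (W.map f)).permanent = f (pairM r c 1 T W).permanent := by
  simp only [Matrix.permanent, map_sum, map_prod]
  refine Finset.sum_congr rfl fun σ _ => Finset.prod_congr rfl fun i _ => ?_
  rcases h : σ i with y | y <;> rcases i with i | i <;> simp [pairM, apply_ite f]

/-- the leading form of the permanent at the block matrices -/
theorem lead_gen {S : Type*} [CommRing S] {N a D k0 : ℕ} (f : MvPolynomial (Ys D N) K →+* S)
    (x : Zs N a D k0 → S) :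
    ∃ H : Polynomial S, (Matrix.of fun i j : Rw N a D k0 => Polynomial.C (f (phi0 K (i, j))) +
      Polynomial.X ^ wt (i, j) * Polynomial.C (x (i, j))).permanent = Polynomial.X ^ D * H ∧
      H.coeff 0 = ∏ b, ∑ p : Sp a, f (gg K D N a b p) * x (pos b p) := by
  have hc : Fintype.card (Fin N ⊕ Fin (a + 1)) = Fintype.card (Fin N ⊕ Fin a) + 1 := by
    simp [add_assoc]
  obtain ⟨H, h1, h2⟩ := perm_lead hc (spS N a) (fun b => (TT K D N a b).map f)
    (fun b => (WW K D N a b).map f) (fun i j : Rw N a D k0 => x (i, j))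
  refine ⟨H, ?_, ?_⟩
  · rw [← h1]
    congr 1
    ext1 i j
    simp only [Matrix.of_apply, M1, wt_eq]
    rw [big_map]
    rfl
  · rw [h2]
    refine Finset.prod_congr rfl fun b _ => ?_
    simp only [pair_map]
    rw [Fintype.sum_sum_type]
    simp only [Fintype.sum_sum_type]
    simp only [spS, Sum.isRight_inl, Sum.isRight_inr, Bool.false_and, Bool.and_false,
      Bool.true_and, if_false, if_true, zero_mul, Finset.sum_const_zero, zero_add,
      Bool.false_eq_true]
    rw [Fintype.sum_prod_type]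
    refine Finset.sum_congr rfl fun k _ => Finset.sum_congr rfl fun k' _ => ?_
    rw [mul_comm]
    congr 1
    rw [← perm_pair_gg]

/-- ROW L, leading form of the permanent -/
theorem lead_perm (N a D k0 : ℕ) :
    ∃ R : Polynomial (MvPolynomial (Zs N a D k0) (MvPolynomial (Ys D N) K)),
      Psi wt (shift (phi0 K) (perm K N a D k0)) = Polynomial.X ^ D * R ∧
      R.coeff 0 = ∏ b, lin pos (gg K D N a) b := by
  obtain ⟨H, h1, h2⟩ := lead_gen (N := N) (a := a) (D := D) (k0 := k0)
    (C : MvPolynomial (Ys D N) K →+* MvPolynomial (Zs N a D k0) (MvPolynomial (Ys D N) K)) X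
  refine ⟨H, ?_, h2⟩
  rw [← h1, perm]
  simp only [Matrix.permanent, map_sum, map_prod, Matrix.of_apply]
  refine Finset.sum_congr rfl fun σ _ => Finset.prod_congr rfl fun i _ => ?_
  rw [shift, aeval_X, Psi, map_add, aeval_X, algHom_C, add_comm, mul_comm]
  rfl

end Pool.ZTS
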