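import Pool.Agent.ZTS.Vec
import Pool.Agent.ZTS.Lead

/-!
# The block matrix with all its data (MP_381749_lc, zero tests by sums)
-/

set_option autoImplicit false

namespace Pool.ZTS

open Finset MvPolynomial Pool.SDL Pool.Agent.SDet

section ext

variable {M : Type*} [AddCommMonoid M] {n D N a k0 : ℕ}

theorem pos_inj {b b' : Fin D} {p p' : Sp a}
    (h : (pos b p : Zs N a D k0) = pos b' p') : b = b' ∧ p = p' := by
  unfold pos at h
  simp only [Prod.mk.injEq, Sum.inl.injEq, Sum.inr.injEq] at h
  exact ⟨h.1.2, Prod.ext h.1.1 h.2.1⟩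

/-- extension by zero of a function on the special corner entries of the block `b` -/
noncomputable def ex (E : Fin n ≃ Rw N a D k0) (A : Sp a → M) (b : Fin D)
    (x : Fin n × Fin n) : M := by
  classical
  exact ∑ p, if (E x.1, E x.2) = pos b p then A p else 0

theorem ex_pos (E : Fin n ≃ Rw N a D k0) (A : Sp a → M) (b : Fin D) (p : Sp a) :
    ex E A b (E.symm (pos b p : Zs N a D k0).1, E.symm (pos b p : Zs N a D k0).2) = A p := by
  classical
  unfold ex
  rw [Finset.sum_eq_single p]
  · rw [if_pos]
    simp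
  · intro p' _ hp
    rw [if_neg]
    intro h
    simp only [Equiv.apply_symm_apply] at h
    exact hp (pos_inj h).2.symm
  · intro h; exact absurd (Finset.mem_univ _) h

theorem ex_ne (E : Fin n ≃ Rw N a D k0) (A : Sp a → M) {b b' : Fin D} (hb : b ≠ b')
    (p : Sp a) :
    ex E A b (E.symm (pos b' p : Zs N a D k0).1, E.symm (pos b' p : Zs N a D k0).2) = 0 := by
  classical
  unfold ex
  refine Finset.sum_eq_zero fun p' _ => ?_
  rw [if_neg]
  intro h
  simp only [Equiv.apply_symm_apply] at h
  exact hb (pos_inj h).1.symm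

theorem sum_ex {S : Type*} [CommRing S] {M : Type*} [AddCommMonoid M] (E : Fin n ≃ Rw N a D k0)
    (A : Sp a → M) (b : Fin D) (F : Fin n × Fin n → M → S) (h0 : ∀ x, F x 0 = 0) :
    ∑ x, F x (ex E A b x) =
      ∑ p, F (E.symm (pos b p : Zs N a D k0).1, E.symm (pos b p : Zs N a D k0).2) (A p) := by
  classical
  have h1 : ∀ x, F x (ex E A b x) = ∑ p, if (E x.1, E x.2) = pos b p then
      F x (A p) else 0 := by
    intro x
    by_cases h : ∃ p, (E x.1, E x.2) = pos b p
    · obtain ⟨p, hp⟩ := h
      rw [Finset.sum_eq_single p, if_pos hp]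
      · unfold ex
        rw [Finset.sum_eq_single p, if_pos hp]
        · intro p' _ hp'
          rw [if_neg]
          intro h'
          exact hp' (pos_inj (h'.symm.trans hp)).2
        · intro h; exact absurd (Finset.mem_univ _) h
      · intro p' _ hp'
        rw [if_neg]
        intro h'
        exact hp' (pos_inj (h'.symm.trans hp)).2
      · intro h; exact absurd (Finset.mem_univ _) h
    · push Not at h
      unfold ex
      rw [Finset.sum_eq_zero fun p _ => if_neg (h p), h0,
        Finset.sum_eq_zero fun p _ => if_neg (h p)]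
  simp only [h1]
  rw [Finset.sum_comm]
  refine Finset.sum_congr rfl fun p _ => ?_
  rw [Finset.sum_eq_single (E.symm (pos b p : Zs N a D k0).1, E.symm (pos b p : Zs N a D k0).2)]
  · rw [if_pos]
    simp
  · intro x _ hx
    rw [if_neg]
    intro h
    apply hx
    rw [← h]
    simp
  · intro h; exact absurd (Finset.mem_univ _) h

end ext

variable {K : Type} [Field K]

theorem rr_ne_zero (D N a : ℕ) (b : Fin D) : rr K D N a b ≠ 0 :=
  mul_ne_zero (pow_ne_zero _ (X_ne_zero _)) (pow_ne_zero _ (X_ne_zero _))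

/-- ROWS L and V -/
theorem exists_data [CharZero K] {n D N a : ℕ} (ha : 1 ≤ a) (haN : a < N)
    (hn : D * (2 * (N + a) + 1) ≤ n) : Nonempty (Data K n D N a) := by
  classical
  obtain ⟨k0, hk0⟩ := Nat.exists_eq_add_of_le hn
  have hcard : Fintype.card (Fin n) = Fintype.card (Rw N a D k0) := by
    simp only [Fintype.card_fin, Fintype.card_sum, Fintype.card_prod]
    rw [hk0]
    ring
  let E : Fin n ≃ Rw N a D k0 := Fintype.equivOfCardEq hcard
  obtain ⟨g, v, h1, h2, h3⟩ := vec (K := K) N a D ha haN
  refine ⟨{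
    phi0 := fun x => phi0 K (E x.1, E x.2)
    cor := fun κ b =>
      (E.symm (pos b (κ (Sum.inl b), κ (Sum.inr b)) : Zs N a D k0).1,
        E.symm (pos b (κ (Sum.inl b), κ (Sum.inr b)) : Zs N a D k0).2)
    wt := fun x => wt (E x.1, E x.2)
    g := fun b x => ex E (g b) b x
    v := fun b x => ex E (v b) b x
    deg := ?_
    wt_cor := ?_
    cor_ne := ?_
    cor_prod := ?_
    gv := ?_
    gv_ne := ?_
    lead := ?_
    nz := ?_ }⟩
  · intro x
    exact big0_totalDegree _ _
      (fun _ _ _ => (totalDegree_rename_le _ _).trans (tall_totalDegree _ _ _ _))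
      (fun _ _ _ => (totalDegree_rename_le _ _).trans (tall_totalDegree _ _ _ _)) _ _
  · intro κ b
    simp only [Equiv.apply_symm_apply]
    unfold wt
    rw [if_pos ⟨b, _, rfl⟩]
  · intro κ b b' hb
    exact ex_ne E (g b) hb _
  · intro κ
    have : ∀ b, rr K D N a b * ex E (g b) b
        (E.symm (pos b (κ (Sum.inl b), κ (Sum.inr b)) : Zs N a D k0).1,
          E.symm (pos b (κ (Sum.inl b), κ (Sum.inr b)) : Zs N a D k0).2) =
        gg K D N a b (κ (Sum.inl b), κ (Sum.inr b)) := by
      intro b
      rw [ex_pos, h1]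
    rw [Finset.prod_congr rfl fun b _ => this b]
    simp only [gg, gk]
    rw [Fintype.prod_sum_type, Finset.prod_mul_distrib]
  · intro b
    rw [← h2 b]
    have h4 := sum_ex (S := MvPolynomial (Ys D N) K) E
      (fun p => (g b p, v b p)) b (fun _ m => m.1 * C m.2) (by simp)
    rw [← h4]
    refine Finset.sum_congr rfl fun x _ => ?_
    have e1 : ex E (g b) b x = (ex E (fun p => (g b p, v b p)) b x).1 := by
      unfold ex
      rw [Prod.fst_sum]
      refine Finset.sum_congr rfl fun p _ => ?_
      split_ifs <;> rfl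
    have e2 : ex E (v b) b x = (ex E (fun p => (g b p, v b p)) b x).2 := by
      unfold ex
      rw [Prod.snd_sum]
      refine Finset.sum_congr rfl fun p _ => ?_
      split_ifs <;> rfl
    rw [e1, e2]
  · intro b b' hb
    have h4 := sum_ex (S := MvPolynomial (Ys D N) K) E (v b) b
      (fun x m => ex E (g b') b' x * C m) (by simp)
    rw [h4]
    refine Finset.sum_eq_zero fun p _ => ?_
    rw [ex_ne E (g b') hb.symm, zero_mul]
  · intro S _ f x
    obtain ⟨H, hH1, hH2⟩ := lead_gen (k0 := k0) f
      (fun z : Zs N a D k0 => x (E.symm z.1, E.symm z.2))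
    refine ⟨H, ?_, ?_⟩
    · rw [← hH1, ← perm_submatrix E E]
      congr 1
      ext1 i j
      simp
    · rw [hH2]
      refine Finset.prod_congr rfl fun b _ => ?_
      have h4 := sum_ex (S := S) E (g b) b
        (fun x' m => f (rr K D N a b * m) * x x') (by simp)
      rw [h4]
      refine Finset.sum_congr rfl fun p _ => ?_
      rw [h1]
  · intro z hz b
    obtain ⟨p, hp⟩ := h3 z hz b
    refine ⟨(E.symm (pos b p : Zs N a D k0).1, E.symm (pos b p : Zs N a D k0).2), ?_⟩
    rw [ex_pos]
    exact hp

end Pool.ZTS
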