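import Pool.Agent.ZTS.Count
import Pool.Agent.Helper55.SD.SideL

/-!
Zero tests by sums of products with Pfaffians (MP_381749_lc), count: one block of two halves,
and the final form of the count.
-/

open MvPolynomial Finset Module
open scoped BigOperators ENNReal
open Pool.Agent.Helper72.SDet
open Pool.SDL (bp bp_homog)
open Pool.SDD (V0)

namespace Pool.ZTS

universe u
variable (K : Type u) [Field K]

/-! ### one half -/

theorem bp_dvd (N a : ℕ) (k : Fin (a + 1)) :
    (X none ^ a : MvPolynomial (Option (Fin N)) K) ∣ bp K N a k := by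
  rw [Pool.SDL.bp_eq]
  have h1 : Pool.SDL.G K N * (Polynomial.C (X none) ^ a *
        ∏ l ∈ univ.erase k, (Polynomial.X - Polynomial.C (C (l : K)))) =
      Polynomial.C (X none ^ a) * (Pool.SDL.G K N *
        ∏ l ∈ univ.erase k, (Polynomial.X - Polynomial.C (C (l : K)))) := by
    rw [map_pow]
    ring
  rw [h1, Polynomial.coeff_C_mul, nsmul_eq_mul]
  exact (dvd_mul_right _ _).mul_left _

/-- exponent of `none` in the monomials of multiples of `bp` -/
theorem le_of_coeff_mul {σ : Type*} {f : MvPolynomial σ K} {v : σ} {a : ℕ}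
    (h : X v ^ a ∣ f) {μ : σ →₀ ℕ} (hμ : coeff μ f ≠ 0) : a ≤ μ v := by
  classical
  obtain ⟨g, rfl⟩ := h
  rw [X_pow_eq_monomial, coeff_monomial_mul'] at hμ
  by_contra hcon
  apply hμ
  rw [if_neg]
  intro hle
  have := hle v
  rw [Finsupp.single_eq_same] at this
  exact hcon this

/-! ### one block of two halves -/

/-- products of the generators of the two halves -/
noncomputable def g2 (N a : ℕ) (k : Fin (a + 1) × Fin (a + 1)) :
    MvPolynomial (Bool × Option (Fin N)) K :=
  rename (fun v => (false, v)) (bp K N a k.1) * rename (fun v => (true, v)) (bp K N a k.2)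

/-- monomials of one block which are kept -/
def P2 (N : ℕ) (μ : (Bool × Option (Fin N)) →₀ ℕ) : Prop :=
  ∃ j : Fin N, μ (false, some j) = 0 ∨ μ (true, some j) = 0

theorem g2_homog (N a : ℕ) (k : Fin (a + 1) × Fin (a + 1)) :
    (g2 K N a k).IsHomogeneous (2 * (N + a)) := by
  rw [two_mul]
  exact (bp_homog K N a k.1).rename_isHomogeneous.mul (bp_homog K N a k.2).rename_isHomogeneous

theorem g2_eq (N a : ℕ) (k : Bool → Fin (a + 1)) :
    ∏ b : Bool, rename (fun v => (b, v)) (bp K N a (k b)) = g2 K N a (k false, k true) := by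
  rw [Fintype.prod_bool, g2, mul_comm]

theorem W0_bool_le (N a d : ℕ) : W0 Bool (bp K N a) d ≤ Pool.SDL.Id (g2 K N a) d := by
  rw [W0, Pool.SDL.Id]
  refine Submodule.span_mono ?_
  rintro f ⟨μ, k, hμ, rfl⟩
  exact ⟨μ, (k false, k true), hμ, by rw [g2_eq]⟩

/-- the exponents which divide every multiple of a generator -/
noncomputable def eb (N a : ℕ) : (Bool × Option (Fin N)) →₀ ℕ :=
  Finsupp.equivFunOnFinite.symm fun v => v.2.elim a fun _ => 1

theorem eb_degree (N a : ℕ) : (eb N a).degree = 2 * (N + a) := by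
  rw [Finsupp.degree_eq_sum, Fintype.sum_prod_type]
  simp [eb, Fintype.sum_option]
  ring

theorem Id_none (N a d : ℕ) (f : MvPolynomial (Bool × Option (Fin N)) K)
    (hf : f ∈ Pool.SDL.Id (g2 K N a) d) (i : Bool) :
    (X (i, none) ^ a : MvPolynomial (Bool × Option (Fin N)) K) ∣ f := by
  have h1 : ∀ (j : Bool) (k : Fin (a + 1)),
      (X (j, none) ^ a : MvPolynomial (Bool × Option (Fin N)) K) ∣
        rename (fun v => (j, v)) (bp K N a k) := by
    intro j k
    have := map_dvd (rename (fun v => (j, v)) : MvPolynomial (Option (Fin N)) K →ₐ[K]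
      MvPolynomial (Bool × Option (Fin N)) K) (bp_dvd K N a k)
    rwa [map_pow, rename_X] at this
  have h2 : ∀ k, (X (i, none) ^ a : MvPolynomial (Bool × Option (Fin N)) K) ∣ g2 K N a k := by
    intro k
    cases i with
    | false => exact (h1 false k.1).mul_right _
    | true => exact (h1 true k.2).mul_left _
  rw [Pool.SDL.Id] at hf
  induction hf using Submodule.span_induction with
  | mem x hx =>
    obtain ⟨μ, k, -, rfl⟩ := hx
    exact (h2 k).mul_left _
  | zero => exact dvd_zero _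
  | add x y _ _ hx hy => exact dvd_add hx hy
  | smul c x _ hx =>
    rw [smul_eq_C_mul]
    exact hx.mul_left _

/-- the elements which are killed are multiples of one monomial -/
theorem ker_le (N a d : ℕ) :
    Pool.SDL.Id (g2 K N a) d ⊓ LinearMap.ker (keepMap K (P2 N)) ≤
      (homogeneousSubmodule (Bool × Option (Fin N)) K d).map
        (LinearMap.mulLeft K (monomial (eb N a) (1 : K))) := by
  classical
  rintro f ⟨hf, hker⟩
  rw [SetLike.mem_coe] at hf hker
  rw [LinearMap.mem_ker] at hker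
  rw [f.as_sum]
  refine Submodule.sum_mem _ fun μ hμ => ?_
  have hc : coeff μ f ≠ 0 := mem_support_iff.1 hμ
  have hP : ¬ P2 N μ := by
    intro hP
    have h1 := coeff_keepMap K (P2 N) μ f
    rw [hker, coeff_zero, if_pos hP] at h1
    exact hc h1.symm
  have hle : eb N a ≤ μ := by
    intro v
    obtain ⟨i, v⟩ := v
    cases v with
    | none => exact le_of_coeff_mul K (Id_none K N a d f hf i) hc
    | some j =>
      change 1 ≤ μ (i, some j)
      by_contra h0
      have h0' : μ (i, some j) = 0 := by omega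
      apply hP
      cases i with
      | false => exact ⟨j, Or.inl h0'⟩
      | true => exact ⟨j, Or.inr h0'⟩
  have hhom := Id_le_homog (g2 K N a) _ (g2_homog K N a) d hf
  have hdeg : μ.degree = d + 2 * (N + a) := by
    have h1 := (mem_homogeneousSubmodule _ _).1 hhom hc
    rw [Finsupp.degree_eq_weight_one]
    exact h1
  obtain ⟨ν, rfl⟩ := exists_add_of_le hle
  refine ⟨monomial ν (coeff (eb N a + ν) f), ?_, ?_⟩
  · rw [SetLike.mem_coe, mem_homogeneousSubmodule]
    apply isHomogeneous_monomial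
    rw [map_add, eb_degree] at hdeg
    omega
  · rw [LinearMap.mulLeft_apply, monomial_mul, one_mul]

/-- one block: what is left after the deletion -/
theorem block_keep (N a d : ℕ) :
    finrank K (Pool.SDL.Id (g2 K N a) d) ≤
      finrank K ((Pool.SDL.Id (g2 K N a) d).map (keepMap K (P2 N))) +
        finrank K (homogeneousSubmodule (Bool × Option (Fin N)) K d) := by
  have hfin : FiniteDimensional K (Pool.SDL.Id (g2 K N a) d) :=
    finite_of_le_homog _ _ (Id_le_homog _ _ (g2_homog K N a) d)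
  have h1 := LinearMap.finrank_range_add_finrank_ker
    ((keepMap K (P2 N)).domRestrict (Pool.SDL.Id (g2 K N a) d))
  rw [LinearMap.range_domRestrict] at h1
  have h2 : finrank K (LinearMap.ker
      ((keepMap K (P2 N)).domRestrict (Pool.SDL.Id (g2 K N a) d))) ≤
      finrank K (homogeneousSubmodule (Bool × Option (Fin N)) K d) := by
    have h3 : (LinearMap.ker ((keepMap K (P2 N)).domRestrict (Pool.SDL.Id (g2 K N a) d))).map
        (Pool.SDL.Id (g2 K N a) d).subtype ≤
        (homogeneousSubmodule (Bool × Option (Fin N)) K d).map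
        (LinearMap.mulLeft K (monomial (eb N a) (1 : K))) := by
      refine le_trans ?_ (ker_le K N a d)
      rintro _ ⟨x, hx, rfl⟩
      exact ⟨x.2, hx⟩
    calc _ = finrank K ((LinearMap.ker
          ((keepMap K (P2 N)).domRestrict (Pool.SDL.Id (g2 K N a) d))).map
          (Pool.SDL.Id (g2 K N a) d).subtype) :=
          (Submodule.equivMapOfInjective _ (Submodule.injective_subtype _) _).finrank_eq
      _ ≤ finrank K ((homogeneousSubmodule (Bool × Option (Fin N)) K d).map
        (LinearMap.mulLeft K (monomial (eb N a) (1 : K)))) := Submodule.finrank_mono h3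
      _ ≤ _ := Submodule.finrank_map_le _ _
  omega

theorem sum_Id_le (N a : ℕ) (Q : ℝ≥0∞) (hQ : Q < 1) :
    (∑' d, Q ^ d * (finrank K (Pool.SDL.Id (bp K N a) d) : ℝ≥0∞)) ^ 2 ≤
      ∑' d, Q ^ d * (finrank K (Pool.SDL.Id (g2 K N a) d) : ℝ≥0∞) := by
  classical
  let e : MvPolynomial (Σ _ : Bool, Option (Fin N)) K ≃ₐ[K]
      MvPolynomial (Bool × Option (Fin N)) K :=
    renameEquiv K (Equiv.sigmaEquivProd Bool (Option (Fin N)))
  let G : ℕ → Submodule K (MvPolynomial (Σ _ : Bool, Option (Fin N)) K) := fun d =>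
    (Pool.SDL.Id (g2 K N a) d).map e.symm.toLinearEquiv.toLinearMap
  have hWfin : ∀ d, FiniteDimensional K (Pool.SDL.Id (g2 K N a) d) := fun d =>
    finite_of_le_homog _ _ (Id_le_homog _ _ (g2_homog K N a) d)
  have hGr : ∀ d, finrank K (G d) = finrank K (Pool.SDL.Id (g2 K N a) d) := fun d =>
    LinearEquiv.finrank_map_eq e.symm.toLinearEquiv (Pool.SDL.Id (g2 K N a) d)
  have hfin : ∀ d : ℕ, FiniteDimensional K (Pool.SDL.Id (bp K N a) d) :=
    fun d => finite_of_le_homog _ _ (Id_le_homog _ _ (bp_homog K N a) d)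
  have key := graded_prod_series (B := Bool) (V := fun _ => Option (Fin N))
    (fun _ d => Pool.SDL.Id (bp K N a) d)
    (fun _ => N + a) (fun _ d => Id_le_homog _ _ (bp_homog K N a) d) G (fun d f hf => by
      refine ⟨_, W0_bool_le K N a _ (prod_mem_W0 (bp K N a) d f hf), ?_⟩
      have h2 : ∏ b, rename (fun v => ((b, v) : Bool × Option (Fin N))) (f b) =
          rename (Equiv.sigmaEquivProd Bool (Option (Fin N)))
            (∏ b, rename (Sigma.mk b) (f b)) := by
        rw [map_prod]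
        refine Finset.prod_congr rfl fun b _ => ?_
        rw [rename_rename]
        rfl
      rw [h2]
      exact e.symm_apply_apply _) Q (ne_top_of_lt hQ)
  rw [Finset.prod_const, Finset.card_univ, Fintype.card_bool] at key
  simp only [hGr] at key
  exact key

theorem card_two (N : ℕ) : Fintype.card (Bool × Option (Fin N)) = 2 * (N + 1) := by
  simp

/-- one block -/
theorem block2 [CharZero K] (N a : ℕ) (haN : a < N) (Q : ℝ≥0∞) (hQ : Q < 1) :
    (1 - (1 - Q ^ N) ^ (a + 1)) ^ 2 - Q ^ (2 * (N - a)) ≤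
      Q ^ (2 * (N - a)) * (1 - Q) ^ (2 * (N + 1)) *
        ∑' d, Q ^ d * (finrank K ((Pool.SDL.Id (g2 K N a) d).map (keepMap K (P2 N))) : ℝ≥0∞) := by
  have h1 := Pool.SDL.block K N a haN Q hQ
  have h2 := sum_Id_le K N a Q hQ
  have h3 : ∑' d, Q ^ d * (finrank K (Pool.SDL.Id (g2 K N a) d) : ℝ≥0∞) ≤
      ∑' d, Q ^ d * (finrank K ((Pool.SDL.Id (g2 K N a) d).map (keepMap K (P2 N))) : ℝ≥0∞) +
        ((1 - Q)⁻¹) ^ (2 * (N + 1)) := by
    rw [← card_two N, ← Helper86.SDET.tsum_mon (K := K) (σ := Bool × Option (Fin N)) Q,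
      ← ENNReal.tsum_add]
    refine ENNReal.tsum_le_tsum fun d => ?_
    rw [← mul_add]
    gcongr
    exact_mod_cast block_keep K N a d
  have h5 : (1 - Q) ^ (2 * (N + 1)) * ((1 - Q)⁻¹) ^ (2 * (N + 1)) = 1 := by
    rw [← mul_pow, ENNReal.mul_inv_cancel (tsub_pos_of_lt hQ).ne'
      (ne_top_of_le_ne_top ENNReal.one_ne_top tsub_le_self), one_pow]
  rw [tsub_le_iff_right]
  set S1 := ∑' d, Q ^ d * (finrank K (Pool.SDL.Id (bp K N a) d) : ℝ≥0∞) with hS1
  set S2 := ∑' d, Q ^ d *
    (finrank K ((Pool.SDL.Id (g2 K N a) d).map (keepMap K (P2 N))) : ℝ≥0∞) with hS2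
  calc (1 - (1 - Q ^ N) ^ (a + 1)) ^ 2
      ≤ (Q ^ (N - a) * (1 - Q) ^ (N + 1) * S1) ^ 2 := by gcongr
    _ = Q ^ (2 * (N - a)) * ((1 - Q) ^ (2 * (N + 1)) * S1 ^ 2) := by
        rw [mul_pow, mul_pow, ← pow_mul, ← pow_mul, mul_comm (N - a) 2, mul_comm (N + 1) 2,
          mul_assoc]
    _ ≤ Q ^ (2 * (N - a)) * ((1 - Q) ^ (2 * (N + 1)) * (S2 + ((1 - Q)⁻¹) ^ (2 * (N + 1)))) := by
        gcongr
        exact h2.trans h3
    _ = _ := by
        rw [mul_add, h5, mul_add, mul_one, mul_assoc]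

/-! ### the final form -/

/-- the variables of all the blocks -/
def blockEquiv (D N : ℕ) : Fin D × (Bool × Option (Fin N)) ≃
    (Fin D ⊕ Fin D) × Option (Fin N) where
  toFun
    | (b, (false, v)) => (Sum.inl b, v)
    | (b, (true, v)) => (Sum.inr b, v)
  invFun
    | (Sum.inl b, v) => (b, (false, v))
    | (Sum.inr b, v) => (b, (true, v))
  left_inv := by rintro ⟨b, ⟨_ | _, v⟩⟩ <;> rfl
  right_inv := by rintro ⟨b | b, v⟩ <;> rfl

theorem V0_le (D N a l : ℕ) :
    (V0 (Fin D) (g2 K N a) l).map (rename (blockEquiv D N) :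
        MvPolynomial (Fin D × (Bool × Option (Fin N))) K →ₐ[K]
          MvPolynomial ((Fin D ⊕ Fin D) × Option (Fin N)) K).toLinearMap ≤
      V0 (Fin D ⊕ Fin D) (bp K N a) l := by
  rw [V0, V0, Submodule.map_span, Submodule.span_le]
  rintro _ ⟨f, ⟨μ, k, hμ, rfl⟩, rfl⟩
  refine Submodule.subset_span ⟨μ.mapDomain (blockEquiv D N),
    Sum.elim (fun b => (k b).1) (fun b => (k b).2), ?_, ?_⟩
  · rw [Finsupp.degree_mapDomain]
    exact hμ
  · rw [AlgHom.toLinearMap_apply, map_mul, rename_monomial, map_prod, Fintype.prod_sum_type,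
      ← Finset.prod_mul_distrib]
    congr 1
    refine Finset.prod_congr rfl fun b _ => ?_
    rw [g2, map_mul, map_mul, rename_rename, rename_rename, rename_rename, rename_rename]
    rfl

/-- the monomials which are kept, in the variables of the blocks -/
def P3 (D N : ℕ) (μ : (Fin D × (Bool × Option (Fin N))) →₀ ℕ) : Prop :=
  ∀ b : Fin D, ∃ j : Fin N, μ (b, (false, some j)) = 0 ∨ μ (b, (true, some j)) = 0

theorem Keep_iff (D N : ℕ) (μ : (Fin D × (Bool × Option (Fin N))) →₀ ℕ) :
    Keep (μ.mapDomain (blockEquiv D N)) ↔ P3 D N μ := by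
  have h1 : ∀ (b : Fin D) (v : Option (Fin N)),
      (μ.mapDomain (blockEquiv D N)) (Sum.inl b, v) = μ (b, (false, v)) := by
    intro b v
    have := Finsupp.mapDomain_apply (blockEquiv D N).injective μ (b, (false, v))
    exact this
  have h2 : ∀ (b : Fin D) (v : Option (Fin N)),
      (μ.mapDomain (blockEquiv D N)) (Sum.inr b, v) = μ (b, (true, v)) := by
    intro b v
    have := Finsupp.mapDomain_apply (blockEquiv D N).injective μ (b, (true, v))
    exact this
  unfold Keep P3
  simp only [h1, h2]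

theorem finrank_keep_le (D N a l : ℕ) :
    finrank K ((V0 (Fin D) (g2 K N a) l).map (keepMap K (P3 D N))) ≤
      finrank K ((V0 (Fin D ⊕ Fin D) (bp K N a) l).map (Pi K D N)) := by
  have hV : FiniteDimensional K (V0 (Fin D ⊕ Fin D) (bp K N a) l) :=
    Pool.SDD.finite_V0 _ _ l
  let e : MvPolynomial (Fin D × (Bool × Option (Fin N))) K ≃ₐ[K]
      MvPolynomial ((Fin D ⊕ Fin D) × Option (Fin N)) K := renameEquiv K (blockEquiv D N)
  rw [← LinearEquiv.finrank_map_eq e.toLinearEquiv]
  apply Submodule.finrank_mono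
  rintro _ ⟨_, ⟨f, hf, rfl⟩, rfl⟩
  refine ⟨rename (blockEquiv D N) f, V0_le K D N a l ⟨f, hf, rfl⟩, ?_⟩
  exact (keepMap_rename (blockEquiv D N) (P3 D N) Keep (Keep_iff D N) f).symm

/-- row C: the count -/
theorem rowC [CharZero K] (D N a : ℕ) (haN : a < N) (Q : ℝ≥0∞) (hQ : Q < 1) :
    ((1 - (1 - Q ^ N) ^ (a + 1)) ^ 2 - Q ^ (2 * (N - a))) ^ D ≤
      Q ^ (2 * (N - a) * D) *
        ((1 - Q) ^ (Fintype.card ((Fin D ⊕ Fin D) × Option (Fin N)) + 1) *
          ∑' l, Q ^ l *
            (finrank K ((V0 (Fin D ⊕ Fin D) (bp K N a) l).map (Pi K D N)) : ℝ≥0∞)) := by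
  have h1 := block2 K N a haN Q hQ
  have h2 := count_gen (K := K) (Fin D) (g2 K N a) (2 * (N + a)) (g2_homog K N a) (P2 N)
    (P3 D N) (by
      intro μ
      have h3 : ∀ (b : Fin D) (v : Bool × Option (Fin N)),
          (μ.mapDomain (Equiv.sigmaEquivProd (Fin D) (Bool × Option (Fin N)))) (b, v) =
            μ ⟨b, v⟩ := by
        intro b v
        exact Finsupp.mapDomain_apply
          (Equiv.sigmaEquivProd (Fin D) (Bool × Option (Fin N))).injective μ ⟨b, v⟩
      unfold P3 P2
      simp only [h3, part_apply]) Q hQ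
  rw [Fintype.card_fin] at h2
  have hcard : Fintype.card ((Fin D ⊕ Fin D) × Option (Fin N)) + 1 =
      2 * (N + 1) * D + 1 := by
    simp [Fintype.card_sum, Fintype.card_prod]
    ring
  rw [hcard]
  set S2 := ∑' d, Q ^ d *
    (finrank K ((Pool.SDL.Id (g2 K N a) d).map (keepMap K (P2 N))) : ℝ≥0∞) with hS2
  calc ((1 - (1 - Q ^ N) ^ (a + 1)) ^ 2 - Q ^ (2 * (N - a))) ^ D
      ≤ (Q ^ (2 * (N - a)) * (1 - Q) ^ (2 * (N + 1)) * S2) ^ D := by gcongr
    _ = Q ^ (2 * (N - a) * D) * ((1 - Q) ^ (2 * (N + 1) * D) * S2 ^ D) := by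
        rw [mul_pow, mul_pow, ← pow_mul, ← pow_mul, mul_assoc]
    _ ≤ Q ^ (2 * (N - a) * D) * ((1 - Q) ^ (2 * (N + 1) * D) * ((1 - Q) *
        ∑' l, Q ^ l * (finrank K ((V0 (Fin D ⊕ Fin D) (bp K N a) l).map (Pi K D N)) :
          ℝ≥0∞))) := by
        gcongr
        refine h2.trans ?_
        gcongr with l
        exact_mod_cast finrank_keep_le K D N a l
    _ = _ := by
        rw [pow_succ]
        ring

end Pool.ZTS
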