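import Pool.Agent.ZTS.Spec
import Pool.Agent.SDet.PfEnd

/-!
Zero tests by sums of products with Pfaffians (MP_381749_lc), row B: the main inequality for
limits of sums of products with Pfaffians, real form.
-/

open MvPolynomial Finset Filter Topology
open scoped BigOperators ENNReal

namespace Pool.ZTS

/-- `F` is, coefficient by coefficient, a limit of sums of `T` products of a polynomial of degree
at most `nu` and a Pfaffian of order at most `2 m` with entries of degree at most `d` -/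
def Lim (K : Type) [NormedField K] {Z : Type} (m d nu T : ℕ) (F : MvPolynomial Z K) : Prop :=
  ∀ ε : ℝ, 0 < ε → ∃ (s : Fin T → ℕ) (P : Fin T → MvPolynomial Z K)
    (A : ∀ i, Matrix (Fin (2 * s i)) (Fin (2 * s i)) (MvPolynomial Z K)),
    (∀ i, s i ≤ m) ∧ (∀ i, (P i).totalDegree ≤ nu) ∧ (∀ i p q, (A i p q).totalDegree ≤ d) ∧
    ∀ u, ‖coeff u (∑ i, P i * Pool.PF.pf (s i) (A i)) - coeff u F‖ < ε

/-- sequences from the limit -/
theorem lim_seq {K : Type} [NormedField K] {Z : Type} [Finite Z] {m d nu T : ℕ}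
    {F : MvPolynomial Z K} (h : Lim K m d nu T F) :
    ∃ (B : ℕ → Fin T → Pool.PF.Cell (2 * m) → MvPolynomial Z K)
      (f : ℕ → Fin T → MvPolynomial Z K) (S : Finset (Z →₀ ℕ)),
      (∀ r t c, (B r t c).totalDegree ≤ d) ∧
      (∀ r t, f r t ∈ Pool.SDD.Wl (fun j => aeval (B r t) (Pool.PF.pfam K (2 * m) m j)) nu) ∧
      (∀ r t, (f r t).totalDegree ≤ m * d + nu) ∧
      (∀ r, (∑ t, f r t).support ⊆ S) ∧
      ∀ u, Tendsto (fun r => coeff u (∑ t, f r t)) atTop (𝓝 (coeff u F)) := by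
  classical
  choose s P A hs hP hA hM using fun r : ℕ => h (1 / ((r : ℝ) + 1)) (by positivity)
  choose B hB1 hB2 using fun (r : ℕ) (t : Fin T) =>
    Pool.PF.exists_aeval (hs r t) d (A r t) (hA r t)
  obtain ⟨S, hS⟩ := Pool.SDF.exists_box Z (m * d + nu)
  have hdeg : ∀ r t, (P r t * Pool.PF.pf (s r t) (A r t)).totalDegree ≤ m * d + nu := by
    intro r t
    refine (totalDegree_mul _ _).trans ?_
    have h1 := (Pool.PF.totalDegree_pf_le d (s r t) (A r t) (hA r t)).trans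
      (Nat.mul_le_mul_right d (hs r t))
    have h2 := hP r t
    omega
  have hsumdeg : ∀ r, (∑ t, P r t * Pool.PF.pf (s r t) (A r t)).totalDegree ≤ m * d + nu := by
    intro r
    exact (totalDegree_finsetSum _ _).trans (Finset.sup_le fun t _ => hdeg r t)
  refine ⟨B, fun r t => P r t * Pool.PF.pf (s r t) (A r t), S, hB1, ?_, hdeg, ?_, ?_⟩
  · intro r t
    have h0 : aeval (B r t) (Pool.PF.pfam K (2 * m) m (RelEmbedding.refl _)) ∈
        Pool.SDD.Wl (fun j => aeval (B r t) (Pool.PF.pfam K (2 * m) m j)) 0 :=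
      Submodule.subset_span ⟨0, RelEmbedding.refl _, by simp, by simp⟩
    have h1 := Pool.SDD.mul_mem_Wl (hP r t) h0
    rw [Nat.add_zero] at h1
    change P r t * Pool.PF.pf (s r t) (A r t) ∈ _
    rw [hB2 r t]
    exact h1
  · intro r u hu
    apply hS
    intro v
    have h1 := le_totalDegree hu
    exact ((Finsupp.le_degree v u).trans (le_of_eq rfl)).trans (h1.trans (hsumdeg r))
  · intro u
    rw [tendsto_iff_norm_sub_tendsto_zero]
    exact squeeze_zero (fun r => norm_nonneg _) (fun r => (hM r u).le)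
      tendsto_one_div_add_atTop_nhds_zero_nat

/-- the degree of a limit -/
theorem lim_totalDegree {K : Type} [NormedField K] {Z : Type} [Finite Z] {m d nu T : ℕ}
    {F : MvPolynomial Z K} (h : Lim K m d nu T F) : F.totalDegree ≤ m * d + nu := by
  classical
  obtain ⟨B, f, S, -, -, hdeg, -, hconv⟩ := lim_seq h
  refine Finset.sup_le fun u hu => ?_
  by_contra hn
  have h1 := hconv u
  have h2 : ∀ r, coeff u (∑ t, f r t) = 0 := by
    intro r
    by_contra hne
    have h3 := le_totalDegree (mem_support_iff.mpr hne)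
    have h4 : (∑ t, f r t).totalDegree ≤ m * d + nu :=
      (totalDegree_finsetSum _ _).trans (Finset.sup_le fun t _ => hdeg r t)
    omega
  simp only [h2] at h1
  exact mem_support_iff.mp hu (tendsto_nhds_unique tendsto_const_nhds h1).symm

/-- a nonzero limit needs at least one summand -/
theorem lim_pos {K : Type} [NormedField K] {Z : Type} [Finite Z] {m d nu T : ℕ}
    {F : MvPolynomial Z K} (hF : F ≠ 0) (h : Lim K m d nu T F) : 1 ≤ T := by
  classical
  obtain ⟨B, f, S, -, -, hdeg, -, hconv⟩ := lim_seq h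
  by_contra hT
  have hT0 : T = 0 := by omega
  subst hT0
  apply hF
  ext u
  have h1 := hconv u
  simp only [Finset.univ_eq_empty, Finset.sum_empty, coeff_zero] at h1
  rw [coeff_zero]
  exact (tendsto_nhds_unique tendsto_const_nhds h1).symm

/-- passage to real numbers -/
theorem real_transfer' {T D N a dl nu b k : ℕ} (q : ℝ) (hq0 : 0 < q) (hq1 : q < 1)
    (hpos : q ^ (2 * (N - a)) ≤ (1 - (1 - q ^ N) ^ (a + 1)) ^ 2)
    (key : ENNReal.ofReal q ^ (nu + D * (dl - 1)) *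
        ((1 - (1 - ENNReal.ofReal q ^ N) ^ (a + 1)) ^ 2 -
          ENNReal.ofReal q ^ (2 * (N - a))) ^ D ≤
      ENNReal.ofReal q ^ (2 * (N - a) * D) * (T * ∑ j ∈ Finset.range b,
        (Nat.choose (k + j) j : ℝ≥0∞) * (1 - ENNReal.ofReal q ^ dl) ^ j)) :
    q ^ (nu + D * (dl - 1)) * ((1 - (1 - q ^ N) ^ (a + 1)) ^ 2 - q ^ (2 * (N - a))) ^ D ≤
      q ^ (2 * (N - a) * D) * (T * ∑ j ∈ Finset.range b,
        (Nat.choose (k + j) j : ℝ) * (1 - q ^ dl) ^ j) := by
  have hpow : ∀ i : ℕ, (1 : ℝ≥0∞) - ENNReal.ofReal q ^ i = ENNReal.ofReal (1 - q ^ i) := by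
    intro i
    rw [ENNReal.ofReal_sub _ (pow_nonneg hq0.le _), ENNReal.ofReal_pow hq0.le, ENNReal.ofReal_one]
  have h1q : ∀ i : ℕ, 0 ≤ 1 - q ^ i := fun i => by
    have := pow_le_one₀ (n := i) hq0.le hq1.le
    linarith
  have h1qN' : (1 - q ^ N) ^ (a + 1) ≤ 1 :=
    pow_le_one₀ (h1q N) (by linarith [pow_pos hq0 N])
  have e1 : (((1 : ℝ≥0∞) - (1 - ENNReal.ofReal q ^ N) ^ (a + 1)) ^ 2 -
        ENNReal.ofReal q ^ (2 * (N - a))) ^ D =
      ENNReal.ofReal (((1 - (1 - q ^ N) ^ (a + 1)) ^ 2 - q ^ (2 * (N - a))) ^ D) := by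
    have e0 : (1 : ℝ≥0∞) - (1 - ENNReal.ofReal q ^ N) ^ (a + 1) =
        ENNReal.ofReal (1 - (1 - q ^ N) ^ (a + 1)) := by
      rw [hpow, ← ENNReal.ofReal_pow (h1q N), ← ENNReal.ofReal_one,
        ← ENNReal.ofReal_sub _ (pow_nonneg (h1q N) _)]
    rw [e0, ← ENNReal.ofReal_pow (by linarith), ← ENNReal.ofReal_pow hq0.le,
      ← ENNReal.ofReal_sub _ (by positivity), ← ENNReal.ofReal_pow (by linarith)]
  have e2 : ∑ j ∈ Finset.range b, (Nat.choose (k + j) j : ℝ≥0∞) *
      (1 - ENNReal.ofReal q ^ dl) ^ j = ENNReal.ofReal (∑ j ∈ Finset.range b,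
        (Nat.choose (k + j) j : ℝ) * (1 - q ^ dl) ^ j) := by
    rw [ENNReal.ofReal_sum_of_nonneg (fun j _ => mul_nonneg (by positivity)
      (pow_nonneg (h1q dl) _))]
    apply Finset.sum_congr rfl
    intro j _
    rw [hpow, ENNReal.ofReal_mul (by positivity), ENNReal.ofReal_pow (h1q dl),
      ENNReal.ofReal_natCast]
  have hS : 0 ≤ ∑ j ∈ Finset.range b, (Nat.choose (k + j) j : ℝ) * (1 - q ^ dl) ^ j :=
    Finset.sum_nonneg (fun j _ => mul_nonneg (by positivity) (pow_nonneg (h1q dl) _))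
  rw [e1, e2, ← ENNReal.ofReal_pow hq0.le, ← ENNReal.ofReal_pow hq0.le, ← ENNReal.ofReal_natCast,
    ← ENNReal.ofReal_mul (by positivity), ← ENNReal.ofReal_mul (by positivity),
    ← ENNReal.ofReal_mul (by positivity)] at key
  exact (ENNReal.ofReal_le_ofReal_iff
    (mul_nonneg (by positivity) (mul_nonneg (by positivity) hS))).mp key

/-- the main inequality, real form -/
theorem main_real {K : Type} [NormedField K] [CharZero K] {Z : Type} [Finite Z]
    {m d nu T D N a : ℕ}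
    (hd : 1 ≤ d) (hD : D < m) (F : MvPolynomial Z K) (h : Lim K m d nu T F)
    {C : Type} [Finite C]
    (φ0 : Z → MvPolynomial ((Fin D ⊕ Fin D) × Option (Fin N)) K)
    (hφ0 : ∀ x, (φ0 x).totalDegree ≤ 1) (u : C → Fin D → Z → K) (low : ℕ → ℕ)
    (hlow : ∀ l, low l ≤ Module.finrank (FractionRing (MvPolynomial Z K))
      (Submodule.span (FractionRing (MvPolynomial Z K))
        (Set.range fun i : {μ : ((Fin D ⊕ Fin D) × Option (Fin N)) →₀ ℕ // μ.degree ≤ l} × C =>
          (monomial i.1.1 1 : MvPolynomial ((Fin D ⊕ Fin D) × Option (Fin N))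
            (FractionRing (MvPolynomial Z K))) *
            Pool.FD.shift φ0 (Pool.FD.itd ((List.finRange D).map (u i.2)) F))))
    (hcount : ∀ Q : ℝ≥0∞, Q < 1 →
      ((1 - (1 - Q ^ N) ^ (a + 1)) ^ 2 - Q ^ (2 * (N - a))) ^ D ≤
      Q ^ (2 * (N - a) * D) *
        ((1 - Q) ^ (Fintype.card ((Fin D ⊕ Fin D) × Option (Fin N)) + 1) *
          ∑' l, Q ^ l * (low l : ℝ≥0∞)))
    (q : ℝ) (hq0 : 0 < q) (hq1 : q < 1)
    (hpos : q ^ (2 * (N - a)) ≤ (1 - (1 - q ^ N) ^ (a + 1)) ^ 2) :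
    q ^ (nu + D * (d - 1)) * ((1 - (1 - q ^ N) ^ (a + 1)) ^ 2 - q ^ (2 * (N - a))) ^ D ≤
      q ^ (2 * (N - a) * D) * (T * ∑ j ∈ Finset.range (2 * D + 1),
        (Nat.choose (2 * m - 2 * D - 1 + j) j : ℝ) * (1 - q ^ d) ^ j) := by
  classical
  obtain ⟨B, f, S, hB, hf, hdeg, hS, hconv⟩ := lim_seq h
  obtain ⟨k, hk⟩ : ∃ k, m = k + D := ⟨m - D, by omega⟩
  have hk1 : 1 ≤ k := by omega
  have hQ : ENNReal.ofReal q < 1 := by
    rw [← ENNReal.ofReal_one]
    exact (ENNReal.ofReal_lt_ofReal_iff (by norm_num)).mpr hq1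
  have hf' : ∀ r t, f r t ∈
      Pool.SDD.Wl (fun j => aeval (B r t) (Pool.PF.pfam K (2 * m) (k + D) j)) nu := by
    intro r t
    have := hf r t
    rw [← hk]
    exact this
  have key := zts_ineq (Pool.PF.pfam K (2 * m) (k + D))
    (Pool.PF.pfam K (2 * m) k) φ0 u hφ0
    (fun A hA F hF => Pool.SDD.R2 (Pool.PF.pfam K (2 * m)) Pool.PF.pfam_tower
      k D nu d hd A hA F hF) (ENNReal.ofReal q) _
    (fun A' hA' => Pool.SDD.pf_hU hk1 (by omega) hd A' hA' _ hQ) B hB f hf' S hS F hconv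
    low hlow
  have h1 : ENNReal.ofReal q ^ (nu + D * (d - 1)) *
        ((1 - (1 - ENNReal.ofReal q ^ N) ^ (a + 1)) ^ 2 -
          ENNReal.ofReal q ^ (2 * (N - a))) ^ D ≤
      ENNReal.ofReal q ^ (2 * (N - a) * D) * (T * ∑ j ∈ Finset.range (2 * (m - k) + 1),
        (Nat.choose (2 * k - 1 + j) j : ℝ≥0∞) * (1 - ENNReal.ofReal q ^ d) ^ j) := by
    refine (mul_le_mul_right (hcount (ENNReal.ofReal q) hQ) _).trans ?_
    rw [← mul_assoc, mul_comm (ENNReal.ofReal q ^ (nu + D * (d - 1))), mul_assoc]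
    exact mul_le_mul_right key _
  have h2 := real_transfer' (k := 2 * k - 1) (b := 2 * (m - k) + 1) q hq0 hq1 hpos h1
  rw [show 2 * (m - k) + 1 = 2 * D + 1 by omega, show 2 * k - 1 = 2 * m - 2 * D - 1 by omega] at h2
  exact h2

end Pool.ZTS
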