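import Pool.Agent.ZTS.FinalZ
import Pool.Agent.ZTS.MainReal
import Pool.Agent.ZTS.Count2

/-!
# Zero tests by sums of products with Pfaffians (MP_381749_lc): assembly of the bound for multiples
-/

set_option autoImplicit false

open MvPolynomial Finset
open scoped BigOperators ENNReal

namespace Pool.ZTS.IP

/-- the lower side for multiples of the permanent, at the generic point -/
def Lower : Prop :=
  ∀ (K : Type) [Field K] [CharZero K] (n D N a : ℕ), 1 ≤ D → 1 ≤ a → a < N →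
    D * (2 * (N + a) + 1) ≤ n → ∀ Q : MvPolynomial (Fin n × Fin n) K, Q ≠ 0 →
    ∃ (C : Type) (_ : Finite C)
      (φ0 : Fin n × Fin n → MvPolynomial ((Fin D ⊕ Fin D) × Option (Fin N)) K)
      (u : C → Fin D → Fin n × Fin n → K), (∀ x, (φ0 x).totalDegree ≤ 1) ∧
      ∀ l, Module.finrank K ((Pool.SDD.V0 (Fin D ⊕ Fin D) (Pool.SDL.bp K N a) l).map
          (Pi K D N)) ≤
        Module.finrank (FractionRing (MvPolynomial (Fin n × Fin n) K))
        (Submodule.span (FractionRing (MvPolynomial (Fin n × Fin n) K))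
          (Set.range fun i : {μ : ((Fin D ⊕ Fin D) × Option (Fin N)) →₀ ℕ // μ.degree ≤ l} × C =>
            (monomial i.1.1 1 : MvPolynomial ((Fin D ⊕ Fin D) × Option (Fin N))
              (FractionRing (MvPolynomial (Fin n × Fin n) K))) *
              Pool.FD.shift φ0 (Pool.FD.itd ((List.finRange D).map (u i.2)) (permK K n * Q))))

/-- the numerical statement -/
def N4 : Prop := ∃ C : ℝ, 1 ≤ C ∧ ∀ (n m d nu T : ℕ), 1 ≤ m → 1 ≤ d → nu < n → 1 ≤ T →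
  n ≤ m * d + nu →
  (∀ D N a : ℕ, 1 ≤ D → 1 ≤ a → a < N → D * (2 * (N + a) + 1) ≤ n → D < m →
    ∀ q : ℝ, 0 < q → q < 1 → q ^ (2 * (N - a)) ≤ (1 - (1 - q ^ N) ^ (a + 1)) ^ 2 →
    q ^ (nu + D * (d - 1)) * ((1 - (1 - q ^ N) ^ (a + 1)) ^ 2 - q ^ (2 * (N - a))) ^ D ≤
      q ^ (2 * (N - a) * D) * (T * ∑ j ∈ Finset.range (2 * D + 1),
        (Nat.choose (2 * m - 2 * D - 1 + j) j : ℝ) * (1 - q ^ d) ^ j)) →
  ∀ η μ t : ℝ, η = 1 - (nu : ℝ) / n → μ = max 1 ((m : ℝ) * d / n) →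
    t = (C * μ * (1 + Real.log (μ / η)) / η) ^ (1 / η) →
    Real.exp (n / (C * (t + d) * Real.log t)) ≤ 2 * T

theorem permK_ne_zero {K : Type} [Field K] [CharZero K] (n : ℕ) : permK K n ≠ 0 :=
  Pool.SDF.gperm_ne_zero n

/-- at least one summand, and the degree is large enough -/
theorem basic {K : Type} [NormedField K] [CharZero K] {n m d nu T : ℕ}
    {Q : MvPolynomial (Fin n × Fin n) K} (hQ : Q ≠ 0) (h : LimSum m d nu T (permK K n * Q)) :
    1 ≤ T ∧ n ≤ m * d + nu := by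
  have hp : permK K n ≠ 0 := permK_ne_zero n
  have h' : Lim K m d nu T (permK K n * Q) := h
  refine ⟨lim_pos (mul_ne_zero hp hQ) h', ?_⟩
  have h1 := lim_totalDegree h'
  rw [totalDegree_mul_of_isDomain hp hQ] at h1
  obtain ⟨u, hu, hun⟩ := Pool.SDF.exists_coeff (K := K) n
  have h2 := le_totalDegree (mem_support_iff.mpr hu)
  have h5 : (u.sum fun _ e => e) = u.degree := rfl
  have h6 : Pool.SDF.gperm K n = permK K n := rfl
  rw [h5, hun, h6] at h2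
  omega

theorem mult_of (hL : Lower) (hN : N4) : ∃ C : ℝ, 1 ≤ C ∧ Mult C := by
  obtain ⟨C, hC, H⟩ := hN
  refine ⟨C, hC, ?_⟩
  intro K _ _ n m d nu T hm hd hnu Q hQ h η μ t h1 h2 h3
  obtain ⟨hT, hnd⟩ := basic hQ h
  refine H n m d nu T hm hd hnu hT hnd ?_ η μ t h1 h2 h3
  intro D N a hD ha haN hn hDm q hq0 hq1 hpos
  obtain ⟨Cc, hCc, φ0, u, hφ0, hlow⟩ := hL K n D N a hD ha haN hn Q hQ
  exact main_real hd hDm (permK K n * Q) h φ0 hφ0 u _ hlow
    (fun Q hQ => rowC K D N a haN Q hQ) q hq0 hq1 hpos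

/-- the final statement from the lower side and the numerics -/
theorem final (hL : Lower) (hN : N4) : ∃ C : ℝ, 1 ≤ C ∧
    ∀ (K : Type) [NormedField K] [CharZero K] (n m d nu T k : ℕ), 1 ≤ m → 1 ≤ d → nu < n →
    ∀ η μ t : ℝ, η = 1 - (nu : ℝ) / n → μ = max 1 ((m : ℝ) * d / n) →
      t = (C * μ * (1 + Real.log (μ / η)) / η) ^ (1 / η) →
      2 * (T : ℝ) < Real.exp (n / (C * (t + d) * Real.log t)) →
    ∀ G : Fin k → MvPolynomial (Fin n × Fin n) K, (∀ i, G i ≠ 0 ∧ LimSum m d nu T (G i)) →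
    ∀ (α : Type) (q : Matrix (Fin n) (Fin n) ℚ → α),
    (∀ X : Matrix (Fin n) (Fin n) ℚ, (∀ i, eval (fun p => (X p.1 p.2 : K)) (G i) ≠ 0) →
      ∃ ε : ℚ, 0 < ε ∧
        ∀ Y : Matrix (Fin n) (Fin n) ℚ, (∀ a b, |Y a b - X a b| < ε) → q Y = q X) →
    ∃ (X : Matrix (Fin n) (Fin n) ℤ) (Y : Matrix (Fin n) (Fin n) ℚ),
      X.permanent = 0 ∧ Y.permanent ≠ 0 ∧
      (∀ i, eval (fun p => (X p.1 p.2 : K)) (G i) ≠ 0 ∧
        eval (fun p => (Y p.1 p.2 : K)) (G i) ≠ 0) ∧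
      q Y = q (X.map (Int.cast : ℤ → ℚ)) := by
  obtain ⟨C, hC, H⟩ := mult_of hL hN
  exact ⟨C, hC, fun K _ _ => final_of H K⟩

end Pool.ZTS.IP
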