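import Pool.Agent.ZTS.Low
import Pool.Agent.ZTS.DataL
import Pool.Agent.ZTS.MultAsm

/-!
Zero tests by sums (ZTS): the lower side for multiples of the permanent.
-/

set_option autoImplicit false

open MvPolynomial Finset
open scoped BigOperators

namespace Pool.ZTS

lemma lam_disj (D N : ℕ) (b b' : Fin D) (hb : b ≠ b') : Disjoint (lam D N b) (lam D N b') := by
  rw [Finset.disjoint_left]
  rintro ⟨x, y⟩ h1 h2
  unfold lam at h1 h2
  rw [Finset.mem_product] at h1 h2
  obtain ⟨h1, -⟩ := h1
  obtain ⟨h2, -⟩ := h2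
  simp only [Finset.mem_insert, Finset.mem_singleton] at h1 h2
  rcases h1 with rfl | rfl <;> rcases h2 with h2 | h2
  · exact hb (Sum.inl_injective h2)
  · exact absurd h2 (by simp)
  · exact absurd h2 (by simp)
  · exact hb (Sum.inr_injective h2)

/-- the rank at the generic point for the data of rows L and V -/
theorem low_data {K : Type} [Field K] [CharZero K] {n D N a : ℕ} (B : Data K n D N a)
    (Q : MvPolynomial (Fin n × Fin n) K) (hQ : Q ≠ 0) (l : ℕ) :
    Module.finrank K ((Pool.SDD.V0 (Fin D ⊕ Fin D) (Pool.SDL.bp K N a) l).map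
        (Pi K D N)) ≤
      Module.finrank (FractionRing (MvPolynomial (Fin n × Fin n) K))
        (Submodule.span (FractionRing (MvPolynomial (Fin n × Fin n) K))
          (Set.range fun i : {μ : Ys D N →₀ ℕ // μ.degree ≤ l} ×
              ((Fin D ⊕ Fin D) → Fin (a + 1)) =>
            (monomial i.1.1 1 : MvPolynomial (Ys D N)
              (FractionRing (MvPolynomial (Fin n × Fin n) K))) *
              Pool.FD.shift B.phi0 (Pool.FD.itd ((List.finRange D).map fun b =>
                (Pi.single (B.cor i.2 b) 1 : Fin n × Fin n → K)) (Q * Pool.SDF.gperm K n)))) := by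
  classical
  set al : MvPolynomial (Ys D N) K →+* FractionRing (MvPolynomial (Ys D N) K) :=
    algebraMap (MvPolynomial (Ys D N) K) (FractionRing (MvPolynomial (Ys D N) K)) with hal
  obtain ⟨H, hH1, hH2⟩ := B.lead
    (MvPolynomial (Fin n × Fin n) (FractionRing (MvPolynomial (Ys D N) K)))
    ((C : FractionRing (MvPolynomial (Ys D N) K) →+* _).comp al) (fun x => X x)
  have hP : Psi B.wt (Sh al B.phi0 (Pool.SDF.gperm K n)) = Polynomial.X ^ D * H := by
    rw [← hH1]
    unfold Pool.SDF.gperm Matrix.permanent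
    rw [map_sum, map_sum]
    refine Finset.sum_congr rfl fun σ _ => ?_
    rw [map_prod, map_prod]
    refine Finset.prod_congr rfl fun i _ => ?_
    simp only [Matrix.of_apply]
    rw [Sh_X, map_add, Psi_X, Psi_C, add_comm, mul_comm (Polynomial.X ^ _)]
    rfl
  have hmain := low_generic (K := K) B.phi0 B.cor B.wt B.wt_cor
    (fun b p => rr K D N a b * B.g b p) B.g (rr K D N a) (rr_ne_zero D N a) (fun _ _ => rfl) B.v
    (fun κ b b' hb => by
      change rr K D N a b * B.g b (B.cor κ b') = 0
      rw [B.cor_ne κ b b' hb, mul_zero])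
    (lam D N) (lam_disj D N) B.gv
    (fun b b' hb => by
      have h1 := B.gv_ne b b' hb
      have h2 : ∑ p, rr K D N a b' * B.g b' p * C (B.v b p) =
          rr K D N a b' * ∑ p, B.g b' p * C (B.v b p) := by
        rw [Finset.mul_sum]
        exact Finset.sum_congr rfl fun p _ => mul_assoc _ _ _
      change ∑ p, rr K D N a b' * B.g b' p * C (B.v b p) = 0
      rw [h2, h1, mul_zero])
    (fun z hz b => by
      obtain ⟨p, hp⟩ := B.nz z hz b
      refine ⟨p, ?_⟩
      convert hp using 2
      unfold kill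
      congr 1
      funext y
      congr 1
      simp)
    (Pool.SDF.gperm K n) H hP
    (by
      rw [hH2]
      refine Finset.prod_congr rfl fun b _ => ?_
      rfl) Q hQ l
  refine le_trans (le_of_eq ?_) hmain
  rw [Pi_eq_Del]
  have h1 : Pool.SDD.V0 (Fin D ⊕ Fin D) (Pool.SDL.bp K N a) l =
      Pool.SDD.Wl (fun κ : (Fin D ⊕ Fin D) → Fin (a + 1) =>
        ∏ b, (rr K D N a b * B.g b (B.cor κ b))) l := by
    unfold Pool.SDD.V0 Pool.SDD.Wl
    congr 1
    ext f
    constructor
    · rintro ⟨μ, κ, hμ, rfl⟩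
      refine ⟨μ, κ, hμ, ?_⟩
      dsimp only
      rw [B.cor_prod]
      rfl
    · rintro ⟨μ, κ, hμ, rfl⟩
      refine ⟨μ, κ, hμ, ?_⟩
      dsimp only
      rw [B.cor_prod]
      rfl
  rw [h1]

/-- the lower side for multiples of the permanent -/
theorem lowerZ : IP.Lower := by
  intro K _ _ n D N a hD ha haN hn Q hQ
  obtain ⟨B⟩ := exists_data (K := K) ha haN hn
  refine ⟨(Fin D ⊕ Fin D) → Fin (a + 1), inferInstance, B.phi0,
    fun κ b => Pi.single (B.cor κ b) 1, B.deg, ?_⟩
  intro l
  have h := low_data B Q hQ l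
  have h1 : IP.permK K n * Q = Q * Pool.SDF.gperm K n := mul_comm _ _
  rw [h1]
  exact h

end Pool.ZTS
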