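import Pool.Agent.ZTS.IntPtK
import Pool.Agent.PF.Matrix

/-!
# Zero tests by sums of products with Pfaffians (MP_381749_lc): row Z, from multiples of the
permanent to queries
-/

set_option autoImplicit false

namespace Pool.ZTS.IP

open MvPolynomial

/-- `G` is a limit, coefficient by coefficient, of sums of `T` products `P * pf A`, with `P` of
degree at most `nu` and `A` of order at most `2 m` with entries of degree at most `d` -/
def LimSum {K V : Type} [NormedField K] (m d nu T : ℕ) (G : MvPolynomial V K) : Prop :=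
  ∀ ε : ℝ, 0 < ε → ∃ (s : Fin T → ℕ) (P : Fin T → MvPolynomial V K)
    (A : ∀ j, Matrix (Fin (2 * s j)) (Fin (2 * s j)) (MvPolynomial V K)),
    (∀ j, s j ≤ m) ∧ (∀ j, (P j).totalDegree ≤ nu) ∧ (∀ j p q, (A j p q).totalDegree ≤ d) ∧
    ∀ u, ‖coeff u (∑ j, P j * Pool.PF.pf (s j) (A j)) - coeff u G‖ < ε

/-- the exponential bound for multiples of the permanent -/
def Mult (C : ℝ) : Prop :=
  ∀ (K : Type) [NormedField K] [CharZero K] (n m d nu T : ℕ), 1 ≤ m → 1 ≤ d → nu < n →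
    ∀ Q : MvPolynomial (Fin n × Fin n) K, Q ≠ 0 → LimSum m d nu T (permK K n * Q) →
    ∀ η μ t : ℝ, η = 1 - (nu : ℝ) / n → μ = max 1 ((m : ℝ) * d / n) →
      t = (C * μ * (1 + Real.log (μ / η)) / η) ^ (1 / η) →
      Real.exp (n / (C * (t + d) * Real.log t)) ≤ 2 * T

theorem infinite_near {K : Type} [Field K] [CharZero K] (x : ℚ) {ε : ℚ} (hε : 0 < ε) :
    {z : K | ∃ y : ℚ, |y - x| < ε ∧ z = (y : K)}.Infinite := by
  have h1 : (Set.Ioo (x - ε) (x + ε)).Infinite := Set.Ioo_infinite (by linarith)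
  refine (h1.image (f := fun y : ℚ => (y : K)) ?_).mono ?_
  · exact fun y _ y' _ h => Rat.cast_injective h
  · rintro _ ⟨y, hy, rfl⟩
    refine ⟨y, ?_, rfl⟩
    rw [abs_lt]
    constructor <;> linarith [hy.1, hy.2]

/-- near each rational matrix there is one at which a given nonzero polynomial does not vanish -/
theorem exists_near {K : Type} [Field K] [CharZero K] {n : ℕ} {F : MvPolynomial (Fin n × Fin n) K}
    (hF : F ≠ 0) (X : Matrix (Fin n) (Fin n) ℚ) {ε : ℚ} (hε : 0 < ε) :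
    ∃ Y : Matrix (Fin n) (Fin n) ℚ, (∀ a b, |Y a b - X a b| < ε) ∧
      eval (fun p => (Y p.1 p.2 : K)) F ≠ 0 := by
  by_contra hne
  push Not at hne
  apply hF
  refine funext_set (fun p => {z : K | ∃ y : ℚ, |y - X p.1 p.2| < ε ∧ z = (y : K)})
    (fun p => infinite_near _ hε) fun x hx => ?_
  have hx' : ∀ p, ∃ y : ℚ, |y - X p.1 p.2| < ε ∧ x p = (y : K) := fun p => hx p (Set.mem_univ p)
  choose y hy hxy using hx'
  have h1 := hne (Matrix.of fun a b => y (a, b)) fun a b => hy (a, b)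
  have h2 : x = fun p => (y p : K) := funext hxy
  rw [map_zero, h2]
  exact h1

theorem eval_perm_rat {K : Type} [Field K] [CharZero K] {n : ℕ} (Y : Matrix (Fin n) (Fin n) ℚ) :
    eval (fun p => (Y p.1 p.2 : K)) (permK K n) = (Y.permanent : K) := by
  rw [eval_permPoly]
  unfold Matrix.permanent
  push_cast
  rfl

theorem final_of {C : ℝ} (H : Mult C) :
    ∀ (K : Type) [NormedField K] [CharZero K] (n m d nu T k : ℕ), 1 ≤ m → 1 ≤ d → nu < n →
    ∀ η μ t : ℝ, η = 1 - (nu : ℝ) / n → μ = max 1 ((m : ℝ) * d / n) →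
      t = (C * μ * (1 + Real.log (μ / η)) / η) ^ (1 / η) →
      2 * (T : ℝ) < Real.exp (n / (C * (t + d) * Real.log t)) →
    ∀ G : Fin k → MvPolynomial (Fin n × Fin n) K, (∀ i, G i ≠ 0 ∧ LimSum m d nu T (G i)) →
    ∀ (α : Type) (q : Matrix (Fin n) (Fin n) ℚ → α),
    (∀ X : Matrix (Fin n) (Fin n) ℚ, (∀ i, eval (fun p => (X p.1 p.2 : K)) (G i) ≠ 0) →
      ∃ ε : ℚ, 0 < ε ∧
        ∀ Y : Matrix (Fin n) (Fin n) ℚ, (∀ a b, |Y a b - X a b| < ε) → q Y = q X) →
    ∃ (X : Matrix (Fin n) (Fin n) ℤ) (Y : Matrix (Fin n) (Fin n) ℚ),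
      X.permanent = 0 ∧ Y.permanent ≠ 0 ∧
      (∀ i, eval (fun p => (X p.1 p.2 : K)) (G i) ≠ 0 ∧
        eval (fun p => (Y p.1 p.2 : K)) (G i) ≠ 0) ∧
      q Y = q (X.map (Int.cast : ℤ → ℚ)) := by
  classical
  intro K _ _ n m d nu T k hm hd hnu η μ t hη hμ ht hT G hG α q hq
  have hn : 1 ≤ n := by omega
  have hdvd : ∀ i, ¬ permK K n ∣ G i := by
    rintro i ⟨Q, hQ⟩
    have hQ0 : Q ≠ 0 := by
      rintro rfl
      rw [mul_zero] at hQ
      exact (hG i).1 hQ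
    have h2 := (hG i).2
    rw [hQ] at h2
    exact absurd (H K n m d nu T hm hd hnu Q hQ0 h2 η μ t hη hμ ht) (not_le.2 hT)
  have hprod : ¬ permK K n ∣ ∏ i, G i := by
    intro h
    obtain ⟨i, -, hi⟩ := (Prime.dvd_finsetProd_iff (perm_prime hn) _).1 h
    exact hdvd i hi
  obtain ⟨X, hX, hGX⟩ := int_pt n hn _ hprod
  rw [map_prod, Finset.prod_ne_zero_iff] at hGX
  have h3 : (fun p : Fin n × Fin n => (((X.map (Int.cast : ℤ → ℚ)) p.1 p.2 : ℚ) : K)) =
      fun p => (X p.1 p.2 : K) := by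
    funext p
    rw [Matrix.map_apply]
    push_cast
    rfl
  obtain ⟨ε, hε, hloc⟩ := hq (X.map (Int.cast : ℤ → ℚ)) fun i => by
    rw [h3]
    exact hGX i (Finset.mem_univ i)
  have hF : permK K n * ∏ i, G i ≠ 0 :=
    mul_ne_zero (perm_prime hn).ne_zero (Finset.prod_ne_zero_iff.2 fun i _ => (hG i).1)
  obtain ⟨Y, hY, hYp⟩ := exists_near hF (X.map (Int.cast : ℤ → ℚ)) hε
  rw [map_mul, map_prod, eval_perm_rat] at hYp
  have hY1 : Y.permanent ≠ 0 := by
    intro h0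
    rw [h0, Rat.cast_zero, zero_mul] at hYp
    exact hYp rfl
  have hY2 := Finset.prod_ne_zero_iff.1 (right_ne_zero_of_mul hYp)
  exact ⟨X, Y, hX, hY1, fun i => ⟨hGX i (Finset.mem_univ i), hY2 i (Finset.mem_univ i)⟩, hloc Y hY⟩

end Pool.ZTS.IP
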