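import Pool.Agent.ZTS.Seg

/-!
# Top forms of limits of sums of products with Pfaffians (MP_381749_lc, zero tests by sums)
-/

set_option autoImplicit false

open MvPolynomial Finset Filter Topology

namespace Pool.ZTS.IP

section resc

variable {K : Type} [Field K] {V : Type}

/-- the substitution `X ↦ t X` -/
noncomputable def resc (t : K) : MvPolynomial V K →ₐ[K] MvPolynomial V K :=
  aeval fun v => C t * X v

theorem coeff_resc (t : K) (F : MvPolynomial V K) (u : V →₀ ℕ) :
    coeff u (resc t F) = t ^ u.degree * coeff u F := by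
  classical
  induction F using MvPolynomial.induction_on' with
  | monomial μ c =>
    have h1 : resc t (monomial μ c) = monomial μ (t ^ μ.degree * c) := by
      unfold resc
      rw [aeval_monomial, algebraMap_eq, Finsupp.prod]
      have h2 : ∀ v ∈ μ.support, (C t * X v : MvPolynomial V K) ^ μ v =
          C (t ^ μ v) * X v ^ μ v := by
        intro v _
        rw [mul_pow, C_pow]
      rw [Finset.prod_congr rfl h2, Finset.prod_mul_distrib, ← map_prod,
        Finset.prod_pow_eq_pow_sum]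
      rw [monomial_eq, Finsupp.prod, ← mul_assoc, ← C_mul, mul_comm c]
      rfl
    rw [h1, coeff_monomial, coeff_monomial]
    by_cases h : μ = u
    · rw [if_pos h, if_pos h, h]
    · rw [if_neg h, if_neg h, mul_zero]
  | add p q hp hq => rw [map_add, coeff_add, hp, hq, coeff_add, mul_add]

theorem totalDegree_resc_le (t : K) (F : MvPolynomial V K) :
    (resc t F).totalDegree ≤ F.totalDegree := by
  refine Finset.sup_le fun u hu => ?_
  rw [mem_support_iff, coeff_resc] at hu
  exact le_totalDegree (mem_support_iff.mpr (right_ne_zero_of_mul hu))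

end resc

variable {K : Type} [NormedField K] {V : Type} [Finite V] {m d nu T : ℕ}

theorem limSum_of_near {G : MvPolynomial V K}
    (h : ∀ ε : ℝ, 0 < ε → ∃ F : MvPolynomial V K, LimSum m d nu T F ∧
      ∀ u, ‖coeff u F - coeff u G‖ < ε) : LimSum m d nu T G := by
  intro ε hε
  obtain ⟨F, hF, h1⟩ := h (ε / 2) (by linarith)
  obtain ⟨s, P, A, hs, hP, hA, h2⟩ := hF (ε / 2) (by linarith)
  refine ⟨s, P, A, hs, hP, hA, fun u => ?_⟩
  have h3 := h1 u
  have h4 := h2 u
  calc ‖coeff u (∑ j, P j * Pool.PF.pf (s j) (A j)) - coeff u G‖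
      = ‖(coeff u (∑ j, P j * Pool.PF.pf (s j) (A j)) - coeff u F) +
          (coeff u F - coeff u G)‖ := by rw [sub_add_sub_cancel]
    _ ≤ _ := norm_add_le _ _
    _ < ε := by linarith

theorem totalDegree_sum_le (s : Fin T → ℕ) (P : Fin T → MvPolynomial V K)
    (A : ∀ j, Matrix (Fin (2 * s j)) (Fin (2 * s j)) (MvPolynomial V K))
    (hs : ∀ j, s j ≤ m) (hP : ∀ j, (P j).totalDegree ≤ nu)
    (hA : ∀ j p q, (A j p q).totalDegree ≤ d) :
    (∑ j, P j * Pool.PF.pf (s j) (A j)).totalDegree ≤ m * d + nu := by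
  refine (totalDegree_finsetSum _ _).trans (Finset.sup_le fun t _ => ?_)
  refine (totalDegree_mul _ _).trans ?_
  have h1 := (Pool.PF.totalDegree_pf_le d (s t) (A t) (hA t)).trans
    (Nat.mul_le_mul_right d (hs t))
  have h2 := hP t
  omega

theorem limSum_scale {F : MvPolynomial V K} (hF : LimSum m d nu T F) (c t : K) :
    LimSum m d nu T (C c * resc t F) := by
  intro ε hε
  set M : ℝ := ‖c‖ * (max 1 ‖t‖) ^ (m * d + nu) with hM
  have hM0 : 0 ≤ M := by positivity
  obtain ⟨s, P, A, hs, hP, hA, h2⟩ := hF (ε / (1 + M)) (by positivity)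
  refine ⟨s, fun j => C c * resc t (P j), fun j => (A j).map (resc t), hs, ?_, ?_, ?_⟩
  · intro j
    refine (totalDegree_mul _ _).trans ?_
    rw [totalDegree_C, zero_add]
    exact (totalDegree_resc_le t _).trans (hP j)
  · intro j p q
    change (resc t (A j p q)).totalDegree ≤ d
    exact (totalDegree_resc_le t _).trans (hA j p q)
  · intro u
    have e1 : ∑ j, (C c * resc t (P j)) * Pool.PF.pf (s j) ((A j).map (resc t)) =
        C c * resc t (∑ j, P j * Pool.PF.pf (s j) (A j)) := by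
      rw [map_sum, Finset.mul_sum]
      refine Finset.sum_congr rfl fun j _ => ?_
      rw [map_mul]
      have := Pool.PF.map_pf (resc t : MvPolynomial V K →ₐ[K] MvPolynomial V K).toRingHom
        (s j) (A j)
      have h3 : (resc t) (Pool.PF.pf (s j) (A j)) = Pool.PF.pf (s j) ((A j).map (resc t)) := this
      rw [h3, mul_assoc]
    rw [e1, coeff_C_mul, coeff_C_mul, coeff_resc, coeff_resc, ← mul_sub, ← mul_sub, norm_mul,
      norm_mul, norm_pow]
    have hFdeg : F.totalDegree ≤ m * d + nu := lim_totalDegree (hF : Lim K m d nu T F)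
    have hSdeg := totalDegree_sum_le s P A hs hP hA
    by_cases hu : u.degree ≤ m * d + nu
    · have h3 := h2 u
      have h4 : ‖t‖ ^ u.degree ≤ (max 1 ‖t‖) ^ (m * d + nu) :=
        (pow_le_pow_left₀ (norm_nonneg t) (le_max_right 1 ‖t‖) _).trans
          (pow_le_pow_right₀ (le_max_left 1 ‖t‖) hu)
      calc ‖c‖ * (‖t‖ ^ u.degree *
            ‖coeff u (∑ j, P j * Pool.PF.pf (s j) (A j)) - coeff u F‖)
          ≤ ‖c‖ * ((max 1 ‖t‖) ^ (m * d + nu) * (ε / (1 + M))) := by gcongr
        _ = M * (ε / (1 + M)) := by rw [hM]; ring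
        _ < ε := by
          rw [mul_div_assoc', div_lt_iff₀ (by linarith)]
          nlinarith
    · have h5 : coeff u F = 0 := by
        by_contra hne
        have := le_totalDegree (mem_support_iff.mpr hne)
        have h6 : (u.sum fun _ e => e) = u.degree := rfl
        omega
      have h7 : coeff u (∑ j, P j * Pool.PF.pf (s j) (A j)) = 0 := by
        by_contra hne
        have := le_totalDegree (mem_support_iff.mpr hne)
        have h6 : (u.sum fun _ e => e) = u.degree := rfl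
        omega
      rw [h5, h7, sub_zero, norm_zero, mul_zero, mul_zero]
      exact hε

theorem limSum_top (h2 : 1 < ‖(2 : K)‖) {G : MvPolynomial V K} (hG : LimSum m d nu T G) :
    LimSum m d nu T (homogeneousComponent G.totalDegree G) := by
  classical
  have h20 : (2 : K) ≠ 0 := by
    intro h
    rw [h, norm_zero] at h2
    linarith
  refine limSum_of_near fun ε hε => ?_
  set D := G.totalDegree with hD
  set M : ℝ := ∑ u ∈ G.support, ‖coeff u G‖ with hM
  have hM0 : 0 ≤ M := Finset.sum_nonneg fun u _ => norm_nonneg _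
  have ht : Tendsto (fun r : ℕ => ‖((2 : K) ^ r)⁻¹‖ * M) atTop (𝓝 0) := by
    have h1 := (tendsto_two_inv h2).norm
    rw [norm_zero] at h1
    have h3 := h1.mul_const M
    rwa [zero_mul] at h3
  obtain ⟨r, hr⟩ := (ht.eventually (gt_mem_nhds hε)).exists
  have hr0 : (2 : K) ^ r ≠ 0 := pow_ne_zero _ h20
  refine ⟨C ((((2 : K) ^ r)⁻¹) ^ D) * resc ((2 : K) ^ r) G, limSum_scale hG _ _, fun u => ?_⟩
  rw [coeff_C_mul, coeff_resc, coeff_homogeneousComponent]
  by_cases hu : coeff u G = 0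
  · rw [hu, mul_zero, mul_zero, ite_self, sub_zero, norm_zero]
    exact hε
  · have hle : u.degree ≤ D := by
      have := le_totalDegree (mem_support_iff.mpr hu)
      exact this
    by_cases huD : u.degree = D
    · rw [if_pos huD, huD, ← mul_assoc, ← mul_pow, inv_mul_cancel₀ hr0, one_pow, one_mul,
        sub_self, norm_zero]
      exact hε
    · rw [if_neg huD, sub_zero]
      have hlt : u.degree < D := lt_of_le_of_ne hle huD
      obtain ⟨e, he⟩ : ∃ e, D = u.degree + (e + 1) := ⟨D - u.degree - 1, by omega⟩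
      have e1 : (((2 : K) ^ r)⁻¹) ^ D * (((2 : K) ^ r) ^ u.degree * coeff u G) =
          (((2 : K) ^ r)⁻¹) ^ (e + 1) * coeff u G := by
        rw [he, pow_add, mul_comm ((((2 : K) ^ r)⁻¹) ^ u.degree), mul_assoc,
          ← mul_assoc ((((2 : K) ^ r)⁻¹) ^ u.degree), ← mul_pow, inv_mul_cancel₀ hr0, one_pow,
          one_mul]
      rw [e1, norm_mul, norm_pow]
      refine lt_of_le_of_lt ?_ hr
      have h5 : ‖((2 : K) ^ r)⁻¹‖ ≤ 1 := by
        rw [norm_inv, norm_pow]
        exact inv_le_one_of_one_le₀ (one_le_pow₀ h2.le)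
      have h6 : ‖((2 : K) ^ r)⁻¹‖ ^ (e + 1) ≤ ‖((2 : K) ^ r)⁻¹‖ := by
        rw [pow_succ]
        have := pow_le_one₀ (n := e) (norm_nonneg _) h5
        nlinarith [norm_nonneg (((2 : K) ^ r)⁻¹)]
      have h7 : ‖coeff u G‖ ≤ M :=
        Finset.single_le_sum (f := fun u => ‖coeff u G‖) (fun u _ => norm_nonneg _)
          (mem_support_iff.mpr hu)
      gcongr

theorem top_ne_zero {K : Type} [Field K] {V : Type} {G : MvPolynomial V K} (hG : G ≠ 0) :
    homogeneousComponent G.totalDegree G ≠ 0 := by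
  classical
  intro h
  have hne : G.support.Nonempty := support_nonempty.mpr hG
  obtain ⟨u, hu, hmax⟩ := Finset.exists_mem_eq_sup G.support hne fun u => u.sum fun _ e => e
  have h1 : u.degree = G.totalDegree := hmax.symm
  have h2 := congrArg (coeff u) h
  rw [coeff_homogeneousComponent, if_pos h1, coeff_zero] at h2
  exact (mem_support_iff.mp hu) h2

theorem exists_int {K : Type} [Field K] [CharZero K] {n : ℕ}
    {F : MvPolynomial (Fin n × Fin n) K} (hF : F ≠ 0) :
    ∃ Y : Matrix (Fin n) (Fin n) ℤ, eval (fun p => (Y p.1 p.2 : K)) F ≠ 0 := by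
  obtain ⟨X, hX⟩ := exists_int_pt F hF
  exact ⟨Matrix.of fun a b => X (a, b), hX⟩

theorem final_int_of {C : ℝ} (H : Mult C) :
    ∀ (K : Type) [NormedField K] [CharZero K] (n m d nu T k : ℕ), 1 ≤ m → 1 ≤ d → nu < n →
    ∀ η μ t : ℝ, η = 1 - (nu : ℝ) / n → μ = max 1 ((m : ℝ) * d / n) →
      t = (C * μ * (1 + Real.log (μ / η)) / η) ^ (1 / η) →
      2 * (T : ℝ) < Real.exp (n / (C * (t + d) * Real.log t)) →
    ∀ G : Fin k → MvPolynomial (Fin n × Fin n) K, (∀ i, G i ≠ 0 ∧ LimSum m d nu T (G i)) →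
    ∃ X Y : Matrix (Fin n) (Fin n) ℤ, X.permanent = 0 ∧ Y.permanent ≠ 0 ∧
      (∀ i, eval (fun p => (X p.1 p.2 : K)) (G i) ≠ 0) ∧
      (∀ i, eval (fun p => (Y p.1 p.2 : K)) (G i) ≠ 0) ∧
      (1 < ‖(2 : K)‖ → ∀ i, ∀ s : K, ‖s‖ ≤ 1 →
        eval (fun p => (X p.1 p.2 : K) + s * ((Y p.1 p.2 : K) - (X p.1 p.2 : K))) (G i) ≠ 0) := by
  classical
  intro K _ _ n m d nu T k hm hd hnu η μ t hη hμ ht hT G hG
  have hn : 1 ≤ n := by omega
  have hdvd : ∀ F : MvPolynomial (Fin n × Fin n) K, F ≠ 0 → LimSum m d nu T F →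
      ¬ permK K n ∣ F := by
    rintro F hF0 hF ⟨Q, hQ⟩
    have hQ0 : Q ≠ 0 := by
      rintro rfl
      rw [mul_zero] at hQ
      exact hF0 hQ
    rw [hQ] at hF
    exact absurd (H K n m d nu T hm hd hnu Q hQ0 hF η μ t hη hμ ht) (not_le.2 hT)
  by_cases h2 : 1 < ‖(2 : K)‖
  · obtain ⟨X, Y, hX, hY, hXY⟩ := int_seg h2 hn G fun i =>
      hdvd _ (top_ne_zero (hG i).1) (limSum_top h2 (hG i).2)
    refine ⟨X, Y, hX, hY, fun i => ?_, fun i => ?_, fun _ => hXY⟩
    · have := hXY i 0 (by simp)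
      simpa using this
    · have := hXY i 1 (by simp)
      simpa using this
  · have hprod : ¬ permK K n ∣ ∏ i, G i := by
      intro h
      obtain ⟨i, -, hi⟩ := (Prime.dvd_finsetProd_iff (perm_prime hn) _).1 h
      exact hdvd _ (hG i).1 (hG i).2 hi
    obtain ⟨X, hX, hGX⟩ := int_pt n hn _ hprod
    rw [map_prod, Finset.prod_ne_zero_iff] at hGX
    have hF : permK K n * ∏ i, G i ≠ 0 :=
      mul_ne_zero (perm_prime hn).ne_zero (Finset.prod_ne_zero_iff.2 fun i _ => (hG i).1)
    obtain ⟨Y, hY⟩ := exists_int hF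
    rw [map_mul, map_prod] at hY
    have hY1 : Y.permanent ≠ 0 := by
      intro h0
      have h5 := eval_perm_int (K := K) fun p : Fin n × Fin n => Y p.1 p.2
      have h6 : (Matrix.of fun i j => (fun p : Fin n × Fin n => Y p.1 p.2) (i, j)) = Y := rfl
      rw [h6, h0, Int.cast_zero] at h5
      rw [h5, zero_mul] at hY
      exact hY rfl
    have hY2 := Finset.prod_ne_zero_iff.1 (right_ne_zero_of_mul hY)
    exact ⟨X, Y, hX, hY1, fun i => hGX i (Finset.mem_univ i), fun i => hY2 i (Finset.mem_univ i),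
      fun h => absurd h h2⟩

/-- the final statement for integer matrices -/
theorem final_int (hL : Lower) (hN : N4) : ∃ C : ℝ, 1 ≤ C ∧
    ∀ (K : Type) [NormedField K] [CharZero K] (n m d nu T k : ℕ), 1 ≤ m → 1 ≤ d → nu < n →
    ∀ η μ t : ℝ, η = 1 - (nu : ℝ) / n → μ = max 1 ((m : ℝ) * d / n) →
      t = (C * μ * (1 + Real.log (μ / η)) / η) ^ (1 / η) →
      2 * (T : ℝ) < Real.exp (n / (C * (t + d) * Real.log t)) →
    ∀ G : Fin k → MvPolynomial (Fin n × Fin n) K, (∀ i, G i ≠ 0 ∧ LimSum m d nu T (G i)) →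
    ∃ X Y : Matrix (Fin n) (Fin n) ℤ, X.permanent = 0 ∧ Y.permanent ≠ 0 ∧
      (∀ i, eval (fun p => (X p.1 p.2 : K)) (G i) ≠ 0) ∧
      (∀ i, eval (fun p => (Y p.1 p.2 : K)) (G i) ≠ 0) ∧
      (1 < ‖(2 : K)‖ → ∀ i, ∀ s : K, ‖s‖ ≤ 1 →
        eval (fun p => (X p.1 p.2 : K) + s * ((Y p.1 p.2 : K) - (X p.1 p.2 : K))) (G i) ≠ 0) := by
  obtain ⟨C, hC, H⟩ := mult_of hL hN
  exact ⟨C, hC, fun K _ _ => final_int_of H K⟩

end Pool.ZTS.IP
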