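import Pool.Agent.ZTS.Seg2

/-!
# Boxes without zeros around integer zeros of the permanent (MP_381749_lc, zero tests by sums)
-/

set_option autoImplicit false
set_option linter.unusedSectionVars false

open MvPolynomial Finset Filter Topology

namespace Pool.ZTS.IP

section minors

/-- the permanent after a change of one entry by `c` -/
theorem permanent_add_single {n : ℕ} (X : Matrix (Fin n) (Fin n) ℤ) (a b : Fin n) (c : ℤ) :
    (X + Matrix.single a b c).permanent = X.permanent +
      c * ((Matrix.of fun i j => Function.update (fun p => X p.1 p.2) (a, b) 1 (i, j)).permanent -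
        (Matrix.of fun i j => Function.update (fun p => X p.1 p.2) (a, b) 0 (i, j)).permanent) := by
  have key : ∀ (f : Fin n → Fin n → ℤ), (∀ i j, ¬ (i = a ∧ j = b) → f i j = X i j) →
      (Matrix.of f).permanent = f a b *
      ((Matrix.of fun i j => Function.update (fun p => X p.1 p.2) (a, b) 1 (i, j)).permanent -
        (Matrix.of fun i j => Function.update (fun p => X p.1 p.2) (a, b) 0 (i, j)).permanent) +
        (Matrix.of fun i j => Function.update (fun p => X p.1 p.2) (a, b) 0 (i, j)).permanent := by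
    intro f hf
    simp only [Matrix.permanent, Matrix.of_apply]
    rw [← Finset.sum_sub_distrib, Finset.mul_sum, ← Finset.sum_add_distrib]
    refine Finset.sum_congr rfl fun s _ => ?_
    by_cases hs : s b = a
    · have k1 : ∏ i, f (s i) i = f a b * ∏ i ∈ Finset.univ.erase b, X (s i) i := by
        rw [← Finset.mul_prod_erase _ _ (Finset.mem_univ b), hs]
        congr 1
        refine Finset.prod_congr rfl fun i hi => hf _ _ ?_
        rintro ⟨-, h⟩
        exact (Finset.mem_erase.1 hi).1 h
      have k2 : ∀ t : ℤ, ∏ i, Function.update (fun p : Fin n × Fin n => X p.1 p.2) (a, b) t (s i, i) =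
          t * ∏ i ∈ Finset.univ.erase b, X (s i) i := by
        intro t
        rw [← Finset.mul_prod_erase _ _ (Finset.mem_univ b), hs, Function.update_self]
        congr 1
        refine Finset.prod_congr rfl fun i hi => ?_
        rw [Function.update_of_ne]
        intro h
        exact (Finset.mem_erase.1 hi).1 (congrArg Prod.snd h)
      rw [k1, k2, k2]
      ring
    · have k1 : ∏ i, f (s i) i = ∏ i, X (s i) i := by
        refine Finset.prod_congr rfl fun i _ => hf _ _ ?_
        rintro ⟨h, rfl⟩
        exact hs h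
      have k2 : ∀ t : ℤ, ∏ i, Function.update (fun p : Fin n × Fin n => X p.1 p.2) (a, b) t (s i, i) =
          ∏ i, X (s i) i := by
        intro t
        refine Finset.prod_congr rfl fun i _ => ?_
        rw [Function.update_of_ne]
        intro h
        have h1 := congrArg Prod.fst h
        have h2 := congrArg Prod.snd h
        simp only at h1 h2
        apply hs
        rw [← h2]
        exact h1
      rw [k1, k2, k2]
      ring
  have h1 := key (fun i j => X i j) fun _ _ _ => rfl
  have h2 := key (fun i j => X i j + Matrix.single a b c i j) fun i j hij => by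
    rw [Matrix.single_apply, if_neg (fun h => hij ⟨h.1.symm, h.2.symm⟩), add_zero]
  have e1 : (Matrix.of fun i j => X i j) = X := rfl
  have e2 : (Matrix.of fun i j => X i j + Matrix.single a b c i j) = X + Matrix.single a b c := rfl
  rw [e1] at h1
  rw [e2] at h2
  rw [h2, h1, Matrix.single_apply_same]
  ring


/-- the minor: difference of the permanents for the values `1` and `0` of the entry `q` -/
def minorZ {n : ℕ} (X : Matrix (Fin n) (Fin n) ℤ) (q : Fin n × Fin n) : ℤ :=
  (Matrix.of fun i j => Function.update (fun p => X p.1 p.2) q 1 (i, j)).permanent -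
    (Matrix.of fun i j => Function.update (fun p => X p.1 p.2) q 0 (i, j)).permanent

theorem permanent_add_single' {n : ℕ} (X : Matrix (Fin n) (Fin n) ℤ) (hX : X.permanent = 0)
    (a b : Fin n) (c : ℤ) :
    (X + Matrix.single a b c).permanent = c * minorZ X (a, b) := by
  rw [permanent_add_single, hX, zero_add]
  rfl

theorem minorZ_smul {n : ℕ} (X : Matrix (Fin n) (Fin n) ℤ) (q : Fin n × Fin n) (t : ℤ) :
    minorZ (t • X) q = t ^ (n - 1) * minorZ X q := by
  obtain ⟨a', b'⟩ := q
  simp only [minorZ, Matrix.permanent, Matrix.of_apply]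
  rw [← Finset.sum_sub_distrib, ← Finset.sum_sub_distrib, Finset.mul_sum]
  refine Finset.sum_congr rfl fun s _ => ?_
  by_cases hs : s b' = a'
  · have k2 : ∀ (Z : Matrix (Fin n) (Fin n) ℤ) (c : ℤ),
        ∏ i, Function.update (fun p : Fin n × Fin n => Z p.1 p.2) (a', b') c (s i, i) =
        c * ∏ i ∈ Finset.univ.erase b', Z (s i) i := by
      intro Z c
      rw [← Finset.mul_prod_erase _ _ (Finset.mem_univ b'), hs, Function.update_self]
      congr 1
      refine Finset.prod_congr rfl fun i hi => ?_
      rw [Function.update_of_ne]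
      intro h
      exact (Finset.mem_erase.1 hi).1 (congrArg Prod.snd h)
    rw [k2, k2, k2, k2]
    simp only [Matrix.smul_apply, smul_eq_mul, Finset.prod_mul_distrib, Finset.prod_const]
    rw [Finset.card_erase_of_mem (Finset.mem_univ _), Finset.card_univ, Fintype.card_fin]
    ring
  · have k2 : ∀ (Z : Matrix (Fin n) (Fin n) ℤ) (c : ℤ),
        ∏ i, Function.update (fun p : Fin n × Fin n => Z p.1 p.2) (a', b') c (s i, i) =
        ∏ i, Z (s i) i := by
      intro Z c
      refine Finset.prod_congr rfl fun i _ => ?_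
      rw [Function.update_of_ne]
      intro h
      have h1 := congrArg Prod.fst h
      have h2 := congrArg Prod.snd h
      simp only at h1 h2
      apply hs
      rw [← h2]
      exact h1
    rw [k2, k2, k2, k2]
    ring

end minors

section alg

variable {K : Type} [Field K] [CharZero K] {n : ℕ}

/-- the derivative of the permanent in one of the entries is not constant -/
theorem minor_facts (q : Fin n × Fin n) {a : MvPolynomial (Fin n × Fin n) K}
    (hae : ∀ x, eval x a = eval (Function.update x q 1) (permK K n) -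
        eval (Function.update x q 0) (permK K n)) :
    a ≠ 0 ∧ (2 ≤ n → ∀ c : K, a - C c ≠ 0) := by
  classical
  have ha0 : a ≠ 0 := by
    intro h7
    obtain ⟨s, hs⟩ : ∃ s : Equiv.Perm (Fin n), s q.2 = q.1 := ⟨Equiv.swap q.2 q.1, by simp⟩
    have h1 := hae (fun p => if s p.2 = p.1 then 1 else 0)
    rw [h7, map_zero, eval_permPoly, eval_permPoly] at h1
    have h2 : (Matrix.of fun i j => Function.update
        (fun p : Fin n × Fin n => if s p.2 = p.1 then (1 : K) else 0) q 1 (i, j)).permanent
        = 1 := by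
      have e : (Matrix.of fun i j => Function.update
          (fun p : Fin n × Fin n => if s p.2 = p.1 then (1 : K) else 0) q 1 (i, j)) =
          Matrix.of fun i j => if s j = i then (1 : K) else 0 := by
        ext i j
        rw [Matrix.of_apply, Matrix.of_apply]
        by_cases h3 : (i, j) = q
        · rw [h3, Function.update_self]
          subst h3
          rw [if_pos hs]
        · rw [Function.update_of_ne h3]
      rw [e]
      unfold Matrix.permanent
      rw [Finset.sum_eq_single s]
      · exact Finset.prod_eq_one fun i _ => by rw [Matrix.of_apply, if_pos rfl]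
      · intro s' _ hs'
        obtain ⟨i, hi⟩ : ∃ i, s' i ≠ s i := by
          by_contra hcon
          push Not at hcon
          exact hs' (Equiv.ext hcon)
        refine Finset.prod_eq_zero (Finset.mem_univ i) ?_
        rw [Matrix.of_apply, if_neg (Ne.symm hi)]
      · intro h
        exact absurd (Finset.mem_univ _) h
    have h4 : (Matrix.of fun i j => Function.update
        (fun p : Fin n × Fin n => if s p.2 = p.1 then (1 : K) else 0) q 0 (i, j)).permanent
        = 0 := by
      refine Finset.sum_eq_zero fun s' _ => ?_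
      by_cases hs' : s' = s
      · refine Finset.prod_eq_zero (Finset.mem_univ q.2) ?_
        rw [Matrix.of_apply, hs', hs, Prod.mk.eta, Function.update_self]
      · obtain ⟨i, hi⟩ : ∃ i, s' i ≠ s i := by
          by_contra hcon
          push Not at hcon
          exact hs' (Equiv.ext hcon)
        refine Finset.prod_eq_zero (Finset.mem_univ i) ?_
        rw [Matrix.of_apply]
        by_cases h5 : (s' i, i) = q
        · rw [h5, Function.update_self]
        · rw [Function.update_of_ne h5]
          exact if_neg (Ne.symm hi)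
    rw [h2, h4] at h1
    norm_num at h1
  refine ⟨ha0, fun hn c h => ?_⟩
  have h1 := congrArg (eval (0 : Fin n × Fin n → K)) h
  rw [map_sub, eval_C, map_zero, hae, eval_permPoly, eval_permPoly] at h1
  obtain ⟨i0, hi0⟩ : ∃ i0 : Fin n, i0 ≠ q.2 := by
    have : Nontrivial (Fin n) := Fin.nontrivial_iff_two_le.mpr hn
    exact exists_ne q.2
  have h5 : ∀ t : K, (Matrix.of fun i j =>
      Function.update (0 : Fin n × Fin n → K) q t (i, j)).permanent = 0 := by
    intro t
    refine Finset.sum_eq_zero fun s _ => ?_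
    refine Finset.prod_eq_zero (Finset.mem_univ i0) ?_
    rw [Matrix.of_apply, Function.update_of_ne]
    · rfl
    · intro h'
      exact hi0 (congrArg Prod.snd h')
  rw [h5, h5, sub_zero, zero_sub, neg_eq_zero] at h1
  apply ha0
  rw [h1, C_0, sub_zero] at h
  exact h

/-- the permanent divides no nonzero polynomial which does not depend on one of the variables -/
theorem not_dvd_ind (q : Fin n × Fin n) {F : MvPolynomial (Fin n × Fin n) K}
    (hF : Ind q F) (hF0 : F ≠ 0) : ¬ permK K n ∣ F := by
  rintro ⟨c, hc⟩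
  obtain ⟨a, b, ha, hb, hP, hae, hbe⟩ := perm_lin (K := K) n q
  have ha0 := (minor_facts q hae).1
  have h7 : a * F = 0 := by
    apply MvPolynomial.funext
    intro x
    rw [map_mul, map_zero]
    by_cases hx : eval x a = 0
    · rw [hx, zero_mul]
    · have h8 := congrArg (eval (Function.update x q (-(eval x b) / eval x a))) hc
      rw [map_mul, hF, hP, map_add, map_mul, eval_X, ha, hb, Function.update_self,
        div_mul_cancel₀ _ hx, neg_add_cancel, zero_mul] at h8
      rw [h8, mul_zero]
  rcases mul_eq_zero.1 h7 with h | h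
  · exact ha0 h
  · exact hF0 h

theorem eval_minor (q : Fin n × Fin n) {a : MvPolynomial (Fin n × Fin n) K}
    (hae : ∀ x, eval x a = eval (Function.update x q 1) (permK K n) -
        eval (Function.update x q 0) (permK K n)) (X : Matrix (Fin n) (Fin n) ℤ) :
    eval (fun p => (X p.1 p.2 : K)) a = (minorZ X q : K) := by
  rw [hae]
  have h1 := update_cast (K := K) (fun p : Fin n × Fin n => X p.1 p.2) q 1
  have h2 := update_cast (K := K) (fun p : Fin n × Fin n => X p.1 p.2) q 0
  rw [Int.cast_one] at h1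
  rw [Int.cast_zero] at h2
  rw [h1, h2, eval_perm_int, eval_perm_int, ← Int.cast_sub]
  rfl

/-- the translation `X ↦ X + e` -/
noncomputable def trans {V : Type} (e : V → K) : MvPolynomial V K →ₐ[K] MvPolynomial V K :=
  aeval fun v => X v + C (e v)

theorem eval_trans {V : Type} (e x : V → K) (F : MvPolynomial V K) :
    eval x (trans e F) = eval (fun v => x v + e v) F := by
  unfold trans
  rw [← MvPolynomial.coe_aeval_eq_eval, ← MvPolynomial.coe_aeval_eq_eval]
  simp only [RingHom.coe_coe]
  rw [← AlgHom.comp_apply, MvPolynomial.comp_aeval]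
  congr 2
  funext v
  simp

theorem trans_ne_zero {V : Type} (e : V → K) {F : MvPolynomial V K} (hF : F ≠ 0) :
    trans e F ≠ 0 := by
  intro h
  apply hF
  apply MvPolynomial.funext
  intro x
  have h1 := congrArg (eval fun v => x v - e v) h
  rw [eval_trans, map_zero] at h1
  simpa using h1

theorem trans_totalDegree {V : Type} (e : V → K) (F : MvPolynomial V K) :
    (trans e F).totalDegree ≤ F.totalDegree := by
  have h1 := Pool.SDD.totalDegree_aeval_le_mul (fun v => X v + C (e v) : V → MvPolynomial V K) 1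
    (fun v => (totalDegree_add _ _).trans (by
      rw [totalDegree_C]
      exact max_le (totalDegree_X _).le (Nat.zero_le _))) F
  rw [mul_one] at h1
  exact h1

/-- finitely many translations -/
theorem box_fin (hn : 2 ≤ n) {ι : Type} [Finite ι] (G : ι → MvPolynomial (Fin n × Fin n) K)
    {S : Set K} (hS : S.Finite)
    (hG : ∀ i, ∀ e : Fin n × Fin n → K, ¬ permK K n ∣ trans e (G i)) (R : ℕ) :
    ∃ X : Matrix (Fin n) (Fin n) ℤ, X.permanent = 0 ∧
      (∀ a b, ∃ M : ℤ, (R : ℤ) ≤ |M| ∧ ∀ c : ℤ, (X + Matrix.single a b c).permanent = c * M) ∧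
      ∀ i, ∀ Y : Matrix (Fin n) (Fin n) K, (∀ a b, Y a b - X a b ∈ S) →
        eval (fun p => Y p.1 p.2) (G i) ≠ 0 := by
  classical
  have := Fintype.ofFinite ι
  have hn1 : 1 ≤ n := by omega
  have hlin := fun q : Fin n × Fin n => perm_lin (K := K) n q
  choose a b ha hb hP hae hbe using hlin
  let E : Finset (Fin n × Fin n → K) := Fintype.piFinset fun _ => hS.toFinset
  let I : Finset ℤ := Finset.Ioo (-(R : ℤ)) R
  have hind : ∀ (q : Fin n × Fin n) (c : K), Ind q (a q - C c) := by
    intro q c x t
    rw [map_sub, map_sub, ha q, eval_C, eval_C]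
  have hprod : ¬ permK K n ∣ (∏ i, ∏ e ∈ E, trans e (G i)) *
      ∏ q, ∏ c ∈ I, (a q - C (c : K)) := by
    intro h
    rcases (perm_prime hn1).dvd_or_dvd h with h | h
    · obtain ⟨i, -, hi⟩ := (Prime.dvd_finsetProd_iff (perm_prime hn1) _).1 h
      obtain ⟨e, -, he⟩ := (Prime.dvd_finsetProd_iff (perm_prime hn1) _).1 hi
      exact hG i e he
    · obtain ⟨q, -, hq⟩ := (Prime.dvd_finsetProd_iff (perm_prime hn1) _).1 h
      obtain ⟨c, -, hc⟩ := (Prime.dvd_finsetProd_iff (perm_prime hn1) _).1 hq
      exact not_dvd_ind q (hind q c) ((minor_facts q (hae q)).2 hn c) hc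
  obtain ⟨X, hX0, hGX⟩ := int_pt n hn1 _ hprod
  rw [map_mul, map_prod, map_prod] at hGX
  have hG0 := left_ne_zero_of_mul hGX
  have hA0 := right_ne_zero_of_mul hGX
  rw [Finset.prod_ne_zero_iff] at hG0 hA0
  refine ⟨X, hX0, fun a' b' => ⟨minorZ X (a', b'), ?_, fun c =>
    permanent_add_single' X hX0 a' b' c⟩, fun i Y hY => ?_⟩
  · by_contra hlt
    rw [not_le, abs_lt] at hlt
    have h1 := hA0 (a', b') (Finset.mem_univ _)
    rw [map_prod, Finset.prod_ne_zero_iff] at h1
    have h2 := h1 (minorZ X (a', b')) (Finset.mem_Ioo.2 ⟨hlt.1, hlt.2⟩)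
    rw [map_sub, eval_C, eval_minor (a', b') (hae (a', b')), sub_self] at h2
    exact h2 rfl
  · have h1 := hG0 i (Finset.mem_univ i)
    rw [map_prod, Finset.prod_ne_zero_iff] at h1
    have h2 := h1 (fun p => Y p.1 p.2 - X p.1 p.2) (Fintype.mem_piFinset.2 fun p =>
      hS.mem_toFinset.2 (hY p.1 p.2))
    rw [eval_trans] at h2
    simpa using h2

end alg

section arch

variable {K : Type} [NormedField K]

/-- uniformly on a box the top form dominates -/
theorem eventually_box {V : Type} [Finite V] (h2 : 1 < ‖(2 : K)‖) (F : MvPolynomial V K)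
    (x : V → K) (hF : eval x (homogeneousComponent F.totalDegree F) ≠ 0) (B : ℝ) :
    ∀ᶠ r : ℕ in atTop, ∀ y : V → K, (∀ v, ‖y v‖ ≤ B) →
      eval (fun v => 2 ^ r * x v + y v) F ≠ 0 := by
  classical
  have := Fintype.ofFinite V
  set D := F.totalDegree with hD
  let Φ : K × (V → K) → K := fun p =>
    ∑ j ∈ Finset.range (D + 1), p.1 ^ (D - j) * eval p.2 (homogeneousComponent j F)
  have hΦ : Continuous Φ := by
    refine continuous_finsetSum _ fun j _ => ?_
    exact (continuous_fst.pow _).mul ((MvPolynomial.continuous_eval _).comp continuous_snd)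
  have hΦ0 : Φ (0, x) ≠ 0 := by
    have h1 : Φ (0, x) = eval x (homogeneousComponent D F) := by
      change ∑ j ∈ Finset.range (D + 1), (0 : K) ^ (D - j) * eval x (homogeneousComponent j F) = _
      rw [Finset.sum_eq_single D]
      · simp
      · intro j hj hjD
        rw [Finset.mem_range] at hj
        rw [zero_pow (by omega), zero_mul]
      · intro h
        exact absurd (Finset.mem_range.mpr (by omega)) h
    rw [h1]
    exact hF
  have hev : ∀ᶠ p in 𝓝 ((0 : K), x), Φ p ≠ 0 := hΦ.continuousAt.eventually_ne hΦ0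
  obtain ⟨δ, hδ, hball⟩ := Metric.eventually_nhds_iff.mp hev
  have ht1 : Tendsto (fun r : ℕ => ‖((2 : K) ^ r)⁻¹‖) atTop (𝓝 0) := by
    have := (tendsto_two_inv h2).norm
    rwa [norm_zero] at this
  have ht2 : Tendsto (fun r : ℕ => ‖((2 : K) ^ r)⁻¹‖ * (1 + |B|)) atTop (𝓝 0) := by
    have := ht1.mul_const (1 + |B|)
    rwa [zero_mul] at this
  have h20 : (2 : K) ≠ 0 := by
    intro h
    rw [h, norm_zero] at h2
    linarith
  filter_upwards [ht2.eventually (gt_mem_nhds hδ)] with r hr y hy
  have hr0 : (2 : K) ^ r ≠ 0 := pow_ne_zero _ h20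
  have e1 : (fun v => 2 ^ r * x v + y v) =
      fun v => 2 ^ r * (x v + ((2 : K) ^ r)⁻¹ * y v) := by
    funext v
    field_simp
  rw [e1, eval_smul_eq F (le_refl D) hr0]
  refine mul_ne_zero (pow_ne_zero _ hr0) ?_
  have h5 : dist ((((2 : K) ^ r)⁻¹, fun v => x v + ((2 : K) ^ r)⁻¹ * y v) : K × (V → K))
      (0, x) < δ := by
    rw [Prod.dist_eq]
    refine max_lt ?_ ?_
    · rw [dist_zero_right]
      refine lt_of_le_of_lt ?_ hr
      nlinarith [norm_nonneg (((2 : K) ^ r)⁻¹), abs_nonneg B]
    · rw [dist_pi_lt_iff hδ]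
      intro v
      have h6 : dist (x v + ((2 : K) ^ r)⁻¹ * y v) (x v) = ‖((2 : K) ^ r)⁻¹‖ * ‖y v‖ := by
        rw [dist_eq_norm, add_sub_cancel_left, norm_mul]
      rw [h6]
      refine lt_of_le_of_lt ?_ hr
      have h7 : ‖y v‖ ≤ 1 + |B| := (hy v).trans ((le_abs_self B).trans (by linarith))
      gcongr
  exact hball h5

/-- bounded boxes -/
theorem box_bdd [CharZero K] (h2 : 1 < ‖(2 : K)‖) {n : ℕ} (hn : 2 ≤ n) {ι : Type} [Finite ι]
    (G : ι → MvPolynomial (Fin n × Fin n) K)
    (hG : ∀ i, ¬ permK K n ∣ homogeneousComponent (G i).totalDegree (G i)) (B : ℝ) (R : ℕ) :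
    ∃ X : Matrix (Fin n) (Fin n) ℤ, X.permanent = 0 ∧
      (∀ a b, ∃ M : ℤ, (R : ℤ) ≤ |M| ∧ ∀ c : ℤ, (X + Matrix.single a b c).permanent = c * M) ∧
      ∀ i, ∀ Y : Matrix (Fin n) (Fin n) K, (∀ a b, ‖Y a b - X a b‖ ≤ B) →
        eval (fun p => Y p.1 p.2) (G i) ≠ 0 := by
  classical
  have := Fintype.ofFinite ι
  have hn1 : 1 ≤ n := by omega
  have hlin := fun q : Fin n × Fin n => perm_lin (K := K) n q
  choose a b ha hb hP hae hbe using hlin
  have hprod : ¬ permK K n ∣ (∏ i, homogeneousComponent (G i).totalDegree (G i)) *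
      ∏ q, a q := by
    intro h
    rcases (perm_prime hn1).dvd_or_dvd h with h | h
    · obtain ⟨i, -, hi⟩ := (Prime.dvd_finsetProd_iff (perm_prime hn1) _).1 h
      exact hG i hi
    · obtain ⟨q, -, hq⟩ := (Prime.dvd_finsetProd_iff (perm_prime hn1) _).1 h
      exact not_dvd_ind q (ha q) (minor_facts q (hae q)).1 hq
  obtain ⟨X0, hX0, hGX⟩ := int_pt n hn1 _ hprod
  rw [map_mul, map_prod, map_prod] at hGX
  have hG0 := left_ne_zero_of_mul hGX
  have hA0 := right_ne_zero_of_mul hGX
  rw [Finset.prod_ne_zero_iff] at hG0 hA0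
  have hM0 : ∀ q, minorZ X0 q ≠ 0 := by
    intro q h0
    apply hA0 q (Finset.mem_univ _)
    rw [eval_minor q (hae q), h0, Int.cast_zero]
  have h3 : ∀ᶠ r : ℕ in atTop, ∀ i, ∀ y : Fin n × Fin n → K, (∀ v, ‖y v‖ ≤ B) →
      eval (fun p : Fin n × Fin n => 2 ^ r * (X0 p.1 p.2 : K) + y p) (G i) ≠ 0 := by
    rw [eventually_all]
    intro i
    exact eventually_box h2 (G i) _ (hG0 i (Finset.mem_univ i)) B
  obtain ⟨r, hr1, hrR⟩ := (h3.and (eventually_ge_atTop R)).exists
  have hXt : ((2 ^ r : ℤ) • X0).permanent = 0 := by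
    rw [Matrix.permanent_smul, hX0, mul_zero]
  refine ⟨(2 ^ r : ℤ) • X0, hXt, fun a' b' => ⟨minorZ ((2 ^ r : ℤ) • X0) (a', b'), ?_,
    fun c => permanent_add_single' _ hXt a' b' c⟩, fun i Y hY => ?_⟩
  · rw [minorZ_smul, abs_mul, abs_pow]
    have h1 : (1 : ℤ) ≤ |minorZ X0 (a', b')| := Int.one_le_abs (hM0 _)
    have h4 : (1 : ℤ) ≤ |(2 ^ r : ℤ)| := by
      rw [abs_of_nonneg (by positivity)]
      exact one_le_pow₀ (by norm_num)
    have h5 : (R : ℤ) ≤ |(2 ^ r : ℤ)| := by
      rw [abs_of_nonneg (by positivity)]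
      have h6 : R < 2 ^ r := lt_of_le_of_lt hrR Nat.lt_two_pow_self
      exact_mod_cast h6.le
    have h6 : (R : ℤ) ≤ |(2 ^ r : ℤ)| ^ (n - 1) := h5.trans (le_self_pow₀ h4 (by omega))
    calc (R : ℤ) ≤ |(2 ^ r : ℤ)| ^ (n - 1) * 1 := by rw [mul_one]; exact h6
      _ ≤ _ := mul_le_mul_of_nonneg_left h1 (by positivity)
  · have h1 := hr1 i (fun p => Y p.1 p.2 - (((2 ^ r : ℤ) • X0) p.1 p.2 : ℤ)) fun p =>
      hY p.1 p.2
    have h2 : (fun p : Fin n × Fin n => 2 ^ r * (X0 p.1 p.2 : K) +
        (Y p.1 p.2 - (((2 ^ r : ℤ) • X0) p.1 p.2 : ℤ))) = fun p => Y p.1 p.2 := by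
      funext p
      rw [Matrix.smul_apply, smul_eq_mul]
      push_cast
      ring
    rwa [h2] at h1

end arch

end Pool.ZTS.IP
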