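import Pool.Agent.ZTS.Box

/-!
# Boxes without zeros of the tests around integer zeros of the permanent (MP_381749_lc, zero tests
by sums): the final statement
-/

set_option autoImplicit false

open MvPolynomial Finset Filter Topology

namespace Pool.ZTS.IP

variable {K : Type} [NormedField K] [CharZero K] {V : Type} [Finite V] {m d nu T : ℕ}

theorem limSum_trans {F : MvPolynomial V K} (hF : LimSum m d nu T F) (e : V → K) :
    LimSum m d nu T (trans e F) := by
  classical
  intro ε hε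
  obtain ⟨S, hS⟩ := Pool.SDF.exists_box V (m * d + nu)
  set N : ℝ := ∑ u ∈ S, ∑ w ∈ S, ‖coeff u (trans e (monomial w (1 : K)))‖ with hN
  have hN0 : 0 ≤ N := Finset.sum_nonneg fun u _ => Finset.sum_nonneg fun w _ => norm_nonneg _
  obtain ⟨s, P, A, hs, hP, hA, h2⟩ := hF (ε / (1 + N)) (by positivity)
  have hFdeg : F.totalDegree ≤ m * d + nu := lim_totalDegree (hF : Lim K m d nu T F)
  have hSdeg := totalDegree_sum_le s P A hs hP hA
  refine ⟨s, fun j => trans e (P j), fun j => (A j).map (trans e), hs, ?_, ?_, ?_⟩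
  · exact fun j => (trans_totalDegree e _).trans (hP j)
  · intro j p q
    change (trans e (A j p q)).totalDegree ≤ d
    exact (trans_totalDegree e _).trans (hA j p q)
  · intro u
    have e1 : ∑ j, trans e (P j) * Pool.PF.pf (s j) ((A j).map (trans e)) =
        trans e (∑ j, P j * Pool.PF.pf (s j) (A j)) := by
      rw [map_sum]
      refine Finset.sum_congr rfl fun j _ => ?_
      rw [map_mul]
      have h3 : (trans e) (Pool.PF.pf (s j) (A j)) = Pool.PF.pf (s j) ((A j).map (trans e)) :=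
        Pool.PF.map_pf (trans e : MvPolynomial V K →ₐ[K] MvPolynomial V K).toRingHom (s j) (A j)
      rw [h3]
    rw [e1]
    set Δ : MvPolynomial V K := ∑ j, P j * Pool.PF.pf (s j) (A j) - F with hΔ
    have e2 : coeff u (trans e (∑ j, P j * Pool.PF.pf (s j) (A j))) - coeff u (trans e F) =
        coeff u (trans e Δ) := by
      rw [hΔ, map_sub, coeff_sub]
    rw [e2]
    have hΔdeg : Δ.totalDegree ≤ m * d + nu :=
      (totalDegree_sub _ _).trans (max_le hSdeg hFdeg)
    have hsupp : Δ.support ⊆ S := by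
      intro w hw
      refine hS w fun v => ?_
      have h1 := (le_totalDegree hw).trans hΔdeg
      exact ((Finsupp.le_degree v w).trans (le_of_eq rfl)).trans h1
    by_cases hu : u ∈ S
    · have e3 : coeff u (trans e Δ) =
          ∑ w ∈ S, coeff w Δ * coeff u (trans e (monomial w (1 : K))) := by
        have e4 : Δ = ∑ w ∈ S, coeff w Δ • monomial w (1 : K) := by
          conv_lhs => rw [Δ.as_sum]
          rw [Finset.sum_subset hsupp]
          · refine Finset.sum_congr rfl fun w _ => ?_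
            rw [smul_monomial, smul_eq_mul, mul_one]
          · intro w _ hw
            rw [notMem_support_iff.mp hw, monomial_zero]
        conv_lhs => rw [e4]
        rw [map_sum, coeff_sum]
        refine Finset.sum_congr rfl fun w _ => ?_
        rw [map_smul, coeff_smul, smul_eq_mul]
      rw [e3]
      have h5 : ∀ w, ‖coeff w Δ‖ ≤ ε / (1 + N) := fun w => by
        rw [hΔ, coeff_sub]
        exact (h2 w).le
      calc ‖∑ w ∈ S, coeff w Δ * coeff u (trans e (monomial w (1 : K)))‖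
          ≤ ∑ w ∈ S, ‖coeff w Δ * coeff u (trans e (monomial w (1 : K)))‖ := norm_sum_le _ _
        _ ≤ ∑ w ∈ S, ε / (1 + N) * ‖coeff u (trans e (monomial w (1 : K)))‖ := by
          refine Finset.sum_le_sum fun w _ => ?_
          rw [norm_mul]
          exact mul_le_mul_of_nonneg_right (h5 w) (norm_nonneg _)
        _ = ε / (1 + N) * ∑ w ∈ S, ‖coeff u (trans e (monomial w (1 : K)))‖ := by
          rw [Finset.mul_sum]
        _ ≤ ε / (1 + N) * N := by
          refine mul_le_mul_of_nonneg_left ?_ (by positivity)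
          exact Finset.single_le_sum
            (f := fun u => ∑ w ∈ S, ‖coeff u (trans e (monomial w (1 : K)))‖)
            (fun u _ => Finset.sum_nonneg fun w _ => norm_nonneg _) hu
        _ < ε := by
          rw [div_mul_eq_mul_div, div_lt_iff₀ (by linarith)]
          nlinarith
    · have h6 : coeff u (trans e Δ) = 0 := by
        by_contra hne
        apply hu
        refine hS u fun v => ?_
        have h1 := (le_totalDegree (mem_support_iff.mpr hne)).trans
          ((trans_totalDegree e Δ).trans hΔdeg)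
        exact ((Finsupp.le_degree v u).trans (le_of_eq rfl)).trans h1
      rw [h6, norm_zero]
      exact hε

theorem final_box_of {C : ℝ} (H : Mult C) :
    ∀ (K : Type) [NormedField K] [CharZero K] (n m d nu T k : ℕ), 2 ≤ n → 1 ≤ m → 1 ≤ d →
    nu < n → ∀ η μ t : ℝ, η = 1 - (nu : ℝ) / n → μ = max 1 ((m : ℝ) * d / n) →
      t = (C * μ * (1 + Real.log (μ / η)) / η) ^ (1 / η) →
      2 * (T : ℝ) < Real.exp (n / (C * (t + d) * Real.log t)) →
    ∀ G : Fin k → MvPolynomial (Fin n × Fin n) K, (∀ i, G i ≠ 0 ∧ LimSum m d nu T (G i)) →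
    ∀ S : Set K, S.Finite ∨ 1 < ‖(2 : K)‖ ∧ Bornology.IsBounded S → ∀ R : ℕ,
    ∃ X : Matrix (Fin n) (Fin n) ℤ, X.permanent = 0 ∧
      (∀ a b, ∃ M : ℤ, (R : ℤ) ≤ |M| ∧ ∀ c : ℤ, (X + Matrix.single a b c).permanent = c * M) ∧
      ∀ i, ∀ Y : Matrix (Fin n) (Fin n) K, (∀ a b, Y a b - X a b ∈ S) →
        eval (fun p => Y p.1 p.2) (G i) ≠ 0 := by
  classical
  intro K _ _ n m d nu T k hn2 hm hd hnu η μ t hη hμ ht hT G hG S hS R
  have hn : 1 ≤ n := by omega
  have hdvd : ∀ F : MvPolynomial (Fin n × Fin n) K, F ≠ 0 → LimSum m d nu T F →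
      ¬ permK K n ∣ F := by
    rintro F hF0 hF ⟨Q, hQ⟩
    have hQ0 : Q ≠ 0 := by
      rintro rfl
      rw [mul_zero] at hQ
      exact hF0 hQ
    rw [hQ] at hF
    exact absurd (H K n m d nu T hm hd hnu Q hQ0 hF η μ t hη hμ ht) (not_le.2 hT)
  rcases hS with hS | ⟨h2, hS⟩
  · exact box_fin hn2 G hS (fun i e => hdvd _ (trans_ne_zero e (hG i).1)
      (limSum_trans (hG i).2 e)) R
  · obtain ⟨B, hB⟩ := hS.exists_norm_le
    obtain ⟨X, hX, hM, hY⟩ := box_bdd h2 hn2 G (fun i =>
      hdvd _ (top_ne_zero (hG i).1) (limSum_top h2 (hG i).2)) B R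
    exact ⟨X, hX, hM, fun i Y hYS => hY i Y fun a b => hB _ (hYS a b)⟩

/-- the final statement with boxes -/
theorem final_box (hL : Lower) (hN : N4) : ∃ C : ℝ, 1 ≤ C ∧
    ∀ (K : Type) [NormedField K] [CharZero K] (n m d nu T k : ℕ), 2 ≤ n → 1 ≤ m → 1 ≤ d →
    nu < n → ∀ η μ t : ℝ, η = 1 - (nu : ℝ) / n → μ = max 1 ((m : ℝ) * d / n) →
      t = (C * μ * (1 + Real.log (μ / η)) / η) ^ (1 / η) →
      2 * (T : ℝ) < Real.exp (n / (C * (t + d) * Real.log t)) →
    ∀ G : Fin k → MvPolynomial (Fin n × Fin n) K, (∀ i, G i ≠ 0 ∧ LimSum m d nu T (G i)) →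
    ∀ S : Set K, S.Finite ∨ 1 < ‖(2 : K)‖ ∧ Bornology.IsBounded S → ∀ R : ℕ,
    ∃ X : Matrix (Fin n) (Fin n) ℤ, X.permanent = 0 ∧
      (∀ a b, ∃ M : ℤ, (R : ℤ) ≤ |M| ∧ ∀ c : ℤ, (X + Matrix.single a b c).permanent = c * M) ∧
      ∀ i, ∀ Y : Matrix (Fin n) (Fin n) K, (∀ a b, Y a b - X a b ∈ S) →
        eval (fun p => Y p.1 p.2) (G i) ≠ 0 := by
  obtain ⟨C, hC, H⟩ := mult_of hL hN
  exact ⟨C, hC, fun K _ _ => final_box_of H K⟩

end Pool.ZTS.IP
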