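import Pool.Agent.ZTS.N4
import Pool.Agent.ZTS.LowEnd
import Pool.Agent.ZTS.Seg2
import Pool.Agent.Helper97.HY.Box

/-!
Zero tests by sums of products with Pfaffians (MP_381749_lc): no test vanishes in a large box around
an integer matrix with permanent zero.
-/

set_option autoImplicit false

open MvPolynomial

namespace Pool.ZTS.IP

theorem box_of {C : ℝ} (H : Mult C) (n m d nu T k : ℕ) (hn : 2 ≤ n) (hm : 1 ≤ m) (hd : 1 ≤ d)
    (hnu : nu < n) (η μ t : ℝ) (hη : η = 1 - (nu : ℝ) / n) (hμ : μ = max 1 ((m : ℝ) * d / n))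
    (ht : t = (C * μ * (1 + Real.log (μ / η)) / η) ^ (1 / η))
    (hT : 2 * (T : ℝ) < Real.exp (n / (C * (t + d) * Real.log t)))
    (G : Fin k → MvPolynomial (Fin n × Fin n) ℂ) (hG : ∀ i, G i ≠ 0 ∧ LimSum m d nu T (G i))
    (R : ℕ) :
    ∃ X : Matrix (Fin n) (Fin n) ℤ, X.permanent = 0 ∧
      (∀ a b, (R : ℤ) ≤ |(X + Matrix.single a b 1).permanent| ∧
        (X - Matrix.single a b 1).permanent = -(X + Matrix.single a b 1).permanent) ∧
      ∀ Y : Matrix (Fin n) (Fin n) ℂ, (∀ a b, ‖Y a b - X a b‖ ≤ R) →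
        ∀ i, eval (fun p => Y p.1 p.2) (G i) ≠ 0 := by
  have h2 : 1 < ‖(2 : ℂ)‖ := by norm_num
  refine Pool.HY.box_int n k hn G (fun i => ?_) R
  rintro ⟨Q, hQ⟩
  have htop := top_ne_zero (hG i).1
  have hQ' : homogeneousComponent (G i).totalDegree (G i) = permK ℂ n * Q := hQ
  have hQ0 : Q ≠ 0 := by
    rintro rfl
    rw [mul_zero] at hQ'
    exact htop hQ'
  have hlim := limSum_top h2 (hG i).2
  rw [hQ'] at hlim
  exact absurd (H ℂ n m d nu T hm hd hnu Q hQ0 hlim η μ t hη hμ ht) (not_le.2 hT)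

theorem box_final : ∃ C : ℝ, 1 ≤ C ∧ ∀ n m d nu T k : ℕ, 2 ≤ n → 1 ≤ m → 1 ≤ d → nu < n →
    ∀ η μ t : ℝ, η = 1 - (nu : ℝ) / n → μ = max 1 ((m : ℝ) * d / n) →
      t = (C * μ * (1 + Real.log (μ / η)) / η) ^ (1 / η) →
      2 * (T : ℝ) < Real.exp (n / (C * (t + d) * Real.log t)) →
    ∀ G : Fin k → MvPolynomial (Fin n × Fin n) ℂ, (∀ i, G i ≠ 0 ∧ LimSum m d nu T (G i)) →
    ∀ R : ℕ, ∃ X : Matrix (Fin n) (Fin n) ℤ, X.permanent = 0 ∧
      (∀ a b, (R : ℤ) ≤ |(X + Matrix.single a b 1).permanent| ∧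
        (X - Matrix.single a b 1).permanent = -(X + Matrix.single a b 1).permanent) ∧
      ∀ Y : Matrix (Fin n) (Fin n) ℂ, (∀ a b, ‖Y a b - X a b‖ ≤ R) →
        ∀ i, eval (fun p => Y p.1 p.2) (G i) ≠ 0 := by
  obtain ⟨C, hC, H⟩ := mult_of Pool.ZTS.lowerZ Pool.ZTS.n4
  exact ⟨C, hC, fun n m d nu T k hn hm hd hnu η μ t h1 h2 h3 h4 G hG R =>
    box_of H n m d nu T k hn hm hd hnu η μ t h1 h2 h3 h4 G hG R⟩

end Pool.ZTS.IP
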