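import Pool.Agent.ZTS.KeepDefs
import Pool.Agent.SDD.Asm
import Pool.Agent.Helper72.SDet.M9

/-!
Zero tests by sums of products with Pfaffians (MP_381749_lc), count: the multiples of the
products over the blocks stay independent when the monomials divisible by some `lam b` are
deleted, up to the factor `(w - 1)^D` instead of `w^D`.
-/

open MvPolynomial Finset Module
open scoped BigOperators ENNReal
open Pool.Agent.Helper72.SDet
open Pool.SDL (bp bp_homog)
open Pool.SDD (V0)

namespace Pool.ZTS

universe u v w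
variable {K : Type u} [Field K]

/-! ### the map which deletes monomials -/

theorem keepMap_homog {Y : Type*} (P : (Y →₀ ℕ) → Prop) {n : ℕ} {f : MvPolynomial Y K}
    (hf : f.IsHomogeneous n) : (keepMap K P f).IsHomogeneous n := by
  classical
  intro d hd
  rw [coeff_keepMap] at hd
  by_cases h : P d
  · rw [if_pos h] at hd
    exact hf hd
  · rw [if_neg h] at hd
    exact absurd rfl hd

theorem keepMap_rename {σ : Type*} {τ : Type*} (e : σ ≃ τ) (P : (σ →₀ ℕ) → Prop)
    (P' : (τ →₀ ℕ) → Prop) (h : ∀ μ : σ →₀ ℕ, P' (μ.mapDomain e) ↔ P μ)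
    (f : MvPolynomial σ K) :
    rename e (keepMap K P f) = keepMap K P' (rename e f) := by
  classical
  induction f using MvPolynomial.induction_on' with
  | monomial μ c =>
    rw [keepMap_monomial, rename_monomial, keepMap_monomial]
    by_cases hμ : P μ
    · rw [if_pos hμ, if_pos ((h μ).2 hμ), rename_monomial]
    · rw [if_neg hμ, if_neg (fun h' => hμ ((h μ).1 h')), map_zero]
  | add p q hp hq =>
    rw [map_add, map_add, map_add, map_add, hp, hq]

theorem keepMap_prod {B : Type v} [Fintype B] {V : B → Type w} (P : ∀ b, (V b →₀ ℕ) → Prop)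
    (f : ∀ b, MvPolynomial (V b) K) :
    keepMap K (fun μ : (Σ b, V b) →₀ ℕ => ∀ b, P b (part μ b))
      (∏ b, rename (Sigma.mk b) (f b)) = ∏ b, rename (Sigma.mk b) (keepMap K (P b) (f b)) := by
  classical
  let F : MultilinearMap K (fun b => MvPolynomial (V b) K) (MvPolynomial (Σ b, V b) K) :=
    (keepMap K (fun μ : (Σ b, V b) →₀ ℕ => ∀ b, P b (part μ b))).compMultilinearMap
      ((MultilinearMap.mkPiAlgebra K B (MvPolynomial (Σ b, V b) K)).compLinearMap
        (fun b => (rename (Sigma.mk b) : MvPolynomial (V b) K →ₐ[K]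
          MvPolynomial (Σ b, V b) K).toLinearMap))
  let G : MultilinearMap K (fun b => MvPolynomial (V b) K) (MvPolynomial (Σ b, V b) K) :=
    (MultilinearMap.mkPiAlgebra K B (MvPolynomial (Σ b, V b) K)).compLinearMap
        (fun b => (rename (Sigma.mk b) : MvPolynomial (V b) K →ₐ[K]
          MvPolynomial (Σ b, V b) K).toLinearMap.comp (keepMap K (P b)))
  have h : F = G := by
    refine Module.Basis.ext_multilinear (fun b => basisMonomials (V b) K) fun u => ?_
    simp only [F, G, LinearMap.compMultilinearMap_apply, MultilinearMap.compLinearMap_apply,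
      MultilinearMap.mkPiAlgebra_apply, coe_basisMonomials, AlgHom.toLinearMap_apply,
      LinearMap.comp_apply]
    rw [prod_rename_monomial, keepMap_monomial]
    by_cases hu : ∀ b, P b (u b)
    · rw [if_pos (fun b => by rw [part_sum]; exact hu b), ← prod_rename_monomial]
      refine Finset.prod_congr rfl fun b _ => ?_
      rw [keepMap_monomial, if_pos (hu b)]
    · rw [if_neg]
      · push Not at hu
        obtain ⟨b, hb⟩ := hu
        symm
        apply Finset.prod_eq_zero (Finset.mem_univ b)
        rw [keepMap_monomial, if_neg hb, map_zero]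
      · intro hall
        apply hu
        intro b
        have := hall b
        rwa [part_sum] at this
  have := congrArg (fun H => H f) h
  simpa only [F, G, LinearMap.compMultilinearMap_apply, MultilinearMap.compLinearMap_apply,
      MultilinearMap.mkPiAlgebra_apply, coe_basisMonomials, AlgHom.toLinearMap_apply,
      LinearMap.comp_apply] using this

/-! ### products over the blocks -/

/-- multiples of degree exactly `d` of the products over the blocks -/
noncomputable def W0 {σ κ : Type*} (B : Type*) [Fintype B] (g : κ → MvPolynomial σ K) (d : ℕ) :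
    Submodule K (MvPolynomial (B × σ) K) :=
  Submodule.span K {f | ∃ (μ : (B × σ) →₀ ℕ) (k : B → κ), μ.degree = d ∧
    f = monomial μ 1 * ∏ b, rename (fun v => (b, v)) (g (k b))}

theorem prod_mem_W0 {σ κ B : Type*} [Fintype B] (g : κ → MvPolynomial σ K) (d : B → ℕ)
    (f : B → MvPolynomial σ K) (hf : ∀ b, f b ∈ Pool.SDL.Id g (d b)) :
    ∏ b, rename (fun v => (b, v)) (f b) ∈ W0 B g (∑ b, d b) := by
  classical
  have h1 : ∀ b, rename (fun v => (b, v)) (f b) ∈
      Submodule.span K ((fun p => rename (fun v => (b, v)) p) ''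
        {f | ∃ (μ : σ →₀ ℕ) (k : κ), μ.degree = d b ∧ f = monomial μ (1 : K) * g k}) := by
    intro b
    have := Submodule.mem_map_of_mem (f := (rename (fun v => (b, v)) : MvPolynomial σ K →ₐ[K]
        MvPolynomial (B × σ) K).toLinearMap) (hf b)
    rw [Pool.SDL.Id, Submodule.map_span] at this
    exact this
  have h2 : ∏ b, rename (fun v => (b, v)) (f b) ∈
      ∏ b, Submodule.span K ((fun p => rename (fun v => ((b, v) : B × σ)) p) ''
        {f | ∃ (μ : σ →₀ ℕ) (k : κ), μ.degree = d b ∧ f = monomial μ (1 : K) * g k}) :=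
    prod_mem_prod' _ _ _ fun o _ => h1 o
  rw [Submodule.prod_span] at h2
  refine (Submodule.span_le.2 ?_) h2
  intro x hx
  rw [Set.mem_fintype_prod] at hx
  obtain ⟨p, hp, rfl⟩ := hx
  have hex : ∀ b, ∃ (μ : σ →₀ ℕ) (k : κ), μ.degree = d b ∧
      rename (fun v => ((b, v) : B × σ)) (monomial μ (1 : K) * g k) = p b := by
    intro b
    obtain ⟨y, ⟨μ, k, h3, rfl⟩, h4⟩ := hp b
    exact ⟨μ, k, h3, h4⟩
  choose μ k hμ hyk using hex
  refine Submodule.subset_span ⟨∑ b, (μ b).mapDomain (fun v => (b, v)), k, ?_, ?_⟩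
  · rw [map_sum]
    exact Finset.sum_congr rfl fun b _ => by rw [Finsupp.degree_mapDomain, hμ b]
  · rw [monomial_sum_one, ← Finset.prod_mul_distrib]
    refine Finset.prod_congr rfl fun b _ => ?_
    rw [← hyk b, map_mul, rename_monomial]

theorem W0_homog {σ κ B : Type*} [Fintype B] (g : κ → MvPolynomial σ K) (s : ℕ)
    (hg : ∀ k, (g k).IsHomogeneous s) (d : ℕ) :
    W0 B g d ≤ homogeneousSubmodule (B × σ) K (d + Fintype.card B * s) := by
  rw [W0, Submodule.span_le]
  rintro f ⟨μ, k, hμ, rfl⟩
  refine IsHomogeneous.mul (isHomogeneous_monomial 1 hμ) ?_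
  have h := IsHomogeneous.prod (R := K) (Finset.univ : Finset B)
    (fun b => rename (fun v => ((b, v) : B × σ)) (g (k b))) (fun _ => s)
    (fun b _ => (hg (k b)).rename_isHomogeneous)
  simpa using h

theorem map_keep_homog {Y : Type*} (P : (Y →₀ ℕ) → Prop) (n : ℕ)
    (U : Submodule K (MvPolynomial Y K)) (hU : U ≤ homogeneousSubmodule Y K n) :
    U.map (keepMap K P) ≤ homogeneousSubmodule Y K n := by
  rintro _ ⟨f, hf, rfl⟩
  exact keepMap_homog P (hU hf)

theorem sum_finrank_W0_le {σ κ B : Type*} [Fintype σ] [Finite κ] [Fintype B]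
    (g : κ → MvPolynomial σ K) (s : ℕ) (hg : ∀ k, (g k).IsHomogeneous s)
    (P' : ((B × σ) →₀ ℕ) → Prop) (l : ℕ) :
    ∑ d ∈ Finset.range (l + 1), (finrank K ((W0 B g d).map (keepMap K P')) : ℝ≥0∞) ≤
      (finrank K ((V0 B g l).map (keepMap K P')) : ℝ≥0∞) := by
  have hle : ∀ d, (W0 B g d).map (keepMap K P') ≤
      homogeneousSubmodule (B × σ) K (d + Fintype.card B * s) := fun d =>
    map_keep_homog P' _ _ (W0_homog g s hg d)
  have : ∀ d, FiniteDimensional K ((W0 B g d).map (keepMap K P')) := fun d =>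
    finite_of_le_homog _ _ (hle d)
  have hV : FiniteDimensional K (V0 B g l) := Pool.SDD.finite_V0 B g l
  have h1 := linearIndependent_graded (fun d => (W0 B g d).map (keepMap K P'))
    (Fintype.card B * s) (l + 1) hle
  have hmem : ∀ x : Σ d : Fin (l + 1), Fin (finrank K ((W0 B g d).map (keepMap K P'))),
      ((finBasis K ((W0 B g x.1).map (keepMap K P')) x.2 : (W0 B g x.1).map (keepMap K P')) :
        MvPolynomial (B × σ) K) ∈ (V0 B g l).map (keepMap K P') := by
    intro x
    have hle : W0 B g x.1 ≤ V0 B g l := by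
      rw [W0, V0]
      refine Submodule.span_mono ?_
      rintro f ⟨μ, k, hμ, rfl⟩
      exact ⟨μ, k, by rw [hμ]; exact Nat.lt_succ_iff.1 x.1.2, rfl⟩
    exact Submodule.map_mono hle (Submodule.coe_mem _)
  have h2 : LinearIndependent K
      (fun x : Σ d : Fin (l + 1), Fin (finrank K ((W0 B g d).map (keepMap K P'))) =>
      (⟨_, hmem x⟩ : (V0 B g l).map (keepMap K P'))) :=
    LinearIndependent.of_comp ((V0 B g l).map (keepMap K P')).subtype h1
  have h3 := h2.fintype_card_le_finrank
  rw [Fintype.card_sigma] at h3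
  rw [Finset.sum_range]
  simp only [Fintype.card_fin] at h3
  exact_mod_cast h3

/-- products over the blocks, after the deletion of monomials -/
theorem count_gen {σ : Type w} {κ : Type*} [Fintype σ] [Finite κ] (B : Type v) [Fintype B]
    (g : κ → MvPolynomial σ K) (s : ℕ) (hg : ∀ k, (g k).IsHomogeneous s)
    (P : (σ →₀ ℕ) → Prop) (P' : ((B × σ) →₀ ℕ) → Prop)
    (hP : ∀ μ : (Σ _ : B, σ) →₀ ℕ, P' (μ.mapDomain (Equiv.sigmaEquivProd B σ)) ↔
      ∀ b, P (part μ b))
    (Q : ℝ≥0∞) (hQ : Q < 1) :
    (∑' d, Q ^ d * (finrank K ((Pool.SDL.Id g d).map (keepMap K P)) : ℝ≥0∞)) ^ Fintype.card B ≤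
      (1 - Q) * ∑' l, Q ^ l * (finrank K ((V0 B g l).map (keepMap K P')) : ℝ≥0∞) := by
  classical
  let e : MvPolynomial (Σ _ : B, σ) K ≃ₐ[K] MvPolynomial (B × σ) K :=
    renameEquiv K (Equiv.sigmaEquivProd B σ)
  let G : ℕ → Submodule K (MvPolynomial (Σ _ : B, σ) K) := fun d =>
    ((W0 B g d).map (keepMap K P')).map e.symm.toLinearEquiv.toLinearMap
  have hWfin : ∀ d, FiniteDimensional K ((W0 B g d).map (keepMap K P')) := fun d =>
    finite_of_le_homog _ _ (map_keep_homog P' _ _ (W0_homog g s hg d))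
  have hGr : ∀ d, finrank K (G d) = finrank K ((W0 B g d).map (keepMap K P')) := fun d =>
    LinearEquiv.finrank_map_eq e.symm.toLinearEquiv ((W0 B g d).map (keepMap K P'))
  have hgr : ∀ (_ : B) (d : ℕ), (Pool.SDL.Id g d).map (keepMap K P) ≤
      homogeneousSubmodule σ K (d + s) := fun _ d =>
    map_keep_homog P _ _ (Id_le_homog g s hg d)
  have hfin : ∀ d : ℕ, FiniteDimensional K ((Pool.SDL.Id g d).map (keepMap K P)) :=
    fun d => finite_of_le_homog _ _ (map_keep_homog P _ _ (Id_le_homog g s hg d))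
  have key := graded_prod_series (B := B) (V := fun _ => σ)
    (fun _ d => (Pool.SDL.Id g d).map (keepMap K P))
    (fun _ => s) hgr G (fun d f hf => by
      choose f' hf' hff using hf
      refine ⟨keepMap K P' (∏ b, rename (fun v => (b, v)) (f' b)),
        Submodule.mem_map_of_mem (prod_mem_W0 g d f' hf'), ?_⟩
      have h1 : ∏ b, rename (Sigma.mk b) (f b) =
          keepMap K (fun μ : (Σ _ : B, σ) →₀ ℕ => ∀ b, P (part μ b))
            (∏ b, rename (Sigma.mk b) (f' b)) := by
        rw [keepMap_prod (fun _ => P) f']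
        refine Finset.prod_congr rfl fun b _ => ?_
        rw [hff b]
      rw [h1]
      have h2 : ∏ b, rename (fun v => ((b, v) : B × σ)) (f' b) =
          rename (Equiv.sigmaEquivProd B σ) (∏ b, rename (Sigma.mk b) (f' b)) := by
        rw [map_prod]
        refine Finset.prod_congr rfl fun b _ => ?_
        rw [rename_rename]
        rfl
      rw [h2, ← keepMap_rename (Equiv.sigmaEquivProd B σ) _ P' hP]
      exact e.symm_apply_apply _) Q (ne_top_of_lt hQ)
  rw [Finset.prod_const, Finset.card_univ] at key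
  simp only [hGr] at key
  exact key.trans (tsum_cauchy Q hQ
    (fun d => (finrank K ((W0 B g d).map (keepMap K P')) : ℝ≥0∞))
    (fun l => (finrank K ((V0 B g l).map (keepMap K P')) : ℝ≥0∞))
    (sum_finrank_W0_le g s hg P'))

end Pool.ZTS
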