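import Pool.Agent.ZTS.Defs
import Pool.Agent.ZTS.Count2

/-!
Zero tests by sums of products with Pfaffians (MP_381749_lc), count: the form of the interface
(`Del`, `lam`).
-/

open MvPolynomial Finset
open scoped BigOperators ENNReal

namespace Pool.ZTS

theorem lam_subset_iff (D N : ℕ) (b : Fin D) (μ : Ys D N →₀ ℕ) :
    lam D N b ⊆ μ.support ↔
      ∀ j : Fin N, μ (Sum.inl b, some j) ≠ 0 ∧ μ (Sum.inr b, some j) ≠ 0 := by
  classical
  constructor
  · intro h j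
    constructor
    · apply Finsupp.mem_support_iff.1
      apply h
      simp [lam]
    · apply Finsupp.mem_support_iff.1
      apply h
      simp [lam]
  · intro h x hx
    obtain ⟨c, v⟩ := x
    simp only [lam, Finset.mem_product, Finset.mem_insert, Finset.mem_singleton,
      Finset.mem_map, Finset.mem_univ, true_and, Function.Embedding.some_apply] at hx
    obtain ⟨hc, j, rfl⟩ := hx
    rw [Finsupp.mem_support_iff]
    rcases hc with rfl | rfl
    · exact (h j).1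
    · exact (h j).2

theorem keep_iff_lam (D N : ℕ) (μ : Ys D N →₀ ℕ) :
    Keep μ ↔ ¬ ∃ b, lam D N b ⊆ μ.support := by
  unfold Keep
  push Not
  refine forall_congr' fun b => ?_
  rw [lam_subset_iff]
  push Not
  refine exists_congr fun j => ?_
  tauto

/-- the two ways to delete monomials are the same -/
theorem Pi_eq_Del (K : Type*) [Field K] (D N : ℕ) : Pi K D N = Del K (lam D N) := by
  classical
  apply LinearMap.ext
  intro f
  ext μ
  rw [Pi, coeff_keepMap, coeff_Del]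
  by_cases h : ∃ b, lam D N b ⊆ μ.support
  · rw [if_pos h, if_neg]
    rw [keep_iff_lam]
    exact not_not.2 h
  · rw [if_neg h, if_pos ((keep_iff_lam D N μ).2 h)]

/-- row C with `Del` -/
theorem rowC' (K : Type*) [Field K] [CharZero K] (D N a : ℕ) (haN : a < N) (Q : ℝ≥0∞)
    (hQ : Q < 1) :
    ((1 - (1 - Q ^ N) ^ (a + 1)) ^ 2 - Q ^ (2 * (N - a))) ^ D ≤
      Q ^ (2 * (N - a) * D) *
        ((1 - Q) ^ (Fintype.card (Ys D N) + 1) *
          ∑' l, Q ^ l *
            (Module.finrank K ((Pool.SDD.V0 (Fin D ⊕ Fin D) (Pool.SDL.bp K N a) l).map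
              (Del K (lam D N))) : ℝ≥0∞)) := by
  rw [← Pi_eq_Del]
  exact rowC K D N a haN Q hQ

theorem V0_eq_Wl (K : Type) [Field K] (D N a l : ℕ) :
    Pool.SDD.V0 (Fin D ⊕ Fin D) (Pool.SDL.bp K N a) l =
      Pool.SDD.Wl (fun κ : Fin D → Sp a => ∏ b, gg K D N a b (κ b)) l := by
  have h1 : ∀ k : Fin D ⊕ Fin D → Fin (a + 1),
      ∏ b, rename (fun v => (b, v)) (Pool.SDL.bp K N a (k b)) =
        ∏ b, gg K D N a b (k (Sum.inl b), k (Sum.inr b)) := by
    intro k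
    rw [Fintype.prod_sum_type, ← Finset.prod_mul_distrib]
    rfl
  unfold Pool.SDD.V0 Pool.SDD.Wl
  congr 1
  ext f
  constructor
  · rintro ⟨μ, k, hμ, rfl⟩
    exact ⟨μ, fun b => (k (Sum.inl b), k (Sum.inr b)), hμ, by rw [h1]⟩
  · rintro ⟨μ, κ, hμ, rfl⟩
    exact ⟨μ, Sum.elim (fun b => (κ b).1) (fun b => (κ b).2), hμ, by rw [h1]; rfl⟩

/-- row C, count -/
theorem count {K : Type} [Field K] [CharZero K] (N a D : ℕ) (haN : a < N) (Q : ℝ≥0∞)
    (hQ0 : Q ≠ 0) (hQ : Q < 1) :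
    (((1 - (1 - Q ^ N) ^ (a + 1)) / Q ^ (N - a)) ^ 2 - 1) ^ D ≤
      (1 - Q) ^ (Fintype.card (Ys D N) + 1) * ∑' l, Q ^ l *
        (Module.finrank K ((Pool.SDD.Wl (fun κ : Fin D → Sp a =>
          ∏ b, gg K D N a b (κ b)) l).map (Del K (lam D N))) : ℝ≥0∞) := by
  have h := rowC' K D N a haN Q hQ
  have h0 : ∀ l, Module.finrank K ((Pool.SDD.V0 (Fin D ⊕ Fin D) (Pool.SDL.bp K N a) l).map
      (Del K (lam D N))) = Module.finrank K ((Pool.SDD.Wl (fun κ : Fin D → Sp a =>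
        ∏ b, gg K D N a b (κ b)) l).map (Del K (lam D N))) := by
    intro l
    rw [V0_eq_Wl]
  simp only [h0] at h
  set R := (1 - Q) ^ (Fintype.card (Ys D N) + 1) * ∑' l, Q ^ l *
        (Module.finrank K ((Pool.SDD.Wl (fun κ : Fin D → Sp a =>
          ∏ b, gg K D N a b (κ b)) l).map (Del K (lam D N))) : ℝ≥0∞) with hR
  set x := 1 - (1 - Q ^ N) ^ (a + 1) with hx
  have hy0 : Q ^ (2 * (N - a)) ≠ 0 := pow_ne_zero _ hQ0
  have hyt : Q ^ (2 * (N - a)) ≠ ⊤ := ENNReal.pow_ne_top (ne_top_of_lt hQ)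
  have e1 : (x / Q ^ (N - a)) ^ 2 - 1 = (x ^ 2 - Q ^ (2 * (N - a))) / Q ^ (2 * (N - a)) := by
    have e2 : (x / Q ^ (N - a)) ^ 2 = x ^ 2 / Q ^ (2 * (N - a)) := by
      rw [div_eq_mul_inv, mul_pow, ← ENNReal.inv_pow, ← pow_mul, mul_comm (N - a) 2,
        div_eq_mul_inv]
    rw [e2, div_eq_mul_inv, div_eq_mul_inv, ENNReal.sub_mul
      (fun _ _ => ENNReal.inv_ne_top.2 hy0), ENNReal.mul_inv_cancel hy0 hyt]
  rw [e1, div_eq_mul_inv, mul_pow, ← ENNReal.inv_pow, ← div_eq_mul_inv]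
  refine ENNReal.div_le_of_le_mul' ?_
  rw [← pow_mul]
  exact h

end Pool.ZTS
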