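import Mathlib

/-!
# Lemma M (MP_381749_lc, zero tests by sums)

A relation between mixed derivatives of `l₁ ⋯ l_D Q` gives a relation, modulo the linear forms
`l_b`, between the products of the derivatives of the `l_b`, whatever `Q ≠ 0` is.
-/

set_option autoImplicit false

namespace Pool.ZTS

open MvPolynomial

/-- iterated derivations annihilating `x` commute with multiplication by `x` -/
theorem foldr_mul {S R β : Type*} [CommRing S] [CommRing R] [Algebra S R]
    (d : β → Derivation S R R) (x : R) :
    ∀ (L : List β), (∀ b ∈ L, d b x = 0) → ∀ F : R,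
      L.foldr (fun b F => d b F) (x * F) = x * L.foldr (fun b F => d b F) F := by
  intro L
  induction L with
  | nil => intro _ F; rfl
  | cons b L ih =>
    intro h F
    rw [List.foldr_cons, List.foldr_cons, ih (fun b' hb' => h b' (List.mem_cons_of_mem _ hb')),
      Derivation.leibniz, h b List.mem_cons_self]
    simp

theorem foldr_pi {S R β : Type*} [CommRing S] [CommRing R] [Algebra S R]
    (d : β → Derivation S R R) (π : R →+* R) :
    ∀ (L : List β), (∀ b ∈ L, ∀ F, π (d b F) = d b (π F)) → ∀ F : R,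
      π (L.foldr (fun b F => d b F) F) = L.foldr (fun b F => d b F) (π F) := by
  intro L
  induction L with
  | nil => intro _ F; rfl
  | cons b L ih =>
    intro h F
    rw [List.foldr_cons, List.foldr_cons, h b List.mem_cons_self,
      ih (fun b' hb' => h b' (List.mem_cons_of_mem _ hb'))]

theorem foldl_mul {R β : Type*} [CommRing R] (π : β → R →+* R) (y : R) :
    ∀ (L : List β), (∀ b ∈ L, π b y = y) → ∀ x : R,
      L.foldl (fun x b => π b x) (x * y) = L.foldl (fun x b => π b x) x * y := by
  intro L
  induction L with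
  | nil => intro _ x; rfl
  | cons b L ih =>
    intro h x
    rw [List.foldl_cons, List.foldl_cons, map_mul, h b List.mem_cons_self,
      ih (fun b' hb' => h b' (List.mem_cons_of_mem _ hb'))]

/-- **Lemma M**, abstract form: `d i b` derivations, `l b` elements with `d i b (l b) = g i b` a
constant, `π b` a ring endomorphism which kills exactly the multiples of `l b`. -/
theorem lemM_list {S R β ι : Type*} [CommRing S] [CommRing R] [Algebra S R] [IsDomain R]
    [CharZero R] [WfDvdMonoid R] [Fintype ι] (l : β → R) (g : ι → β → R)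
    (d : ι → β → Derivation S R R) (π : β → R →+* R)
    (hl : ∀ b, l b ≠ 0) (hlu : ∀ b, ¬ IsUnit (l b))
    (hπ : ∀ b x, π b x = 0 ↔ l b ∣ x) (hπl : ∀ b b', b ≠ b' → π b (l b') = l b')
    (hπg : ∀ b b' i, π b (g i b') = g i b')
    (hdl : ∀ i b, d i b (l b) = g i b) (hdl' : ∀ i b b', b ≠ b' → d i b (l b') = 0)
    (hdπ : ∀ i b b', b ≠ b' → ∀ F, π b (d i b' F) = d i b' (π b F)) :
    ∀ (L : List β), L.Nodup → ∀ (c : ι → R) (Q : R), Q ≠ 0 →
      ∑ i, c i * L.foldr (fun b F => d i b F) ((L.map l).prod * Q) = 0 →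
      ∑ i, L.foldl (fun x b => π b x) (c i) * (L.map (g i)).prod = 0 := by
  intro L
  induction L with
  | nil =>
    intro _ c Q hQ h
    simp only [List.foldr_nil, List.map_nil, List.prod_nil, one_mul, ← Finset.sum_mul] at h
    simp only [List.foldl_nil, List.map_nil, List.prod_nil, mul_one]
    exact (mul_eq_zero.1 h).resolve_right hQ
  | cons b L ih =>
    intro hnd c Q hQ h
    obtain ⟨hb, hnd'⟩ := List.nodup_cons.1 hnd
    obtain ⟨Q', hQp, hQ'⟩ :=
      (FiniteMultiplicity.of_not_isUnit (hlu b) hQ).exists_eq_pow_mul_and_not_dvd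
    set p := multiplicity (l b) Q with hp
    clear_value p
    have hne : ∀ b' ∈ L, b' ≠ b := fun b' hb' e => hb (e ▸ hb')
    set H : R := (L.map l).prod * Q' with hH
    -- the derivative of each term
    have hstep : ∀ i, (b :: L).foldr (fun b F => d i b F) (((b :: L).map l).prod * Q) =
        l b ^ p * (((p : R) + 1) * g i b * L.foldr (fun b F => d i b F) H +
          l b * d i b (L.foldr (fun b F => d i b F) H)) := by
      intro i
      have e1 : ((b :: L).map l).prod * Q = l b ^ (p + 1) * H := by
        rw [List.map_cons, List.prod_cons, hQp, hH]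
        ring
      have h0 : ∀ b' ∈ L, d i b' (l b ^ (p + 1)) = 0 := by
        intro b' hb'
        rw [Derivation.leibniz_pow, hdl' i b' b (hne b' hb')]
        simp
      rw [e1, List.foldr_cons, foldr_mul (d i) _ L h0, Derivation.leibniz,
        Derivation.leibniz_pow, hdl]
      simp only [smul_eq_mul, nsmul_eq_mul, Nat.add_sub_cancel]
      push_cast
      ring
    simp only [hstep] at h
    have h1 : ∑ i, c i * (((p : R) + 1) * g i b * L.foldr (fun b F => d i b F) H +
          l b * d i b (L.foldr (fun b F => d i b F) H)) = 0 := by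
      have h2 : l b ^ p * ∑ i, c i * (((p : R) + 1) * g i b * L.foldr (fun b F => d i b F) H +
          l b * d i b (L.foldr (fun b F => d i b F) H)) = 0 := by
        rw [← h, Finset.mul_sum]
        exact Finset.sum_congr rfl fun i _ => by ring
      exact (mul_eq_zero.1 h2).resolve_left (pow_ne_zero _ (hl b))
    have hπ0 : π b (l b) = 0 := (hπ b _).2 dvd_rfl
    have h3 := congrArg (π b) h1
    rw [map_sum, map_zero] at h3
    have hπH : π b H = (L.map l).prod * π b Q' := by
      rw [hH, map_mul, map_list_prod, List.map_map]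
      congr 2
      refine List.map_congr_left fun b' hb' => ?_
      exact hπl b b' (hne b' hb').symm
    have h4 : ∑ i, (π b (c i) * g i b) * L.foldr (fun b F => d i b F)
        ((L.map l).prod * π b Q') = 0 := by
      have h5 : ((p : R) + 1) * ∑ i, (π b (c i) * g i b) * L.foldr (fun b F => d i b F)
          ((L.map l).prod * π b Q') = 0 := by
        rw [← h3, Finset.mul_sum]
        refine Finset.sum_congr rfl fun i _ => ?_
        rw [map_mul, map_add, map_mul, map_mul, map_mul, hπ0, zero_mul, add_zero, hπg,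
          foldr_pi (d i) (π b) L (fun b' hb' F => hdπ i b b' (hne b' hb').symm F), hπH,
          map_add, map_natCast, map_one]
        ring
      refine (mul_eq_zero.1 h5).resolve_left ?_
      exact_mod_cast Nat.succ_ne_zero p
    have hQ'' : π b Q' ≠ 0 := fun e => hQ' ((hπ b Q').1 e)
    have h6 := ih hnd' (fun i => π b (c i) * g i b) (π b Q') hQ'' h4
    rw [← h6]
    refine Finset.sum_congr rfl fun i _ => ?_
    rw [List.foldl_cons, List.map_cons, List.prod_cons,
      foldl_mul π (g i b) L (fun b' _ => hπg b' b i)]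
    ring

/-- the linear form with coefficients `g` -/
noncomputable def lf {k ξ : Type*} [Field k] [Fintype ξ] (g : ξ → k) : MvPolynomial ξ k :=
  ∑ p, C (g p) * X p

/-- the mixed derivative in the directions `κ 0, …, κ (D - 1)` -/
noncomputable def mder {k ξ : Type*} [Field k] {D : ℕ} (κ : Fin D → ξ)
    (F : MvPolynomial ξ k) : MvPolynomial ξ k :=
  (List.finRange D).foldr (fun b F => pderiv (κ b) F) F

section concrete

variable {k ξ : Type*} [Field k] [Fintype ξ]

/-- the projection along `v` to the kernel of the linear form `g` -/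
noncomputable def pr (g v : ξ → k) : MvPolynomial ξ k →ₐ[k] MvPolynomial ξ k :=
  aeval fun p => X p - C ((∑ q, g q * v q)⁻¹ * v p) * lf g

theorem pr_lf (g v g' : ξ → k) : pr g v (lf g') =
    lf g' - C ((∑ q, g q * v q)⁻¹ * ∑ p, g' p * v p) * lf g := by
  have e : lf g' = ∑ p, C (g' p) * X p := rfl
  have e2 : ∀ p, pr g v (C (g' p) * X p) =
      C (g' p) * X p - C ((∑ q, g q * v q)⁻¹ * (g' p * v p)) * lf g := by
    intro p
    rw [map_mul, pr, algHom_C, aeval_X, mul_sub, MvPolynomial.algebraMap_eq, ← mul_assoc, ← C_mul]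
    congr 3
    ring
  rw [e, map_sum, Finset.sum_congr rfl fun p _ => e2 p, Finset.sum_sub_distrib, Finset.mul_sum,
    map_sum, Finset.sum_mul]

theorem pderiv_lf (g : ξ → k) (q : ξ) : pderiv q (lf g) = C (g q) := by
  classical
  rw [lf, map_sum]
  rw [Finset.sum_eq_single q]
  · rw [Derivation.leibniz, pderiv_C, pderiv_X_self]
    simp
  · intro p _ hp
    rw [Derivation.leibniz, pderiv_C, pderiv_X_of_ne hp]
    simp
  · intro h
    exact absurd (Finset.mem_univ q) h

theorem lf_dvd_sub (g v : ξ → k) (F : MvPolynomial ξ k) : lf g ∣ F - pr g v F := by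
  induction F using MvPolynomial.induction_on with
  | C a => simp [pr]
  | add p q hp hq =>
    rw [map_add]
    have := dvd_add hp hq
    convert this using 1
    ring
  | mul_X p q hp =>
    rw [map_mul]
    have h2 : lf g ∣ X q - pr g v (X q) := by
      rw [pr, aeval_X, sub_sub_cancel]
      exact dvd_mul_left _ _
    have := dvd_add (dvd_mul_of_dvd_left hp (X q)) (dvd_mul_of_dvd_right h2 (pr g v p))
    convert this using 1
    ring

theorem pr_eq_zero_iff (g v : ξ → k) (hv : ∑ q, g q * v q ≠ 0) (F : MvPolynomial ξ k) :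
    pr g v F = 0 ↔ lf g ∣ F := by
  constructor
  · intro h
    have := lf_dvd_sub g v F
    rwa [h, sub_zero] at this
  · rintro ⟨G, rfl⟩
    rw [map_mul, pr_lf, inv_mul_cancel₀ hv, C_1, one_mul, sub_self, zero_mul]

theorem pr_pderiv (g v : ξ → k) (q : ξ) (hq : g q = 0) (F : MvPolynomial ξ k) :
    pr g v (pderiv q F) = pderiv q (pr g v F) := by
  classical
  induction F using MvPolynomial.induction_on with
  | C a => simp [pr]
  | add p q hp hq => rw [map_add, map_add, map_add, map_add, hp, hq]
  | mul_X p r hp =>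
    have h2 : pr g v (pderiv q (X r)) = pderiv q (pr g v (X r)) := by
      rw [pr, aeval_X, map_sub, Derivation.leibniz, pderiv_C, pderiv_lf, hq]
      rw [pderiv_X]
      simp only [Pi.single_apply]
      split_ifs <;> simp
    rw [Derivation.leibniz, map_add, smul_eq_mul, smul_eq_mul, map_mul, map_mul, h2, hp, map_mul,
      Derivation.leibniz, smul_eq_mul, smul_eq_mul]

theorem lf_ne_zero (g v : ξ → k) (hv : ∑ q, g q * v q ≠ 0) : lf g ≠ 0 := by
  classical
  intro h
  apply hv
  refine Finset.sum_eq_zero fun q _ => ?_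
  have := pderiv_lf g q
  rw [h, map_zero] at this
  rw [C_eq_zero.1 this.symm, zero_mul]

theorem lf_not_unit (g v : ξ → k) (hv : ∑ q, g q * v q ≠ 0) : ¬ IsUnit (lf g) := by
  intro h
  have h1 := (pr_eq_zero_iff g v hv 1).2 (isUnit_iff_dvd_one.1 h)
  rw [map_one] at h1
  exact one_ne_zero h1

/-- the projection to the common kernel of the forms `g b`, `b ∈ L` -/
noncomputable def prL {β : Type*} (g v : β → ξ → k) (L : List β) :
    MvPolynomial ξ k →ₐ[k] MvPolynomial ξ k :=
  aeval fun p => X p - (L.map fun b => C ((∑ q, g b q * v b q)⁻¹ * v b p) * lf (g b)).sum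

theorem prL_lf {β : Type*} (g v : β → ξ → k) (L : List β) (b : β)
    (h : ∀ b' ∈ L, ∑ p, g b p * v b' p = 0) : prL g v L (lf (g b)) = lf (g b) := by
  have e : lf (g b) = ∑ p, C (g b p) * X p := rfl
  have e2 : ∀ p, prL g v L (C (g b p) * X p) = C (g b p) * X p - C (g b p) *
      (L.map fun b => C ((∑ q, g b q * v b q)⁻¹ * v b p) * lf (g b)).sum := by
    intro p
    rw [map_mul, prL, algHom_C, aeval_X, mul_sub, MvPolynomial.algebraMap_eq]
  conv_lhs => rw [e, map_sum, Finset.sum_congr rfl fun p _ => e2 p, Finset.sum_sub_distrib, ← e]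
  rw [sub_eq_self]
  clear e2 e
  induction L with
  | nil => simp
  | cons b' L ih =>
    simp only [List.map_cons, List.sum_cons, mul_add, Finset.sum_add_distrib]
    rw [ih (fun b'' hb'' => h b'' (List.mem_cons_of_mem _ hb'')), add_zero]
    have h1 := h b' List.mem_cons_self
    have h2 : ∑ p, C (g b p) *
        (C ((∑ q, g b' q * v b' q)⁻¹ * v b' p) * lf (g b')) =
        C ((∑ q, g b' q * v b' q)⁻¹ * ∑ p, g b p * v b' p) * lf (g b') := by
      rw [Finset.mul_sum, map_sum, Finset.sum_mul]
      refine Finset.sum_congr rfl fun p _ => ?_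
      rw [← mul_assoc, ← C_mul]
      congr 2
      ring
    rw [h2, h1, mul_zero, C_0, zero_mul]

theorem foldl_pr {β : Type*} (g v : β → ξ → k)
    (hv' : ∀ b b', b ≠ b' → ∑ p, g b' p * v b p = 0) :
    ∀ (L : List β), L.Nodup → ∀ F : MvPolynomial ξ k,
      L.foldl (fun x b => (pr (g b) (v b) : MvPolynomial ξ k →+* MvPolynomial ξ k) x) F =
        prL g v L F := by
  intro L
  induction L with
  | nil =>
    intro _ F
    simp [prL]
  | cons b L ih =>
    intro hnd F
    obtain ⟨hb, hnd'⟩ := List.nodup_cons.1 hnd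
    rw [List.foldl_cons, ih hnd', RingHom.coe_coe, ← AlgHom.comp_apply]
    congr 1
    refine MvPolynomial.algHom_ext fun p => ?_
    rw [AlgHom.comp_apply, pr, aeval_X, map_sub, map_mul, prL_lf g v L b
      (fun b' hb' => hv' b' b (fun e => hb (e ▸ hb')))]
    rw [prL, prL, aeval_X, aeval_X, algHom_C, List.map_cons, List.sum_cons,
      MvPolynomial.algebraMap_eq]
    ring

end concrete

/-- **Lemma M**. -/
theorem lemM {k ξ ι : Type*} [Field k] [CharZero k] [Fintype ξ] [Fintype ι] {D : ℕ}
    (g v : Fin D → ξ → k) (hv : ∀ b, ∑ p, g b p * v b p ≠ 0)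
    (hv' : ∀ b b', b ≠ b' → ∑ p, g b' p * v b p = 0)
    (κ : ι → Fin D → ξ) (hκ : ∀ i b b', b ≠ b' → g b (κ i b') = 0)
    (c : ι → MvPolynomial ξ k) (Q : MvPolynomial ξ k) (hQ : Q ≠ 0)
    (h : ∑ i, c i * mder (κ i) ((∏ b, lf (g b)) * Q) = 0) :
    ∑ i, aeval (fun p => (X p : MvPolynomial ξ k) -
        ∑ b, C ((∑ q, g b q * v b q)⁻¹ * v b p) * lf (g b)) (c i) *
      C (∏ b, g b (κ i b)) = 0 := by
  have h1 := lemM_list (S := k) (fun b => lf (g b)) (fun i b => C (g b (κ i b)))
    (fun i b => pderiv (κ i b))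
    (fun b => (pr (g b) (v b) : MvPolynomial ξ k →+* MvPolynomial ξ k))
    (fun b => lf_ne_zero _ _ (hv b)) (fun b => lf_not_unit _ _ (hv b))
    (fun b x => pr_eq_zero_iff _ _ (hv b) x)
    (fun b b' hb => by
      rw [RingHom.coe_coe, pr_lf, hv' b b' hb, mul_zero, C_0, zero_mul, sub_zero])
    (fun b b' i => by rw [RingHom.coe_coe, algHom_C]; rfl)
    (fun i b => pderiv_lf _ _)
    (fun i b b' hb => by rw [pderiv_lf, hκ i b' b (Ne.symm hb), C_0])
    (fun i b b' hb F => pr_pderiv _ _ _ (hκ i b b' hb) F)
    (List.finRange D) (List.nodup_finRange D) c Q hQ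
    (by
      rw [← h]
      refine Finset.sum_congr rfl fun i _ => ?_
      rw [mder, ← List.prod_ofFn, List.ofFn_eq_map])
  rw [← h1]
  have key : prL g v (List.finRange D) = aeval (fun p => (X p : MvPolynomial ξ k) -
        ∑ b, C ((∑ q, g b q * v b q)⁻¹ * v b p) * lf (g b)) := by
    have e : ∀ p, ((List.finRange D).map fun b =>
        C ((∑ q, g b q * v b q)⁻¹ * v b p) * lf (g b)).sum =
        ∑ b, C ((∑ q, g b q * v b q)⁻¹ * v b p) * lf (g b) := by
      intro p
      rw [← List.sum_ofFn, List.ofFn_eq_map]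
    unfold prL
    simp only [e]
  refine Finset.sum_congr rfl fun i _ => ?_
  rw [foldl_pr g v hv' _ (List.nodup_finRange D), key, map_prod, ← List.prod_ofFn,
    List.ofFn_eq_map]

end Pool.ZTS
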