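import Pool.Agent.SDet.PfFinal
import Pool.Agent.ZTS.LemM

/-!
Zero tests by sums of Pfaffians (MP_381749_lc): shared definitions.
-/

open MvPolynomial Finset
open scoped BigOperators ENNReal

namespace Pool.ZTS

/-- rows and columns of the block matrix -/
abbrev Rw (N a D k0 : ℕ) : Type :=
  (((Fin N ⊕ Fin (a + 1)) ⊕ (Fin N ⊕ Fin a)) × Fin D) ⊕ Fin k0

/-- entries of the block matrix -/
abbrev Zs (N a D k0 : ℕ) : Type := Rw N a D k0 × Rw N a D k0

/-- parameters of the block matrix -/
abbrev Ys (D N : ℕ) : Type := (Fin D ⊕ Fin D) × Option (Fin N)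

/-- pairs of a special row and a special column -/
abbrev Sp (a : ℕ) : Type := Fin (a + 1) × Fin (a + 1)

/-- the special corner entry of the block `b` -/
def pos {N a D k0 : ℕ} (b : Fin D) (p : Sp a) : Zs N a D k0 :=
  (Sum.inl (Sum.inl (Sum.inr p.1), b), Sum.inl (Sum.inl (Sum.inr p.2), b))

/-- the block matrix -/
noncomputable def phi0 (K : Type) [Field K] {N a D k0 : ℕ} (x : Zs N a D k0) :
    MvPolynomial (Ys D N) K :=
  Pool.Agent.SDet.big0 (k := k0) (Pool.Agent.SDet.TT K D N a) (Pool.Agent.SDet.WW K D N a) x.1 x.2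

/-- the generic permanent -/
noncomputable def perm (K : Type) [Field K] (N a D k0 : ℕ) : MvPolynomial (Zs N a D k0) K :=
  (Matrix.of fun i j => (X (i, j) : MvPolynomial (Zs N a D k0) K)).permanent

/-- iterated derivative: one variable `q b (κ b)` for each `b` -/
noncomputable def dd {R Z P : Type*} [CommRing R] {D : ℕ} (q : Fin D → P → Z) (κ : Fin D → P)
    (F : MvPolynomial Z R) : MvPolynomial Z R :=
  (List.finRange D).foldr (fun b f => pderiv (q b (κ b)) f) F

/-- linear form of the block `b` -/
noncomputable def lin {R Z P : Type*} [CommRing R] [Fintype P] {D : ℕ} (q : Fin D → P → Z)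
    (g : Fin D → P → R) (b : Fin D) : MvPolynomial Z R :=
  ∑ p, C (g b p) * X (q b p)

/-- projection along the vectors `v b` to the common kernel of the linear forms -/
noncomputable def Xi {k Z P : Type*} [Field k] [Fintype P] [DecidableEq Z] {D : ℕ}
    (q : Fin D → P → Z) (g v : Fin D → P → k) : MvPolynomial Z k →ₐ[k] MvPolynomial Z k :=
  aeval fun z => X z - ∑ b, ∑ p, if z = q b p then
    C (v b p / ∑ p', g b p' * v b p') * lin q g b else 0

/-- linear form with coefficients in a ring; `lf` is the case of a field -/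
noncomputable def LF {R ξ : Type*} [CommRing R] [Fintype ξ] (g : ξ → R) : MvPolynomial ξ R :=
  ∑ p, C (g p) * X p

/-- mixed derivative; `mder` is the case of a field -/
noncomputable def MD {R ξ : Type*} [CommRing R] {D : ℕ} (κ : Fin D → ξ)
    (F : MvPolynomial ξ R) : MvPolynomial ξ R :=
  (List.finRange D).foldr (fun b F => pderiv (κ b) F) F

lemma LF_eq {k ξ : Type*} [Field k] [Fintype ξ] (g : ξ → k) : LF g = lf g := rfl

lemma MD_eq {k ξ : Type*} [Field k] [Fintype ξ] {D : ℕ} (κ : Fin D → ξ)
    (F : MvPolynomial ξ k) : MD κ F = mder κ F := rfl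

/-- the polynomial moved to the point `f`, as a polynomial in the entries with coefficients in the
polynomials in the parameters -/
noncomputable def shift {K Z Y : Type*} [CommRing K] (f : Z → MvPolynomial Y K) :
    MvPolynomial Z K →ₐ[K] MvPolynomial Z (MvPolynomial Y K) :=
  aeval fun z => X z + C (f z)

/-- weights -/
noncomputable def Psi {R Z : Type*} [CommRing R] (w : Z → ℕ) :
    MvPolynomial Z R →ₐ[R] Polynomial (MvPolynomial Z R) :=
  aeval fun z => Polynomial.C (X z) * Polynomial.X ^ w z

/-- weight one for the special corner entries of the blocks, weight two for all other entries -/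
noncomputable def wt {N a D k0 : ℕ} (z : Zs N a D k0) : ℕ := by
  classical
  exact if ∃ b p, z = pos b p then 1 else 2

/-- deletion of the monomials divisible by the product of the variables in some `lam b` -/
noncomputable def Del (K : Type*) {Y : Type*} [Field K] {D : ℕ} (lam : Fin D → Finset Y) :
    MvPolynomial Y K →ₗ[K] MvPolynomial Y K := by
  classical
  exact (basisMonomials Y K).constr K fun μ =>
    if ∃ b, lam b ⊆ μ.support then 0 else monomial μ 1

lemma coeff_Del {K Y : Type*} [Field K] {D : ℕ} (lam : Fin D → Finset Y)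
    (f : MvPolynomial Y K) (μ : Y →₀ ℕ) [Decidable (∃ b, lam b ⊆ μ.support)] :
    coeff μ (Del K lam f) = if ∃ b, lam b ⊆ μ.support then 0 else coeff μ f := by
  classical
  induction f using MvPolynomial.induction_on' with
  | monomial ν c =>
    have h1 : Del K lam (monomial ν c) =
        c • (if ∃ b, lam b ⊆ ν.support then 0 else monomial ν (1 : K)) := by
      have h2 : monomial ν c = c • basisMonomials Y K ν := by
        rw [coe_basisMonomials, smul_monomial, smul_eq_mul, mul_one]
      rw [h2, map_smul, Del, Module.Basis.constr_basis]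
    rw [h1, coeff_smul]
    by_cases hν : ν = μ
    · subst hν
      split_ifs <;> simp
    · split_ifs <;> simp [coeff_monomial, hν]
  | add p q hp hq =>
    rw [map_add, coeff_add, hp, hq, coeff_add]
    split_ifs <;> simp

/-- the variables of type `u` in the block `b` -/
def lam (D N : ℕ) (b : Fin D) : Finset (Ys D N) :=
  ({Sum.inl b, Sum.inr b} : Finset (Fin D ⊕ Fin D)) ×ˢ
    (univ : Finset (Fin N)).map Function.Embedding.some

/-- coefficients of the linear forms -/
noncomputable def gg (K : Type) [Field K] (D N a : ℕ) (b : Fin D) (p : Sp a) :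
    MvPolynomial (Ys D N) K :=
  rename (fun v => (Sum.inl b, v)) (Pool.SDL.bp K N a p.1) *
    rename (fun v => (Sum.inr b, v)) (Pool.SDL.bp K N a p.2)

/-- the product of the block subpermanents -/
noncomputable def gk (K : Type) [Field K] (D N a : ℕ) (κ : (Fin D ⊕ Fin D) → Fin (a + 1)) :
    MvPolynomial (Ys D N) K :=
  ∏ b, rename (fun v => (b, v)) (Pool.SDL.bp K N a (κ b))

/-- the common factor of the coefficients in the block `b` -/
noncomputable def rr (K : Type) [Field K] (D N a : ℕ) (b : Fin D) : MvPolynomial (Ys D N) K :=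
  X (Sum.inl b, none) ^ a * X (Sum.inr b, none) ^ a

/-- rows L and V: a block matrix `phi0` at which the permanent has the leading form
`∏ b, ∑ p, rr b * g b p * x p` -/
structure Data (K : Type) [Field K] (n D N a : ℕ) where
  phi0 : Fin n × Fin n → MvPolynomial (Ys D N) K
  cor : ((Fin D ⊕ Fin D) → Fin (a + 1)) → Fin D → Fin n × Fin n
  wt : Fin n × Fin n → ℕ
  g : Fin D → Fin n × Fin n → MvPolynomial (Ys D N) K
  v : Fin D → Fin n × Fin n → K
  deg : ∀ x, (phi0 x).totalDegree ≤ 1
  wt_cor : ∀ κ b, wt (cor κ b) = 1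
  cor_ne : ∀ κ b b', b ≠ b' → g b (cor κ b') = 0
  cor_prod : ∀ κ, ∏ b, (rr K D N a b * g b (cor κ b)) = gk K D N a κ
  gv : ∀ b, ∑ p, g b p * C (v b p) = ∏ y ∈ lam D N b, X y
  gv_ne : ∀ b b', b ≠ b' → ∑ p, g b' p * C (v b p) = 0
  lead : ∀ (S : Type) [CommRing S] (f : MvPolynomial (Ys D N) K →+* S) (x : Fin n × Fin n → S),
    ∃ H : Polynomial S, (Matrix.of fun i j => Polynomial.C (f (phi0 (i, j))) +
      Polynomial.X ^ wt (i, j) * Polynomial.C (x (i, j))).permanent = Polynomial.X ^ D * H ∧
      H.coeff 0 = ∏ b, ∑ p, f (rr K D N a b * g b p) * x p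
  nz : ∀ z : Fin D → Ys D N, (∀ b, z b ∈ lam D N b) → ∀ b, ∃ p,
    aeval (fun y => if y ∈ Finset.univ.image z then 0 else X y :
      Ys D N → MvPolynomial (Ys D N) K) (g b p) ≠ 0

end Pool.ZTS
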