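import Mathlib

/-!
Zero tests by sums (MP_381749_lc), row E: elimination of the multipliers, general form.
-/

set_option autoImplicit false

open MvPolynomial Finset

namespace Pool.ZTS

section Elim
variable {K : Type*} [Field K] {σ Y : Type*}

open Classical in
/-- set the variables in `Z` to zero -/
noncomputable def kill {A : Type*} [CommRing A] (Z : Set Y) : MvPolynomial Y A →ₐ[A] MvPolynomial Y A :=
  aeval fun y => if y ∈ Z then 0 else X y

open Classical in
theorem kill_monomial {A : Type*} [CommRing A] (Z : Set Y) (μ : Y →₀ ℕ) (c : A) :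
    kill Z (monomial μ c) = if ∀ y ∈ Z, μ y = 0 then monomial μ c else 0 := by
  rw [kill, aeval_monomial, algebraMap_eq]
  split_ifs with h
  · rw [monomial_eq]
    congr 1
    refine Finset.prod_congr rfl fun y hy => ?_
    beta_reduce
    rw [if_neg fun hyZ => Finsupp.mem_support_iff.1 hy (h y hyZ)]
  · push Not at h
    obtain ⟨y, hyZ, hy⟩ := h
    rw [Finsupp.prod, Finset.prod_eq_zero (Finsupp.mem_support_iff.2 hy), mul_zero]
    rw [if_pos hyZ, zero_pow hy]

open Classical in
theorem coeff_kill {A : Type*} [CommRing A] (Z : Set Y) (μ : Y →₀ ℕ) (f : MvPolynomial Y A) :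
    coeff μ (kill Z f) = if ∀ y ∈ Z, μ y = 0 then coeff μ f else 0 := by
  induction f using MvPolynomial.induction_on' with
  | monomial ν c =>
    rw [kill_monomial]
    by_cases hν : ∀ y ∈ Z, ν y = 0
    · rw [if_pos hν, coeff_monomial]
      by_cases h : ν = μ
      · subst h
        rw [if_pos rfl, if_pos hν]
      · rw [if_neg h, ite_self]
    · rw [if_neg hν, coeff_zero, coeff_monomial]
      by_cases h : ν = μ
      · subst h
        rw [if_neg hν]
      · rw [if_neg h, ite_self]
  | add p q hp hq =>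
    rw [map_add, coeff_add, coeff_add, hp, hq]
    split_ifs
    · rfl
    · rw [add_zero]

/-- the extraction step: a relation between terms divisible by different powers -/
theorem extract {A : Type*} [CommRing A] {D : ℕ} (Zs : Fin D → Finset Y)
    (hdisj : ∀ b b', b ≠ b' → Disjoint (Zs b) (Zs b')) (E : ℕ) (S : Finset (Fin D →₀ ℕ))
    (hE : ∀ e ∈ S, ∀ b, e b ≤ E) (q : (Fin D →₀ ℕ) → MvPolynomial Y A)
    (h0 : ∑ e ∈ S, (∏ b, (∏ y ∈ Zs b, (X y : MvPolynomial Y A)) ^ (E - e b)) * q e = 0)
    (e₀ : Fin D →₀ ℕ) (he₀ : e₀ ∈ S) (hmax : ∀ e ∈ S, e.degree ≤ e₀.degree)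
    (z : Fin D → Y) (hz : ∀ b, z b ∈ Zs b) : kill (Set.range z) (q e₀) = 0 := by
  classical
  -- the exponents
  set Λ : (Fin D →₀ ℕ) → (Y →₀ ℕ) := fun e => ∑ b, (E - e b) • ∑ y ∈ Zs b, Finsupp.single y 1
    with hΛ
  have hmon : ∀ e : Fin D →₀ ℕ, ∏ b, (∏ y ∈ Zs b, (X y : MvPolynomial Y A)) ^ (E - e b) =
      monomial (Λ e) 1 := by
    intro e
    have h1 : ∀ b, (∏ y ∈ Zs b, (X y : MvPolynomial Y A)) =
        monomial (∑ y ∈ Zs b, Finsupp.single y 1) 1 := by
      intro b
      rw [monomial_sum_one]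
      rfl
    simp_rw [h1, monomial_pow, one_pow]
    rw [hΛ, monomial_sum_one]
  have hΛz : ∀ e b, Λ e (z b) = E - e b := by
    intro e b
    rw [hΛ]
    simp only [Finsupp.coe_finsetSum, Finset.sum_apply, Finsupp.coe_smul, Pi.smul_apply,
      smul_eq_mul, Finsupp.single_apply]
    rw [Finset.sum_eq_single b]
    · rw [Finset.sum_ite_eq' (Zs b) (z b) (fun _ => 1), if_pos (hz b), mul_one]
    · intro b' _ hb'
      rw [Finset.sum_ite_eq' (Zs b') (z b) (fun _ => 1), if_neg, mul_zero]
      exact fun h => Finset.disjoint_left.1 (hdisj b' b hb') h (hz b)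
    · intro h
      exact absurd (Finset.mem_univ b) h
  ext ν
  rw [coeff_kill, coeff_zero]
  split_ifs with hν
  swap
  · rfl
  have h1 : coeff (Λ e₀ + ν) (∑ e ∈ S, (∏ b, (∏ y ∈ Zs b, (X y : MvPolynomial Y A)) ^ (E - e b)) *
      q e) = coeff ν (q e₀) := by
    rw [coeff_sum, Finset.sum_eq_single e₀]
    · rw [hmon, coeff_monomial_mul, one_mul]
    · intro e he hne
      rw [hmon, coeff_monomial_mul', if_neg]
      intro hle
      -- some coordinate of `e` is smaller
      have h2 : ∃ b, e b < e₀ b := by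
        by_contra hcon
        push Not at hcon
        have h3 : e₀ ≤ e := fun b => hcon b
        have h4 : e.degree ≤ e₀.degree := hmax e he
        apply hne
        have h5 : e = e₀ + (e - e₀) := (add_tsub_cancel_of_le h3).symm
        have h6 : (e - e₀).degree = 0 := by
          have h7 : e.degree = e₀.degree + (e - e₀).degree := by
            conv_lhs => rw [h5]
            exact map_add _ _ _
          omega
        rw [Finsupp.degree_eq_zero_iff] at h6
        rw [h5, h6, add_zero]
      obtain ⟨b, hb⟩ := h2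
      have h3 := hle (z b)
      rw [Finsupp.add_apply, hΛz, hΛz, hν (z b) ⟨b, rfl⟩] at h3
      have := hE e₀ he₀ b
      omega
    · exact fun h => absurd he₀ h
  rw [h0, coeff_zero] at h1
  exact h1.symm

theorem kill_map {A B : Type*} [CommRing A] [CommRing B] (φ : A →+* B) (Z : Set Y)
    (f : MvPolynomial Y A) : kill Z (MvPolynomial.map φ f) = MvPolynomial.map φ (kill Z f) := by
  classical
  ext ν
  rw [coeff_kill, coeff_map, coeff_map, coeff_kill]
  split_ifs
  · rfl
  · rw [map_zero]

/-- swap the variables and extend the scalars -/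
noncomputable def theta {k : Type*} [Field k] (al : MvPolynomial Y K →+* k) :
    MvPolynomial Y (MvPolynomial σ K) →+* MvPolynomial σ k :=
  (MvPolynomial.map al).comp (commAlgEquiv K Y σ : _ ≃ₐ[K] _).toRingEquiv.toRingHom

theorem theta_inj {k : Type*} [Field k] (al : MvPolynomial Y K →+* k)
    (h : Function.Injective al) : Function.Injective (theta (σ := σ) al) := by
  intro x y hxy
  exact (commAlgEquiv K Y σ).injective (map_injective _ h hxy)

theorem theta_C {k : Type*} [Field k] (al : MvPolynomial Y K →+* k) (p : MvPolynomial σ K) :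
    theta al (C p) = MvPolynomial.map (al.comp C) p := by
  change MvPolynomial.map al (commAlgEquiv K Y σ (C p)) = _
  rw [commAlgEquiv_C, MvPolynomial.map_map]

theorem theta_X {k : Type*} [Field k] (al : MvPolynomial Y K →+* k) (y : Y) :
    theta (σ := σ) al (X y) = C (al (X y)) := by
  change MvPolynomial.map al (commAlgEquiv K Y σ (X y)) = _
  rw [commAlgEquiv_X, map_C]

theorem theta_map {k : Type*} [Field k] (al : MvPolynomial Y K →+* k) (f : MvPolynomial Y K) :
    theta (σ := σ) al (MvPolynomial.map C f) = C (al f) := by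
  induction f using MvPolynomial.induction_on with
  | C c =>
    rw [map_C, theta_C, map_C]
    rfl
  | add p q hp hq => rw [map_add, map_add, hp, hq, map_add, map_add]
  | mul_X p y hp => rw [map_mul, map_mul, hp, map_X, theta_X, map_mul, map_mul]

/-- the Taylor expansion along constant vectors -/
noncomputable def taylor {D : ℕ} (v : Fin D → σ → K) :
    MvPolynomial σ K →+* MvPolynomial (Fin D) (MvPolynomial σ K) :=
  eval₂Hom (C.comp C) fun i => C (X i) + ∑ b, C (C (v b i)) * X b

theorem coeff_zero_taylor {D : ℕ} (v : Fin D → σ → K) (a : MvPolynomial σ K) :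
    coeff 0 (taylor v a) = a := by
  have h : (constantCoeff : MvPolynomial (Fin D) (MvPolynomial σ K) →+* _).comp (taylor v) =
      RingHom.id _ := by
    refine ringHom_ext ?_ ?_
    · intro r
      simp [taylor]
    · intro i
      simp [taylor]
  exact RingHom.congr_fun h a

/-- ROW E, general form: `w b p` are the variables of the block `b`, the linear forms are
`∑ p, g b p * X (w b p)` -/
theorem elim_gen {P : Type*} [Fintype P] [DecidableEq σ] {D : ℕ} (w : Fin D → P → σ)
    (hw : ∀ b, Function.Injective (w b)) (Zs : Fin D → Finset Y)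
    (hdisj : ∀ b b', b ≠ b' → Disjoint (Zs b) (Zs b'))
    (g : Fin D → P → MvPolynomial Y K) (v : Fin D → P → K)
    (hz : ∀ z : Fin D → Y, (∀ b, z b ∈ Zs b) → ∀ b, ∃ p, kill (Set.range z) (g b p) ≠ 0)
    {ι : Type*} [Fintype ι] (a : ι → MvPolynomial σ K) (h : ι → MvPolynomial Y K)
    {k : Type*} [Field k] (al : MvPolynomial Y K →+* k) (hinj : Function.Injective al)
    (Xi : MvPolynomial σ k →+* MvPolynomial σ k) (hXiC : ∀ c, Xi (C c) = C c)
    (hXiX : ∀ z, Xi (X z) = X z - ∑ b, ∑ p, if z = w b p then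
      C ((al (∏ y ∈ Zs b, X y))⁻¹ * al (C (v b p))) * ∑ p', C (al (g b p')) * X (w b p') else 0)
    (hXi0 : ∑ j, Xi (MvPolynomial.map (al.comp C) (a j)) * C (al (h j)) = 0)
    (hind : ∀ t : ι → K, (∀ μ : Y →₀ ℕ, (∀ b, ∃ y ∈ Zs b, μ y = 0) →
      ∑ j, t j * coeff μ (h j) = 0) → ∀ j, t j = 0) : ∀ j, a j = 0 := by
  classical
  by_contra hcon
  push Not at hcon
  obtain ⟨j₀, hj₀⟩ := hcon
  obtain ⟨lk, hlk⟩ : ∃ lk : Fin D → MvPolynomial σ k,
      ∀ b, lk b = ∑ p, C (al (g b p)) * X (w b p) := ⟨_, fun _ => rfl⟩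
  obtain ⟨lam, hlam⟩ : ∃ lam : Fin D → MvPolynomial Y K, ∀ b, lam b = ∏ y ∈ Zs b, X y :=
    ⟨_, fun _ => rfl⟩
  simp_rw [← hlk, ← hlam] at hXiX
  have hlam0 : ∀ b, al (lam b) ≠ 0 := by
    intro b h0
    have h1 : lam b = 0 := hinj (by rw [h0, map_zero])
    rw [hlam, Finset.prod_eq_zero_iff] at h1
    obtain ⟨y, _, hy⟩ := h1
    exact X_ne_zero y hy
  -- the vectors
  obtain ⟨V, hV⟩ : ∃ V : Fin D → σ → K, ∀ b z, V b z = ∑ p, if z = w b p then v b p else 0 :=
    ⟨_, fun _ _ => rfl⟩
  -- Taylor
  obtain ⟨s, hs⟩ : ∃ s : Fin D → MvPolynomial σ k, ∀ b, s b = -(C (al (lam b))⁻¹ * lk b) :=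
    ⟨_, fun _ => rfl⟩
  have hEv : ∀ p : MvPolynomial σ K, Xi (MvPolynomial.map (al.comp C) p) =
      eval₂ (MvPolynomial.map (al.comp C)) s (taylor V p) := by
    intro p
    have h1 : Xi.comp (MvPolynomial.map (al.comp C)) =
        (eval₂Hom (MvPolynomial.map (al.comp C)) s).comp (taylor V) := by
      refine ringHom_ext ?_ ?_
      · intro r
        simp [taylor, hXiC]
      · intro z
        simp only [RingHom.comp_apply, map_X, taylor, coe_eval₂Hom, eval₂_X,
          hXiX, eval₂_add, eval₂_C, eval₂_sum, eval₂_mul, map_C]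
        rw [sub_eq_add_neg, ← Finset.sum_neg_distrib]
        congr 1
        refine Finset.sum_congr rfl fun b _ => ?_
        rw [hs, hV, map_sum C, map_sum al, map_sum C, Finset.sum_mul, ← Finset.sum_neg_distrib]
        refine Finset.sum_congr rfl fun p _ => ?_
        split_ifs
        · rw [map_mul C]
          ring
        · rw [map_zero, map_zero, map_zero, zero_mul, neg_zero]
    exact RingHom.congr_fun h1 p
  set S : Finset (Fin D →₀ ℕ) := Finset.univ.biUnion fun j => (taylor V (a j)).support with hS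
  have hSne : S.Nonempty := by
    refine ⟨0, Finset.mem_biUnion.2 ⟨j₀, Finset.mem_univ _, ?_⟩⟩
    rw [mem_support_iff, coeff_zero_taylor]
    exact hj₀
  obtain ⟨e₀, he₀, hmax⟩ := Finset.exists_max_image S (fun e => e.degree) hSne
  have hE : ∀ e ∈ S, ∀ b, e b ≤ e₀.degree := fun e he b => (Finsupp.le_degree b e).trans (hmax e he)
  set lS : Fin D → MvPolynomial Y (MvPolynomial σ K) :=
    fun b => ∑ p, MvPolynomial.map C (g b p) * C (X (w b p)) with hlS
  set q : (Fin D →₀ ℕ) → MvPolynomial Y (MvPolynomial σ K) := fun e =>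
    (∏ b, (-(lS b)) ^ e b) * ∑ j, C (coeff e (taylor V (a j))) * MvPolynomial.map C (h j) with hq
  have hθl : ∀ b, theta al (lS b) = lk b := by
    intro b
    rw [hlS, map_sum, hlk]
    refine Finset.sum_congr rfl fun i _ => ?_
    rw [map_mul, theta_map, theta_C, map_X]
  have h0 : ∑ e ∈ S, (∏ b, (∏ y ∈ Zs b, (X y : MvPolynomial Y (MvPolynomial σ K))) ^
      (e₀.degree - e b)) * q e = 0 := by
    apply theta_inj al hinj
    rw [map_zero, map_sum]
    have h1 : ∀ b, theta (σ := σ) al (∏ y ∈ Zs b, X y) = C (al (lam b)) := by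
      intro b
      rw [map_prod, hlam]
      simp only [map_prod]
      exact Finset.prod_congr rfl fun y _ => theta_X al y
    have h2 : ∀ e ∈ S, theta al ((∏ b, (∏ y ∈ Zs b,
        (X y : MvPolynomial Y (MvPolynomial σ K))) ^ (e₀.degree - e b)) * q e) =
        (∏ b, C (al (lam b)) ^ e₀.degree) * ∑ j, (MvPolynomial.map (al.comp C)
          (coeff e (taylor V (a j))) * ∏ b, s b ^ e b) * C (al (h j)) := by
      intro e he
      have h3 : ∏ b, (C (al (lam b)) : MvPolynomial σ k) ^ e₀.degree =
          (∏ b, C (al (lam b)) ^ (e₀.degree - e b)) * ∏ b, C (al (lam b)) ^ e b := by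
        rw [← Finset.prod_mul_distrib]
        refine Finset.prod_congr rfl fun b _ => ?_
        rw [← pow_add, Nat.sub_add_cancel (hE e he b)]
      have h4 : (∏ b, (C (al (lam b)) : MvPolynomial σ k) ^ e b) * ∏ b, s b ^ e b =
          ∏ b, (-(lk b)) ^ e b := by
        rw [← Finset.prod_mul_distrib]
        refine Finset.prod_congr rfl fun b _ => ?_
        rw [← mul_pow, hs]
        congr 1
        rw [mul_neg, ← mul_assoc, ← map_mul, mul_inv_cancel₀ (hlam0 b), map_one, one_mul]
      rw [map_mul, map_prod, hq]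
      simp only [map_mul, map_prod, map_pow, map_neg, hθl, h1, map_sum, theta_C, theta_map]
      rw [h3, ← h4]
      simp only [Finset.mul_sum]
      refine Finset.sum_congr rfl fun j _ => ?_
      ring
    rw [Finset.sum_congr rfl h2, ← Finset.mul_sum, Finset.sum_comm]
    have h5 : ∑ j, ∑ e ∈ S, (MvPolynomial.map (al.comp C) (coeff e (taylor V (a j))) *
        ∏ b, s b ^ e b) * C (al (h j)) = 0 := by
      rw [← hXi0]
      refine Finset.sum_congr rfl fun j _ => ?_
      rw [hEv, eval₂_eq', ← Finset.sum_mul]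
      congr 1
      symm
      refine Finset.sum_subset ?_ fun e _ he => ?_
      · intro e he
        exact Finset.mem_biUnion.2 ⟨j, Finset.mem_univ _, he⟩
      · rw [notMem_support_iff.1 he, map_zero, zero_mul]
    rw [h5, mul_zero]
  -- the coefficient
  have hkey : ∀ z : Fin D → Y, (∀ b, z b ∈ Zs b) →
      ∑ j, C (coeff e₀ (taylor V (a j))) * MvPolynomial.map C (kill (Set.range z) (h j)) = 0 := by
    intro z hzZ
    have h1 := extract Zs hdisj e₀.degree S hE q h0 e₀ he₀ hmax z hzZ
    rw [hq] at h1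
    simp only [map_mul, map_prod, map_pow, map_neg, map_sum, kill_map] at h1
    have h2 : ∀ b, kill (Set.range z) (lS b) ≠ 0 := by
      intro b h3
      obtain ⟨i, hi⟩ := hz z hzZ b
      apply hi
      ext ν
      rw [coeff_zero]
      have h4 := congrArg (coeff (Finsupp.single (w b i) 1)) (congrArg (coeff ν) h3)
      rw [hlS] at h4
      simp only [map_sum, map_mul, kill_map, coeff_zero] at h4
      rw [coeff_sum, coeff_sum, Finset.sum_eq_single i] at h4
      · rw [kill, algHom_C, algebraMap_eq, mul_comm, coeff_C_mul, coeff_map, mul_comm, coeff_C_mul,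
          coeff_X, if_pos rfl, mul_one] at h4
        exact h4
      · intro i' _ hi'
        rw [kill, algHom_C, algebraMap_eq, mul_comm, coeff_C_mul, coeff_map, mul_comm, coeff_C_mul,
          coeff_X, if_neg, mul_zero]
        exact fun h5 => hi' (hw b (Finsupp.single_left_injective one_ne_zero h5))
      · exact fun h5 => absurd (Finset.mem_univ i) h5
    have h6 : ∏ b, (-(kill (Set.range z) (lS b))) ^ e₀ b ≠ 0 :=
      Finset.prod_ne_zero_iff.2 fun b _ => pow_ne_zero _ (neg_ne_zero.2 (h2 b))
    have h7 := (mul_eq_zero.1 h1).resolve_left h6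
    rw [← h7]
    refine Finset.sum_congr rfl fun j _ => ?_
    congr 1
    rw [kill, algHom_C, algebraMap_eq]
  have hlast : ∀ j, coeff e₀ (taylor V (a j)) = 0 := by
    intro j
    ext m
    rw [coeff_zero]
    refine hind (fun j => coeff m (coeff e₀ (taylor V (a j)))) ?_ j
    intro ν hν
    choose z hzZ hzν using hν
    have h1 := congrArg (coeff m) (congrArg (coeff ν) (hkey z hzZ))
    rw [coeff_sum, coeff_sum, coeff_zero, coeff_zero] at h1
    rw [← h1]
    refine Finset.sum_congr rfl fun j _ => ?_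
    rw [coeff_C_mul, coeff_map, coeff_kill, if_pos, mul_comm (coeff e₀ _), coeff_C_mul, mul_comm]
    rintro _ ⟨b, rfl⟩
    exact hzν b
  rw [hS, Finset.mem_biUnion] at he₀
  obtain ⟨j, _, hj⟩ := he₀
  exact (mem_support_iff.1 hj) (hlast j)

end Elim

end Pool.ZTS
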