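import Pool.Agent.ZTS.Defs
import Pool.Agent.ZTS.Elim

/-!
Zero tests by sums of Pfaffians (MP_381749_lc), row E: elimination of the multipliers.
-/

open MvPolynomial Finset

namespace Pool.ZTS

/-- ROW E -/
theorem lemE {K Z P Y k J : Type*} [Field K] [Field k] [Fintype P] [DecidableEq Z]
    [DecidableEq P] [DecidableEq Y] [Fintype J] {D : ℕ}
    (i : MvPolynomial Y K →+* k) (hi : Function.Injective i)
    (q : Fin D → P → Z) (hq : Function.Injective fun x : Fin D × P => q x.1 x.2)
    (lam : Fin D → Finset Y) (hlam : ∀ b b', b ≠ b' → Disjoint (lam b) (lam b'))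
    (r : Fin D → MvPolynomial Y K) (hr : ∀ b, r b ≠ 0)
    (g : Fin D → P → MvPolynomial Y K) (v : Fin D → P → K)
    (hv : ∀ b, ∑ p, g b p * C (v b p) = ∏ y ∈ lam b, X y)
    (hz : ∀ z : Fin D → Y, (∀ b, z b ∈ lam b) → ∀ b, ∃ p,
      aeval (fun y => if y ∈ Finset.univ.image z then 0 else X y : Y → MvPolynomial Y K)
        (g b p) ≠ 0)
    (h : J → MvPolynomial Y K) (hh : LinearIndependent K fun j => Del K lam (h j))
    (a : J → MvPolynomial Z K)
    (hrel : ∑ j, Xi q (fun b p => i (r b * g b p)) (fun b p => i (C (v b p)))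
      (map (i.comp C) (a j)) * C (i (h j)) = 0) :
    ∀ j, a j = 0 := by
  classical
  have hr' : ∀ b, i (r b) ≠ 0 := fun b h0 => hr b (hi (by rw [h0, map_zero]))
  have hsum : ∀ b, ∑ p', i (r b * g b p') * i (C (v b p')) = i (r b) * i (∏ y ∈ lam b, X y) := by
    intro b
    rw [← hv b, map_sum, Finset.mul_sum]
    refine Finset.sum_congr rfl fun p _ => ?_
    rw [map_mul, map_mul]
    ring
  have hlin : ∀ b, lin q (fun b p => i (r b * g b p)) b =
      (C (i (r b)) * ∑ p', C (i (g b p')) * X (q b p') : MvPolynomial Z k) := by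
    intro b
    rw [lin, Finset.mul_sum]
    refine Finset.sum_congr rfl fun p _ => ?_
    rw [map_mul i, map_mul C]
    ring
  obtain ⟨Ξ, hΞ⟩ : ∃ Ξ : MvPolynomial Z k →+* MvPolynomial Z k,
      ∀ x, Ξ x = Xi q (fun b p => i (r b * g b p)) (fun b p => i (C (v b p))) x :=
    ⟨(Xi q (fun b p => i (r b * g b p)) (fun b p => i (C (v b p))) :
      MvPolynomial Z k →ₐ[k] MvPolynomial Z k), fun _ => rfl⟩
  have hC : ∀ c, Ξ (C c) = C c := by
    intro c
    rw [hΞ, algHom_C, algebraMap_eq]
  have hX : ∀ z, Ξ (X z) = X z - ∑ b, ∑ p, if z = q b p then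
      C ((i (∏ y ∈ lam b, X y))⁻¹ * i (C (v b p))) * ∑ p', C (i (g b p')) * X (q b p') else 0 := by
    intro z
    rw [hΞ, Xi, aeval_X, sub_right_inj]
    refine Finset.sum_congr rfl fun b _ => Finset.sum_congr rfl fun p _ => ?_
    by_cases hzq : z = q b p
    · have h1 : i (C (v b p)) / (i (r b) * i (∏ y ∈ lam b, X y)) * i (r b) =
          (i (∏ y ∈ lam b, X y))⁻¹ * i (C (v b p)) := by
        rw [div_mul_eq_mul_div, mul_comm (i (C (v b p))), mul_div_mul_left _ _ (hr' b),
          div_eq_inv_mul]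
      rw [if_pos hzq, if_pos hzq, hlin, hsum, ← mul_assoc, ← map_mul C, h1]
    · rw [if_neg hzq, if_neg hzq]
  have hrel' : ∑ j, Ξ (map (i.comp C) (a j)) * C (i (h j)) = 0 := by
    rw [← hrel]
    refine Finset.sum_congr rfl fun j _ => ?_
    rw [hΞ]
  refine elim_gen q (fun b p p' hpp => ?_) lam hlam g v (fun z hzz b => ?_) a h i hi Ξ hC hX hrel' ?_
  · have := @hq (b, p) (b, p') hpp
    exact (Prod.mk.inj this).2
  · obtain ⟨p, hp⟩ := hz z hzz b
    refine ⟨p, ?_⟩
    have h1 : kill (Set.range z) (g b p) =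
        aeval (fun y => if y ∈ Finset.univ.image z then 0 else X y : Y → MvPolynomial Y K)
          (g b p) := by
      rw [kill]
      congr 2
      funext y
      have h2 : y ∈ Set.range z ↔ y ∈ Finset.univ.image z := by simp
      by_cases h3 : y ∈ Finset.univ.image z
      · rw [if_pos h3, if_pos (h2.2 h3)]
      · rw [if_neg h3, if_neg (fun h4 => h3 (h2.1 h4))]
    rw [h1]
    exact hp
  · intro t ht
    refine Fintype.linearIndependent_iff.1 hh t ?_
    ext μ
    rw [coeff_sum, coeff_zero]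
    simp only [coeff_smul, smul_eq_mul]
    by_cases hμ : ∃ b, lam b ⊆ μ.support
    · refine Finset.sum_eq_zero fun j _ => ?_
      rw [coeff_Del, if_pos hμ, mul_zero]
    · rw [← ht μ]
      · refine Finset.sum_congr rfl fun j _ => ?_
        rw [coeff_Del, if_neg hμ]
      · intro b
        by_contra hcon
        push Not at hcon
        exact hμ ⟨b, fun y hy => Finsupp.mem_support_iff.2 (hcon y hy)⟩

end Pool.ZTS
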