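import Mathlib

/-!
Zero tests by sums of products with Pfaffians (MP_381749_lc): the projection which deletes the
monomials divisible by the products of all main variables of a block.
-/

open MvPolynomial Finset

namespace Pool.ZTS

/-- the monomials which are not divisible by any of the products `lam b` of all the variables
`some j` of the two halves of the block `b` -/
def Keep {D N : ℕ} (μ : ((Fin D ⊕ Fin D) × Option (Fin N)) →₀ ℕ) : Prop :=
  ∀ b : Fin D, ∃ j : Fin N, μ (Sum.inl b, some j) = 0 ∨ μ (Sum.inr b, some j) = 0

open Classical in
/-- a linear map which keeps the monomials with the property `P` and deletes the others -/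
noncomputable def keepMap (K : Type*) [Field K] {Y : Type*} (P : (Y →₀ ℕ) → Prop) :
    MvPolynomial Y K →ₗ[K] MvPolynomial Y K :=
  (basisMonomials Y K).constr K fun μ => if P μ then monomial μ 1 else 0

open Classical in
theorem keepMap_monomial (K : Type*) [Field K] {Y : Type*} (P : (Y →₀ ℕ) → Prop) (μ : Y →₀ ℕ)
    (c : K) : keepMap K P (monomial μ c) = if P μ then monomial μ c else 0 := by
  have h1 : (monomial μ c : MvPolynomial Y K) = c • (basisMonomials Y K) μ := by
    rw [coe_basisMonomials, smul_monomial, smul_eq_mul, mul_one]
  rw [h1, map_smul, keepMap, Module.Basis.constr_basis]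
  split_ifs
  · rw [coe_basisMonomials]
  · rw [smul_zero]

open Classical in
theorem coeff_keepMap (K : Type*) [Field K] {Y : Type*} (P : (Y →₀ ℕ) → Prop) (μ : Y →₀ ℕ)
    (f : MvPolynomial Y K) : coeff μ (keepMap K P f) = if P μ then coeff μ f else 0 := by
  induction f using MvPolynomial.induction_on' with
  | monomial ν c =>
    rw [keepMap_monomial]
    by_cases hν : P ν
    · rw [if_pos hν, coeff_monomial]
      by_cases h : ν = μ
      · subst h
        rw [if_pos rfl, if_pos hν]
      · rw [if_neg h, ite_self]
    · rw [if_neg hν, coeff_zero, coeff_monomial]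
      by_cases h : ν = μ
      · subst h
        rw [if_neg hν]
      · rw [if_neg h, ite_self]
  | add p q hp hq =>
    rw [map_add, coeff_add, coeff_add, hp, hq]
    split_ifs
    · rfl
    · rw [add_zero]

/-- deletes the monomials divisible by some `lam b` -/
noncomputable def Pi (K : Type*) [Field K] (D N : ℕ) :
    MvPolynomial ((Fin D ⊕ Fin D) × Option (Fin N)) K →ₗ[K]
      MvPolynomial ((Fin D ⊕ Fin D) × Option (Fin N)) K :=
  keepMap K Keep

end Pool.ZTS
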