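import Mathlib
import Pool.Agent.FD.Lower

/-!
Zero tests by sums of products with Pfaffians (MP_381749_lc): Lemma M, mixed derivatives of
`(product of linear forms) * Q` modulo the linear forms.
-/

set_option autoImplicit false

open Finset

namespace Pool.ZTS

section abstract

variable {A R : Type*} [CommRing A] [CommRing R] [Algebra A R] {B J : Type*}

/-- iterated derivations, the last one is applied first -/
def iterd (d : B → J → Derivation A R R) (κ : J) (L : List B) (x : R) : R :=
  L.foldr (fun b y => d b κ y) x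

theorem iterd_nil (d : B → J → Derivation A R R) (κ : J) (x : R) : iterd d κ [] x = x := rfl

theorem iterd_append (d : B → J → Derivation A R R) (κ : J) (L : List B) (b : B) (x : R) :
    iterd d κ (L ++ [b]) x = iterd d κ L (d b κ x) := by
  simp [iterd]

theorem iterd_cons (d : B → J → Derivation A R R) (κ : J) (L : List B) (b : B) (x : R) :
    iterd d κ (b :: L) x = d b κ (iterd d κ L x) := rfl

theorem iterd_add (d : B → J → Derivation A R R) (κ : J) (L : List B) (x y : R) :
    iterd d κ L (x + y) = iterd d κ L x + iterd d κ L y := by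
  induction L with
  | nil => rfl
  | cons b L ih => rw [iterd_cons, iterd_cons, iterd_cons, ih, map_add]

/-- factors which are killed by all the derivations -/
theorem iterd_mul (d : B → J → Derivation A R R) (κ : J) (L : List B) (a x : R)
    (ha : ∀ b ∈ L, d b κ a = 0) : iterd d κ L (a * x) = a * iterd d κ L x := by
  induction L with
  | nil => rfl
  | cons b L ih =>
    rw [iterd_cons, iterd_cons, ih fun b' hb' => ha b' (List.mem_cons_of_mem _ hb'),
      Derivation.leibniz, ha b List.mem_cons_self, smul_zero, add_zero, smul_eq_mul]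

/-- stable ideals -/
theorem iterd_mem (d : B → J → Derivation A R R) (κ : J) (L : List B) (I : Ideal R)
    (hI : ∀ b ∈ L, ∀ y ∈ I, d b κ y ∈ I) {x : R} (hx : x ∈ I) : iterd d κ L x ∈ I := by
  induction L with
  | nil => exact hx
  | cons b L ih =>
    rw [iterd_cons]
    exact hI b List.mem_cons_self _ (ih fun b' hb' => hI b' (List.mem_cons_of_mem _ hb'))

/-- an ideal generated by elements which are killed by a derivation is stable -/
theorem span_stable (D : Derivation A R R) (s : Set R) (hs : ∀ y ∈ s, D y = 0) {x : R}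
    (hx : x ∈ Ideal.span s) : D x ∈ Ideal.span s := by
  induction hx using Submodule.span_induction with
  | mem y hy =>
    rw [hs y hy]
    exact Ideal.zero_mem _
  | zero =>
    rw [map_zero]
    exact Ideal.zero_mem _
  | add y z hy hz ihy ihz =>
    rw [map_add]
    exact Ideal.add_mem _ ihy ihz
  | smul a y hy ihy =>
    rw [smul_eq_mul, Derivation.leibniz]
    refine Ideal.add_mem _ ?_ ?_
    · exact Ideal.mul_mem_left _ _ ihy
    · rw [smul_eq_mul]
      exact Ideal.mul_mem_right _ _ hy

/-- division by the highest power modulo a prime ideal -/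
theorem exists_pow_dvd [IsNoetherianRing R] (I : Ideal R) [hI : I.IsPrime] {l Q : R} (hQ : Q ∉ I)
    (hl : l ∉ I) (hI' : I ⊔ Ideal.span {l} ≠ ⊤) :
    ∃ (p : ℕ) (H : R), Q - l ^ p * H ∈ I ∧ H ∉ I ⊔ Ideal.span {l} := by
  have hdom : IsDomain (R ⧸ I) := Ideal.Quotient.isDomain I
  set q := Ideal.Quotient.mk I with hq
  have hQ0 : q Q ≠ 0 := by rwa [Ne, Ideal.Quotient.eq_zero_iff_mem]
  have hl0 : q l ≠ 0 := by rwa [Ne, Ideal.Quotient.eq_zero_iff_mem]
  have hmem : ∀ z : R, z ∈ I ⊔ Ideal.span {l} ↔ q l ∣ q z := by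
    intro z
    rw [Submodule.mem_sup]
    constructor
    · rintro ⟨i, hi, w, hw, rfl⟩
      obtain ⟨a, rfl⟩ := Ideal.mem_span_singleton'.1 hw
      rw [map_add, Ideal.Quotient.eq_zero_iff_mem.2 hi, zero_add, map_mul]
      exact Dvd.intro_left _ rfl
    · rintro ⟨a, ha⟩
      obtain ⟨a, rfl⟩ := Ideal.Quotient.mk_surjective a
      refine ⟨z - l * a, ?_, l * a, Ideal.mul_mem_right _ _ (Ideal.mem_span_singleton_self l), ?_⟩
      · rw [← Ideal.Quotient.eq_zero_iff_mem, map_sub, map_mul, sub_eq_zero]
        exact ha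
      · ring
  have hnu : ¬ IsUnit (q l) := by
    intro hu
    apply hI'
    rw [Ideal.eq_top_iff_one, hmem, map_one]
    exact hu.dvd
  have hfin : FiniteMultiplicity (q l) (q Q) := FiniteMultiplicity.of_not_isUnit hnu hQ0
  obtain ⟨h, hh, hh'⟩ := hfin.exists_eq_pow_mul_and_not_dvd
  obtain ⟨H, rfl⟩ := Ideal.Quotient.mk_surjective h
  refine ⟨multiplicity (q l) (q Q), H, ?_, ?_⟩
  · rw [← Ideal.Quotient.eq_zero_iff_mem, map_sub, map_mul, map_pow, sub_eq_zero]
    exact hh
  · rw [hmem]
    exact hh'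

/-- **Lemma M**, abstract form -/
theorem lemmaM_aux [Algebra ℚ R] [IsNoetherianRing R] [Fintype J] (l : B → R) (g : B → J → R)
    (d : B → J → Derivation A R R) (hdl : ∀ b κ, d b κ (l b) = g b κ)
    (hdl' : ∀ b κ b', b' ≠ b → d b κ (l b') = 0) (hdg : ∀ b κ b' κ', d b κ (g b' κ') = 0)
    (hprime : ∀ S : Set B, (Ideal.span (l '' S)).IsPrime)
    (hnot : ∀ (S : Set B) (b : B), b ∉ S → l b ∉ Ideal.span (l '' S)) (L : List B) :
    ∀ (S : Set B), L.Nodup → (∀ b ∈ L, b ∉ S) → ∀ (c : J → R) (Q : R),
      Q ∉ Ideal.span (l '' S) →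
      ∑ κ, c κ * iterd d κ L ((L.map l).prod * Q) ∈ Ideal.span (l '' S) →
      ∑ κ, c κ * (L.map fun b => g b κ).prod ∈ Ideal.span (l '' (S ∪ {b | b ∈ L})) := by
  induction L using List.reverseRecOn with
  | nil =>
    intro S _ _ c Q hQ hsum
    have h1 : (∑ κ, c κ) * Q ∈ Ideal.span (l '' S) := by
      simpa [iterd_nil, Finset.sum_mul] using hsum
    have h2 := ((hprime S).mem_or_mem h1).resolve_right hQ
    simpa using h2
  | append_singleton L b ih =>
    intro S hnd hS c Q hQ hsum
    have hnd' : L.Nodup ∧ b ∉ L := by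
      rw [List.nodup_append] at hnd
      refine ⟨hnd.1, fun hb => ?_⟩
      exact hnd.2.2 b hb b (by simp) rfl
    have hbS : b ∉ S := hS b (by simp)
    have hLS : ∀ a ∈ L, a ∉ S := fun a ha => hS a (by simp [ha])
    set I := Ideal.span (l '' S) with hI
    have hIp : I.IsPrime := hprime S
    have hI'eq : Ideal.span (l '' (S ∪ {b})) = I ⊔ Ideal.span {l b} := by
      rw [Set.image_union, Set.image_singleton, Ideal.span_union]
    have hI'p : (I ⊔ Ideal.span {l b}).IsPrime := by
      rw [← hI'eq]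
      exact hprime _
    obtain ⟨p, H, hp, hH⟩ := exists_pow_dvd I hQ (hnot S b hbS) hI'p.ne_top
    -- stability of the ideal
    have hst : ∀ a, a ∉ S → ∀ κ, ∀ y ∈ I, d a κ y ∈ I := by
      intro a ha κ y hy
      refine span_stable _ _ ?_ hy
      rintro _ ⟨a', ha', rfl⟩
      exact hdl' a κ a' (fun h => ha (h ▸ ha'))
    have hst' : ∀ a ∈ L, ∀ κ, ∀ y ∈ I ⊔ Ideal.span {l b}, d a κ y ∈ I ⊔ Ideal.span {l b} := by
      intro a ha κ y hy
      rw [← hI'eq] at hy ⊢
      refine span_stable _ _ ?_ hy
      rintro _ ⟨a', ha', rfl⟩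
      refine hdl' a κ a' ?_
      rintro rfl
      rcases ha' with h | h
      · exact hLS a' ha h
      · rw [Set.mem_singleton_iff] at h
        exact hnd'.2 (h ▸ ha)
    set Y : R := (L.map l).prod * H with hY
    -- the derivative modulo `I`
    have key : ∀ κ, iterd d κ (L ++ [b]) (((L ++ [b]).map l).prod * Q)
        - l b ^ p * ((p + 1 : ℕ) * (g b κ * iterd d κ L Y) + l b * iterd d κ L (d b κ Y)) ∈ I := by
      intro κ
      have e1 : ((L ++ [b]).map l).prod * Q
          = l b ^ (p + 1) * Y + (L.map l).prod * l b * (Q - l b ^ p * H) := by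
        rw [List.map_append, List.prod_append, List.map_singleton, List.prod_singleton, hY]
        ring
      have e2 : d b κ (l b ^ (p + 1) * Y)
          = l b ^ p * ((p + 1 : ℕ) * (g b κ * Y) + l b * d b κ Y) := by
        rw [Derivation.leibniz, Derivation.leibniz_pow, hdl, smul_eq_mul, smul_eq_mul,
          Nat.add_sub_cancel, smul_eq_mul, nsmul_eq_mul]
        ring
      have e3 : iterd d κ L (l b ^ p * ((p + 1 : ℕ) * (g b κ * Y) + l b * d b κ Y))
          = l b ^ p * ((p + 1 : ℕ) * (g b κ * iterd d κ L Y) + l b * iterd d κ L (d b κ Y)) := by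
        have hk : ∀ a ∈ L, d a κ (l b) = 0 := fun a ha => hdl' a κ b (fun h => hnd'.2 (h ▸ ha))
        rw [iterd_mul d κ L (l b ^ p) _ (fun a ha => by
          rw [Derivation.leibniz_pow, hk a ha, smul_zero, smul_zero]), iterd_add,
          iterd_mul d κ L ((p + 1 : ℕ) : R) _ (fun a _ => Derivation.map_natCast _ _),
          iterd_mul d κ L (g b κ) _ (fun a _ => hdg a κ b κ), iterd_mul d κ L (l b) _ hk]
      rw [e1, iterd_append, map_add, iterd_add, e2, e3, add_sub_cancel_left]
      refine iterd_mem d κ L I (fun a ha y hy => hst a (hLS a ha) κ y hy) ?_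
      exact hst b hbS κ _ (Ideal.mul_mem_left _ _ hp)
    have h1 : l b ^ p * ∑ κ, c κ * ((p + 1 : ℕ) * (g b κ * iterd d κ L Y)
        + l b * iterd d κ L (d b κ Y)) ∈ I := by
      have h2 : ∑ κ, c κ * (iterd d κ (L ++ [b]) (((L ++ [b]).map l).prod * Q)
        - l b ^ p * ((p + 1 : ℕ) * (g b κ * iterd d κ L Y) + l b * iterd d κ L (d b κ Y))) ∈ I :=
        Ideal.sum_mem _ fun κ _ => Ideal.mul_mem_left _ _ (key κ)
      have h3 := Ideal.sub_mem _ hsum h2
      rw [← Finset.sum_sub_distrib] at h3
      rw [Finset.mul_sum]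
      convert h3 using 1
      refine Finset.sum_congr rfl fun κ _ => ?_
      ring
    have h2 : ∑ κ, c κ * ((p + 1 : ℕ) * (g b κ * iterd d κ L Y)
        + l b * iterd d κ L (d b κ Y)) ∈ I := by
      rcases hIp.mem_or_mem h1 with h | h
      · exact absurd (hIp.mem_of_pow_mem _ h) (hnot S b hbS)
      · exact h
    have h3 : ((p + 1 : ℕ) : R) * ∑ κ, (c κ * g b κ) * iterd d κ L Y
        ∈ I ⊔ Ideal.span {l b} := by
      have h4 : l b * ∑ κ, c κ * iterd d κ L (d b κ Y) ∈ I ⊔ Ideal.span {l b} :=
        Ideal.mul_mem_right _ _ ((le_sup_right : Ideal.span {l b} ≤ I ⊔ Ideal.span {l b})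
          (Ideal.mem_span_singleton_self _))
      have h5 := Ideal.sub_mem _ ((le_sup_left : I ≤ I ⊔ Ideal.span {l b}) h2) h4
      convert h5 using 1
      rw [Finset.mul_sum, Finset.mul_sum, ← Finset.sum_sub_distrib]
      refine Finset.sum_congr rfl fun κ _ => ?_
      ring
    have h4 : ∑ κ, (c κ * g b κ) * iterd d κ L Y ∈ I ⊔ Ideal.span {l b} := by
      have hu : IsUnit ((p + 1 : ℕ) : R) := by
        have h5 : ((p + 1 : ℕ) : R) = algebraMap ℚ R ((p + 1 : ℕ) : ℚ) := by
          rw [map_natCast]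
        rw [h5]
        refine (IsUnit.mk0 _ ?_).map _
        exact_mod_cast Nat.succ_ne_zero p
      exact (Ideal.unit_mul_mem_iff_mem _ hu).1 h3
    have h5 := ih (S ∪ {b}) hnd'.1 (by
      rintro a ha (h | h)
      · exact hLS a ha h
      · rw [Set.mem_singleton_iff] at h
        exact hnd'.2 (h ▸ ha)) (fun κ => c κ * g b κ) H (by rw [hI'eq]; exact hH)
      (by rw [hI'eq]; exact h4)
    have e6 : S ∪ {a | a ∈ L ++ [b]} = S ∪ {b} ∪ {a | a ∈ L} := by
      ext a
      simp only [Set.mem_union, Set.mem_ofPred_eq, List.mem_append, List.mem_singleton,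
        Set.mem_singleton_iff]
      tauto
    rw [e6]
    convert h5 using 1
    refine Finset.sum_congr rfl fun κ _ => ?_
    rw [List.map_append, List.prod_append, List.map_singleton, List.prod_singleton]
    ring

end abstract

section linear

open MvPolynomial

variable {k σ B J : Type*} [Field k] [Fintype σ]

/-- the linear form with the coefficients `a` -/
noncomputable def lf (a : σ → k) : MvPolynomial σ k := ∑ x, C (a x) * X x

theorem dirD_lf (a u : σ → k) : Pool.FD.dirD u (lf a) = C (∑ x, a x * u x) := by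
  classical
  rw [lf, map_sum, map_sum]
  refine Finset.sum_congr rfl fun x _ => ?_
  rw [Derivation.leibniz, Pool.FD.dirD_C, Pool.FD.dirD_X, smul_zero, add_zero, smul_eq_mul, C_mul]

theorem coeff_lf (a : σ → k) (x : σ) : coeff (Finsupp.single x 1) (lf a) = a x := by
  classical
  rw [lf, coeff_sum, Finset.sum_eq_single x]
  · rw [coeff_C_mul, coeff_X, if_pos rfl, mul_one]
  · intro y _ hy
    rw [coeff_C_mul, coeff_X, if_neg, mul_zero]
    intro h
    exact hy (Finsupp.single_left_injective one_ne_zero h)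
  · intro h
    exact absurd (Finset.mem_univ x) h

open Classical in
/-- elimination of one variable for each linear form of the set `S` -/
noncomputable def elim [Fintype B] (a : B → σ → k) (v : B → σ) (S : Set B) :
    MvPolynomial σ k →ₐ[k] MvPolynomial σ k :=
  aeval fun x => X x - ∑ b, if b ∈ S ∧ x = v b then C (a b (v b))⁻¹ * lf (a b) else 0

theorem elim_X [Fintype B] (a : B → σ → k) (v : B → σ) (S : Set B) (x : σ) :
    X x - elim a v S (X x) ∈ Ideal.span ((fun b => lf (a b)) '' S) := by
  classical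
  rw [elim, aeval_X, sub_sub_cancel]
  refine Ideal.sum_mem _ fun b _ => ?_
  split_ifs with h
  · exact Ideal.mul_mem_left _ _ (Ideal.subset_span ⟨b, h.1, rfl⟩)
  · exact Ideal.zero_mem _

theorem elim_sub [Fintype B] (a : B → σ → k) (v : B → σ) (S : Set B) (f : MvPolynomial σ k) :
    f - elim a v S f ∈ Ideal.span ((fun b => lf (a b)) '' S) := by
  set I := Ideal.span ((fun b => lf (a b)) '' S) with hI
  have h1 : (Ideal.Quotient.mkₐ k I).comp (elim a v S) = Ideal.Quotient.mkₐ k I := by
    apply MvPolynomial.algHom_ext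
    intro x
    rw [AlgHom.comp_apply, Ideal.Quotient.mkₐ_eq_mk, eq_comm, Ideal.Quotient.eq]
    exact elim_X a v S x
  have h2 := congrArg (fun φ => φ f) h1
  simp only [AlgHom.comp_apply, Ideal.Quotient.mkₐ_eq_mk] at h2
  rw [← Ideal.Quotient.eq]
  exact h2.symm

open Classical in
theorem elim_lf [Fintype B] (a : B → σ → k)
    (hdisj : ∀ b b', b ≠ b' → ∀ x, a b x = 0 ∨ a b' x = 0) (v : B → σ)
    (hv : ∀ b, a b (v b) ≠ 0) (S : Set B) (b : B) :
    elim a v S (lf (a b)) = if b ∈ S then 0 else lf (a b) := by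
  have h1 : elim a v S (lf (a b)) = lf (a b) - ∑ x, ∑ b', C (a b x) *
      (if b' ∈ S ∧ x = v b' then C (a b' (v b'))⁻¹ * lf (a b') else 0) := by
    conv_lhs => rw [lf, map_sum]
    rw [lf, ← Finset.sum_sub_distrib]
    refine Finset.sum_congr rfl fun x _ => ?_
    rw [map_mul, elim, aeval_X, ← algebraMap_eq, AlgHom.commutes, mul_sub, Finset.mul_sum]
  rw [h1, Finset.sum_comm, Finset.sum_eq_single b]
  · rw [Finset.sum_eq_single (v b)]
    · by_cases hb : b ∈ S
      · rw [if_pos ⟨hb, rfl⟩, if_pos hb, ← mul_assoc, ← C_mul, mul_inv_cancel₀ (hv b), C_1,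
          one_mul, sub_self]
      · rw [if_neg (fun h => hb h.1), if_neg hb, mul_zero, sub_zero]
    · intro x _ hx
      rw [if_neg (fun h => hx h.2), mul_zero]
    · intro h
      exact absurd (Finset.mem_univ _) h
  · intro b' _ hb'
    refine Finset.sum_eq_zero fun x _ => ?_
    split_ifs with h
    · rcases hdisj b b' (Ne.symm hb') x with h2 | h2
      · rw [h2, C_0, zero_mul]
      · rw [h.2] at h2
        exact absurd h2 (hv b')
    · rw [mul_zero]
  · intro h
    exact absurd (Finset.mem_univ _) h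

theorem mem_span_iff [Fintype B] (a : B → σ → k)
    (hdisj : ∀ b b', b ≠ b' → ∀ x, a b x = 0 ∨ a b' x = 0) (v : B → σ)
    (hv : ∀ b, a b (v b) ≠ 0) (S : Set B) (f : MvPolynomial σ k) :
    f ∈ Ideal.span ((fun b => lf (a b)) '' S) ↔ elim a v S f = 0 := by
  classical
  constructor
  · intro hf
    have h1 : Ideal.span ((fun b => lf (a b)) '' S) ≤ RingHom.ker (elim a v S).toRingHom := by
      rw [Ideal.span_le]
      rintro _ ⟨b, hb, rfl⟩
      show elim a v S (lf (a b)) = 0
      rw [elim_lf a hdisj v hv, if_pos hb]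
    exact h1 hf
  · intro hf
    have h1 := elim_sub a v S f
    rwa [hf, sub_zero] at h1

/-- **Lemma M** (helper86): mixed directional derivatives of the product of linear forms in disjoint
sets of variables and an arbitrary nonzero polynomial `Q`, modulo the linear forms -/
theorem lemmaM [CharZero k] [Finite B] [Fintype J] (a : B → σ → k)
    (hdisj : ∀ b b', b ≠ b' → ∀ x, a b x = 0 ∨ a b' x = 0) (ha : ∀ b, a b ≠ 0)
    (u : B → J → σ → k) (hu : ∀ b κ b', b' ≠ b → ∑ x, a b' x * u b κ x = 0)
    (c : J → MvPolynomial σ k) (Q : MvPolynomial σ k) (hQ : Q ≠ 0) (L : List B) (hL : L.Nodup)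
    (hsum : ∑ κ, c κ * Pool.FD.itd (L.map fun b => u b κ)
      ((L.map fun b => lf (a b)).prod * Q) = 0) :
    ∑ κ, c κ * (L.map fun b => (C (∑ x, a b x * u b κ x) : MvPolynomial σ k)).prod
      ∈ Ideal.span ((fun b => lf (a b)) '' {b | b ∈ L}) := by
  classical
  have := Fintype.ofFinite B
  have hv : ∀ b, ∃ x, a b x ≠ 0 := fun b => Function.ne_iff.1 (ha b)
  choose v hv using hv
  have hne : ∀ b, lf (a b) ≠ 0 := by
    intro b h
    have h1 := coeff_lf (a b) (v b)
    rw [h, coeff_zero] at h1
    exact hv b h1.symm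
  have hd : ∀ (κ : J) (M : List B) (x : MvPolynomial σ k),
      iterd (fun b κ => Pool.FD.dirD (u b κ)) κ M x
        = Pool.FD.itd (M.map fun b => u b κ) x := by
    intro κ M x
    induction M with
    | nil => rfl
    | cons b M ih =>
      rw [iterd_cons, ih]
      rfl
  have key := lemmaM_aux (R := MvPolynomial σ k) (fun b => lf (a b))
    (fun b κ => C (∑ x, a b x * u b κ x))
    (fun b κ => Pool.FD.dirD (u b κ))
    (fun b κ => dirD_lf (a b) (u b κ))
    (fun b κ b' hb' => by rw [dirD_lf, hu b κ b' hb', C_0])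
    (fun b κ b' κ' => Pool.FD.dirD_C _ _)
    (fun S => by
      have h1 : Ideal.span ((fun b => lf (a b)) '' S) = RingHom.ker (elim a v S).toRingHom := by
        ext f
        exact mem_span_iff a hdisj v hv S f
      rw [h1]
      exact RingHom.ker_isPrime _)
    (fun S b hb => by
      rw [mem_span_iff a hdisj v hv, elim_lf a hdisj v hv, if_neg hb]
      exact hne b) L ∅ hL (fun b _ h => h) c Q (by
        rw [Set.image_empty, Ideal.span_empty, Ideal.mem_bot]
        exact hQ) (by
        rw [Set.image_empty, Ideal.span_empty, Ideal.mem_bot, ← hsum]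
        refine Finset.sum_congr rfl fun κ _ => ?_
        rw [hd])
  rw [Set.empty_union] at key
  exact key

end linear

end Pool.ZTS
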