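import Pool.Agent.ZTS.Psi
import Pool.Agent.ZTS.Count3

/-!
Zero tests by sums (ZTS), row G: independence at the generic point.
-/

set_option autoImplicit false

open MvPolynomial Finset
open scoped BigOperators

namespace Pool.ZTS

section Sh

variable {K ξ Y k : Type*} [Field K] [Field k] (al : MvPolynomial Y K →+* k)
  (φ0 : ξ → MvPolynomial Y K)

/-- the polynomial at the point `φ0`, over the field `k` -/
noncomputable def Sh : MvPolynomial ξ K →+* MvPolynomial ξ k :=
  eval₂Hom ((C : k →+* MvPolynomial ξ k).comp (al.comp C)) fun x => X x + C (al (φ0 x))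

lemma Sh_C (c : K) : Sh al φ0 (C c) = C (al (C c)) := by
  unfold Sh
  rw [eval₂Hom_C]
  rfl

lemma Sh_X (x : ξ) : Sh al φ0 (X x) = X x + C (al (φ0 x)) := by
  unfold Sh
  rw [eval₂Hom_X']

lemma Sh_injective : Function.Injective (Sh al φ0) := by
  let τ : MvPolynomial ξ k →ₐ[k] MvPolynomial ξ k := aeval fun x => X x - C (al (φ0 x))
  have h1 : ∀ F, τ (Sh al φ0 F) = MvPolynomial.map (al.comp C) F := by
    intro F
    have h : τ.toRingHom.comp (Sh al φ0) = MvPolynomial.map (al.comp C) := by
      apply MvPolynomial.ringHom_ext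
      · intro r
        change τ (Sh al φ0 (C r)) = _
        rw [Sh_C, map_C, algHom_C]
        rfl
      · intro x
        change τ (Sh al φ0 (X x)) = _
        rw [Sh_X, map_X, map_add, algHom_C]
        simp [τ, algebraMap_eq]
    exact RingHom.congr_fun h F
  intro F F' h
  have h2 := congrArg τ h
  rw [h1, h1] at h2
  exact map_injective _ (al.comp C).injective h2

lemma Sh_pderiv (z : ξ) (F : MvPolynomial ξ K) :
    Sh al φ0 (pderiv z F) = pderiv z (Sh al φ0 F) := by
  classical
  induction F using MvPolynomial.induction_on with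
  | C a => rw [pderiv_C, map_zero, Sh_C, pderiv_C]
  | add p q hp hq => rw [map_add, map_add, map_add, map_add, hp, hq]
  | mul_X p n hp =>
    rw [Derivation.leibniz, map_add, smul_eq_mul, smul_eq_mul, map_mul, map_mul, hp, map_mul,
      Derivation.leibniz, smul_eq_mul, smul_eq_mul, Sh_X, map_add, pderiv_C, add_zero,
      pderiv_X, pderiv_X]
    congr 2
    rcases eq_or_ne n z with rfl | h
    · rw [Pi.single_eq_same, Pi.single_eq_same, map_one]
    · rw [Pi.single_eq_of_ne h, Pi.single_eq_of_ne h, map_zero]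

lemma dirD_single {A : Type*} [CommRing A] [DecidableEq ξ] (z : ξ) (F : MvPolynomial ξ A) :
    Pool.FD.dirD (Pi.single z 1) F = pderiv z F := by
  have h : Pool.FD.dirD (Pi.single z (1 : A)) = pderiv z := by
    apply MvPolynomial.derivation_ext
    intro x
    rw [Pool.FD.dirD_X, pderiv_X]
    rcases eq_or_ne x z with rfl | h
    · rw [Pi.single_eq_same, Pi.single_eq_same, C_1]
    · rw [Pi.single_eq_of_ne h, Pi.single_eq_of_ne h, C_0]
  rw [h]

lemma Sh_itd [DecidableEq ξ] {D : ℕ} (κ : Fin D → ξ) (F : MvPolynomial ξ K) :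
    Sh al φ0 (Pool.FD.itd ((List.finRange D).map fun b => Pi.single (κ b) 1) F) =
      mder κ (Sh al φ0 F) := by
  unfold mder
  induction List.finRange D with
  | nil => rfl
  | cons b L ih =>
    rw [List.foldr_cons, ← ih, List.map_cons]
    change Sh al φ0 (Pool.FD.dirD (Pi.single (κ b) 1) _) = _
    rw [dirD_single, Sh_pderiv]
    rfl

lemma theta_shR [DecidableEq ξ] (F : MvPolynomial ξ K) :
    theta al (Pool.FD.shR φ0 F) = Sh al φ0 F := by
  have h : (theta al).comp (Pool.FD.shR φ0) = Sh al φ0 := by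
    apply MvPolynomial.ringHom_ext
    · intro r
      rw [RingHom.comp_apply, Sh_C, Pool.FD.shR, eval₂Hom_C, RingHom.comp_apply, theta_C, map_C]
      rfl
    · intro x
      rw [RingHom.comp_apply, Sh_X, Pool.FD.shR, eval₂Hom_X', map_add, theta_C, map_X, theta_map]
  exact RingHom.congr_fun h F

end Sh

/-- **independence at the generic point** -/
theorem indepG {K ξ Y k J ι : Type*} [Field K] [Field k] [CharZero k] [Fintype ξ] [DecidableEq ξ]
    [Fintype J] [Fintype ι] {D : ℕ}
    (al : MvPolynomial Y K →+* k) (hal : Function.Injective al)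
    (φ0 : ξ → MvPolynomial Y K) (κ : ι → Fin D → ξ) (wt : ξ → ℕ) (hwt : ∀ i b, wt (κ i b) = 1)
    (g g' : Fin D → ξ → MvPolynomial Y K) (r : Fin D → MvPolynomial Y K) (hr : ∀ b, r b ≠ 0)
    (hg : ∀ b p, g b p = r b * g' b p) (v : Fin D → ξ → K)
    (hgκ : ∀ i b b', b ≠ b' → g b (κ i b') = 0)
    (Zs : Fin D → Finset Y) (hdisj : ∀ b b', b ≠ b' → Disjoint (Zs b) (Zs b'))
    (hv : ∀ b, ∑ p, g' b p * C (v b p) = ∏ y ∈ Zs b, X y)
    (hv' : ∀ b b', b ≠ b' → ∑ p, g b' p * C (v b p) = 0)
    (hz : ∀ z : Fin D → Y, (∀ b, z b ∈ Zs b) → ∀ b, ∃ p, kill (Set.range z) (g' b p) ≠ 0)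
    (P : MvPolynomial ξ K) (H : Polynomial (MvPolynomial ξ k))
    (hP : Psi wt (Sh al φ0 P) = Polynomial.X ^ D * H)
    (hH : H.coeff 0 = ∏ b, lf (fun p => al (g b p)))
    (Q : MvPolynomial ξ K) (hQ : Q ≠ 0) (c : J → ι → MvPolynomial Y K)
    (hind : ∀ t : J → K, (∀ μ : Y →₀ ℕ, (∀ b, ∃ y ∈ Zs b, μ y = 0) →
      ∑ j, t j * coeff μ (∑ i, c j i * ∏ b, g b (κ i b)) = 0) → ∀ j, t j = 0)
    (a : J → MvPolynomial ξ K)
    (hrel : ∑ j, MvPolynomial.map (al.comp C) (a j) *
      ∑ i, C (al (c j i)) * mder (κ i) (Sh al φ0 (Q * P)) = 0) : ∀ j, a j = 0 := by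
  classical
  by_contra hcon
  push Not at hcon
  obtain ⟨j₀, hj₀⟩ := hcon
  obtain ⟨n, A, hA, j₁, hj₁⟩ := exists_order (fun j => Psi wt (a j)) ⟨j₀, Psi_ne_zero wt hj₀⟩
  obtain ⟨e, R, hR, j₂, hR0⟩ := exists_order (fun _ : Unit => Psi wt (Sh al φ0 Q))
    ⟨(), Psi_ne_zero wt (by
      intro h
      exact hQ (Sh_injective al φ0 (by rw [h, map_zero])))⟩
  have hB : Psi wt (Sh al φ0 (Q * P)) = Polynomial.X ^ (D + e) * (H * R ()) := by
    rw [map_mul, map_mul, hP, hR ()]
    ring
  have hA' : ∀ j, Psi wt (MvPolynomial.map (al.comp C) (a j)) =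
      Polynomial.X ^ n * (A j).map (MvPolynomial.map (al.comp C)) := by
    intro j
    rw [Psi_map, hA j, Polynomial.map_mul, Polynomial.map_pow, Polynomial.map_X]
  have h1 := lowest wt κ hwt (Sh al φ0 (Q * P)) e _ hB
    (fun j => MvPolynomial.map (al.comp C) (a j)) (fun j i => al (c j i)) n _ hA' hrel
  rw [Polynomial.mul_coeff_zero, hH] at h1
  simp only [Polynomial.coeff_map] at h1
  -- apply Lemma M
  have hlam0 : ∀ b, al (∏ y ∈ Zs b, X y) ≠ 0 := by
    intro b h0
    have h2 : (∏ y ∈ Zs b, X y : MvPolynomial Y K) = 0 := hal (by rw [h0, map_zero])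
    rw [Finset.prod_eq_zero_iff] at h2
    obtain ⟨y, _, hy⟩ := h2
    exact X_ne_zero y hy
  have hr0 : ∀ b, al (r b) ≠ 0 := by
    intro b h0
    exact hr b (hal (by rw [h0, map_zero]))
  have hsum : ∀ b, ∑ p, al (g b p) * al (C (v b p)) = al (r b) * al (∏ y ∈ Zs b, X y) := by
    intro b
    rw [← hv b, ← map_mul, Finset.mul_sum, map_sum]
    refine Finset.sum_congr rfl fun p _ => ?_
    rw [← map_mul, hg]
    congr 1
    ring
  have h2 := lemM (fun b p => al (g b p)) (fun b p => al (C (v b p)))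
    (fun b => by
      rw [hsum]
      exact mul_ne_zero (hr0 b) (hlam0 b))
    (fun b b' hb => by
      have := congrArg al (hv' b b' hb)
      rw [map_zero, map_sum] at this
      rw [← this]
      exact Finset.sum_congr rfl fun p _ => (map_mul _ _ _).symm)
    κ (fun i b b' hb => by
      rw [hgκ i b b' hb, map_zero])
    (fun i => ∑ j, MvPolynomial.map (al.comp C) ((A j).coeff 0) * C (al (c j i)))
    ((R ()).coeff 0) hR0 (by
      rw [← h1]
      simp_rw [Finset.sum_mul, Finset.mul_sum]
      rw [Finset.sum_comm]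
      refine Finset.sum_congr rfl fun j _ => Finset.sum_congr rfl fun i _ => ?_
      ring)
  -- apply Lemma E
  set Xi : MvPolynomial ξ k →ₐ[k] MvPolynomial ξ k := aeval (fun p => (X p : MvPolynomial ξ k) -
    ∑ b, C ((∑ q, al (g b q) * al (C (v b q)))⁻¹ * al (C (v b p))) *
      lf (fun p => al (g b p))) with hXi
  have h3 := elim_gen (P := ξ) (fun _ : Fin D => id) (fun _ => Function.injective_id) Zs hdisj
    g' v hz (fun j => (A j).coeff 0) (fun j => ∑ i, c j i * ∏ b, g b (κ i b)) al hal
    (Xi : MvPolynomial ξ k →+* MvPolynomial ξ k)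
    (fun c => by
      rw [RingHom.coe_coe, algHom_C]
      rfl)
    (fun z => by
      rw [RingHom.coe_coe, hXi, aeval_X]
      congr 1
      refine Finset.sum_congr rfl fun b _ => ?_
      simp only [id]
      rw [Finset.sum_ite_eq, if_pos (Finset.mem_univ _), hsum]
      have h4 : lf (fun p => al (g b p)) = C (al (r b)) * ∑ p, C (al (g' b p)) * X p := by
        unfold lf
        rw [Finset.mul_sum]
        refine Finset.sum_congr rfl fun p _ => ?_
        change C (al (g b p)) * X p = _
        rw [hg, map_mul, map_mul]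
        ring
      rw [h4, ← mul_assoc, ← map_mul]
      congr 2
      have h5 := hr0 b
      have h6 := hlam0 b
      field_simp)
    (by
      rw [← h2]
      have h4 : ∀ i, Xi (∑ j, MvPolynomial.map (al.comp C) ((A j).coeff 0) * C (al (c j i))) *
          C (∏ b, al (g b (κ i b))) =
          ∑ j, Xi (MvPolynomial.map (al.comp C) ((A j).coeff 0)) *
            C (al (c j i * ∏ b, g b (κ i b))) := by
        intro i
        rw [map_sum, Finset.sum_mul]
        refine Finset.sum_congr rfl fun j _ => ?_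
        rw [map_mul Xi, algHom_C, map_mul al, map_prod al, C_mul]
        change _ * C (al (c j i)) * _ = _
        ring
      rw [Finset.sum_congr rfl fun i _ => h4 i, Finset.sum_comm]
      refine Finset.sum_congr rfl fun j _ => ?_
      rw [map_sum, map_sum, Finset.mul_sum]
      rfl)
    hind
  exact hj₁ (h3 j₁)

/-- elements of the spaces `Wl` -/
lemma mem_Wl_repr {K Y ι : Type*} [Field K] [Fintype ι] (G : ι → MvPolynomial Y K) (l : ℕ)
    (f : MvPolynomial Y K) (hf : f ∈ Pool.SDD.Wl G l) :
    ∃ c : ι → MvPolynomial Y K, (∀ i, (c i).totalDegree ≤ l) ∧ f = ∑ i, c i * G i := by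
  classical
  unfold Pool.SDD.Wl at hf
  induction hf using Submodule.span_induction with
  | mem x hx =>
    obtain ⟨μ, i, hμ, rfl⟩ := hx
    refine ⟨fun i' => if i' = i then monomial μ 1 else 0, ?_, ?_⟩
    · intro i'
      dsimp only
      split_ifs
      · exact (totalDegree_monomial_le _ _).trans hμ
      · rw [totalDegree_zero]; exact Nat.zero_le _
    · simp only [ite_mul, zero_mul]
      rw [Finset.sum_ite_eq' Finset.univ i, if_pos (Finset.mem_univ _)]
  | zero => exact ⟨fun _ => 0, fun _ => by rw [totalDegree_zero]; exact Nat.zero_le _, by simp⟩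
  | add x y _ _ hx hy =>
    obtain ⟨c, hc, rfl⟩ := hx
    obtain ⟨c', hc', rfl⟩ := hy
    refine ⟨fun i => c i + c' i, fun i => (totalDegree_add _ _).trans (max_le (hc i) (hc' i)), ?_⟩
    rw [← Finset.sum_add_distrib]
    exact Finset.sum_congr rfl fun i _ => (add_mul _ _ _).symm
  | smul t x _ hx =>
    obtain ⟨c, hc, rfl⟩ := hx
    refine ⟨fun i => t • c i, fun i => (totalDegree_smul_le _ _).trans (hc i), ?_⟩
    rw [Finset.smul_sum]
    exact Finset.sum_congr rfl fun i _ => (smul_mul_assoc _ _ _).symm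

/-- **the rank at the generic point** -/
theorem low_generic {K ξ Y ι : Type} [Field K] [CharZero K] [Fintype ξ] [DecidableEq ξ]
    [Finite Y] [Fintype ι] {D : ℕ}
    (φ0 : ξ → MvPolynomial Y K) (κ : ι → Fin D → ξ) (wt : ξ → ℕ) (hwt : ∀ i b, wt (κ i b) = 1)
    (g g' : Fin D → ξ → MvPolynomial Y K) (r : Fin D → MvPolynomial Y K) (hr : ∀ b, r b ≠ 0)
    (hg : ∀ b p, g b p = r b * g' b p) (v : Fin D → ξ → K)
    (hgκ : ∀ i b b', b ≠ b' → g b (κ i b') = 0)
    (Zs : Fin D → Finset Y) (hdisj : ∀ b b', b ≠ b' → Disjoint (Zs b) (Zs b'))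
    (hv : ∀ b, ∑ p, g' b p * C (v b p) = ∏ y ∈ Zs b, X y)
    (hv' : ∀ b b', b ≠ b' → ∑ p, g b' p * C (v b p) = 0)
    (hz : ∀ z : Fin D → Y, (∀ b, z b ∈ Zs b) → ∀ b, ∃ p, kill (Set.range z) (g' b p) ≠ 0)
    (P : MvPolynomial ξ K)
    (H : Polynomial (MvPolynomial ξ (FractionRing (MvPolynomial Y K))))
    (hP : Psi wt (Sh (algebraMap (MvPolynomial Y K) (FractionRing (MvPolynomial Y K))) φ0 P) =
      Polynomial.X ^ D * H)
    (hH : H.coeff 0 = ∏ b, lf (fun p =>
      algebraMap (MvPolynomial Y K) (FractionRing (MvPolynomial Y K)) (g b p)))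
    (Q : MvPolynomial ξ K) (hQ : Q ≠ 0) (l : ℕ) :
    Module.finrank K ((Pool.SDD.Wl (fun i => ∏ b, g b (κ i b)) l).map (Del K Zs)) ≤
      Module.finrank (FractionRing (MvPolynomial ξ K))
        (Submodule.span (FractionRing (MvPolynomial ξ K))
          (Set.range fun i : {μ : Y →₀ ℕ // μ.degree ≤ l} × ι =>
            (monomial i.1.1 1 : MvPolynomial Y (FractionRing (MvPolynomial ξ K))) *
              Pool.FD.shift φ0 (Pool.FD.itd ((List.finRange D).map fun b =>
                (Pi.single (κ i.2 b) 1 : ξ → K)) (Q * P)))) := by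
  classical
  set k := FractionRing (MvPolynomial Y K) with hk
  set al : MvPolynomial Y K →+* k := algebraMap (MvPolynomial Y K) k with hal
  set L := FractionRing (MvPolynomial ξ K) with hL
  have halinj : Function.Injective al := IsFractionRing.injective (MvPolynomial Y K) k
  have hkchar : CharZero k := charZero_of_injective_algebraMap
    (R := MvPolynomial Y K) (A := k) halinj
  set G : ι → MvPolynomial Y K := fun i => ∏ b, g b (κ i b) with hG
  set V := (Pool.SDD.Wl G l).map (Del K Zs) with hV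
  have hfin : Finite {μ : Y →₀ ℕ // μ.degree ≤ l} := Pool.SDD.finite_degree_le Y l
  have hVfin : Module.Finite K (Pool.SDD.Wl G l) := inferInstance
  have hVfin2 : Module.Finite K V := inferInstance
  let B := Module.finBasis K V
  have hB : ∀ j, ∃ h ∈ Pool.SDD.Wl G l, Del K Zs h = (B j : MvPolynomial Y K) := by
    intro j
    obtain ⟨h, h1, h2⟩ := (B j).2
    exact ⟨h, h1, h2⟩
  choose h hh1 hh2 using hB
  choose c hc1 hc2 using fun j => mem_Wl_repr G l (h j) (hh1 j)
  have hliB : LinearIndependent K fun j => (B j : MvPolynomial Y K) := by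
    have := B.linearIndependent
    exact this.map' V.subtype (Submodule.ker_subtype V)
  have hind : ∀ t : Fin (Module.finrank K V) → K,
      (∀ μ : Y →₀ ℕ, (∀ b, ∃ y ∈ Zs b, μ y = 0) →
        ∑ j, t j * coeff μ (∑ i, c j i * ∏ b, g b (κ i b)) = 0) → ∀ j, t j = 0 := by
    intro t ht
    have h1 := Fintype.linearIndependent_iff.1 hliB t
    apply h1
    ext μ
    rw [coeff_sum, coeff_zero]
    have h2 : ∀ j, coeff μ (t j • (B j : MvPolynomial Y K)) =
        if ∃ b, Zs b ⊆ μ.support then 0 else t j * coeff μ (∑ i, c j i * ∏ b, g b (κ i b)) := by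
      intro j
      rw [coeff_smul, ← hh2 j, coeff_Del]
      split_ifs with h3
      · rw [smul_zero]
      · rw [smul_eq_mul]
        congr 2
        exact hc2 j
    rw [Finset.sum_congr rfl fun j _ => h2 j]
    by_cases h3 : ∃ b, Zs b ⊆ μ.support
    · simp only [if_pos h3]
      exact Finset.sum_const_zero
    · simp only [if_neg h3]
      apply ht μ
      intro b
      push Not at h3
      obtain ⟨y, hy1, hy2⟩ := Finset.not_subset.1 (h3 b)
      exact ⟨y, hy1, Finsupp.notMem_support_iff.1 hy2⟩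
  -- the generic family
  let U : ι → List (ξ → K) := fun i => (List.finRange D).map fun b => Pi.single (κ i b) 1
  let vv : Fin (Module.finrank K V) → MvPolynomial Y (MvPolynomial ξ K) := fun j =>
    ∑ i, MvPolynomial.map C (c j i) * Pool.FD.shR φ0 (Pool.FD.itd (U i) (Q * P))
  have hli : LinearIndependent L fun j =>
      MvPolynomial.map (algebraMap (MvPolynomial ξ K) L) (vv j) := by
    rw [← LinearIndependent.iff_fractionRing (MvPolynomial ξ K) L,
      Fintype.linearIndependent_iff]
    intro a ha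
    have h1 : ∑ j, C (a j) * vv j = 0 := by
      apply map_injective (algebraMap (MvPolynomial ξ K) L)
        (IsFractionRing.injective (MvPolynomial ξ K) L)
      rw [map_zero, map_sum, ← ha]
      refine Finset.sum_congr rfl fun j _ => ?_
      rw [map_mul, map_C, Algebra.smul_def]
      rfl
    have h2 := congrArg (theta al) h1
    rw [map_zero, map_sum] at h2
    refine indepG al halinj φ0 κ wt hwt g g' r hr hg v hgκ Zs hdisj hv hv' hz P H hP hH Q hQ c
      hind a ?_
    rw [← h2]
    refine Finset.sum_congr rfl fun j _ => ?_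
    rw [map_mul (theta al), theta_C]
    change _ = _ * theta al (∑ i, MvPolynomial.map C (c j i) *
      Pool.FD.shR φ0 (Pool.FD.itd (U i) (Q * P)))
    rw [map_sum]
    congr 1
    refine Finset.sum_congr rfl fun i _ => ?_
    rw [map_mul (theta al), theta_map, theta_shR, Sh_itd]
  have hmem : ∀ j, MvPolynomial.map (algebraMap (MvPolynomial ξ K) L) (vv j) ∈
      Submodule.span L (Set.range fun i : {μ : Y →₀ ℕ // μ.degree ≤ l} × ι =>
        (monomial i.1.1 1 : MvPolynomial Y L) *
          Pool.FD.shift φ0 (Pool.FD.itd (U i.2) (Q * P))) := by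
    intro j
    change MvPolynomial.map (algebraMap (MvPolynomial ξ K) L) (∑ i, _) ∈ _
    rw [map_sum]
    refine Submodule.sum_mem _ fun i _ => ?_
    rw [map_mul, map_alg_shR]
    have h1 : MvPolynomial.map (algebraMap (MvPolynomial ξ K) L) (MvPolynomial.map C (c j i)) *
        Pool.FD.shift φ0 (Pool.FD.itd (U i) (Q * P)) =
        ∑ s ∈ (c j i).support, algebraMap (MvPolynomial ξ K) L (C (coeff s (c j i))) •
          ((monomial s 1 : MvPolynomial Y L) *
            Pool.FD.shift φ0 (Pool.FD.itd (U i) (Q * P))) := by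
      conv_lhs => rw [(c j i).as_sum, map_sum, map_sum, Finset.sum_mul]
      refine Finset.sum_congr rfl fun s _ => ?_
      rw [map_monomial, map_monomial, ← smul_mul_assoc, smul_monomial, smul_eq_mul, mul_one]
    rw [h1]
    refine Submodule.sum_mem _ fun s hs => Submodule.smul_mem _ _ (Submodule.subset_span ?_)
    exact ⟨(⟨s, (le_totalDegree hs).trans (hc1 j i)⟩, i), rfl⟩
  have hspan : Module.Finite L (Submodule.span L
      (Set.range fun i : {μ : Y →₀ ℕ // μ.degree ≤ l} × ι =>
        (monomial i.1.1 1 : MvPolynomial Y L) *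
          Pool.FD.shift φ0 (Pool.FD.itd (U i.2) (Q * P)))) :=
    FiniteDimensional.span_of_finite L (Set.finite_range _)
  have h1 : LinearIndependent L fun j => (⟨_, hmem j⟩ : Submodule.span L
      (Set.range fun i : {μ : Y →₀ ℕ // μ.degree ≤ l} × ι =>
        (monomial i.1.1 1 : MvPolynomial Y L) *
          Pool.FD.shift φ0 (Pool.FD.itd (U i.2) (Q * P)))) :=
    LinearIndependent.of_comp (Submodule.subtype _) hli
  have h2 := h1.fintype_card_le_finrank
  rw [Fintype.card_fin] at h2
  exact h2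

end Pool.ZTS
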