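import Pool.Agent.Helper86.SDET.N3

/-!
Zero tests by sums of Pfaffians (MP_381749_lc): the numbers.
-/

namespace Pool.ZTS

open Real Helper86.SDET

theorem num_aux {n m d ν T : ℕ} (hn : 1 ≤ n) (hd : 1 ≤ d) (hν : ν < n) (hT : 1 ≤ T)
    (hnm : n ≤ m * d + ν)
    (H : ∀ D N a : ℕ, 1 ≤ D → 1 ≤ a → a < N → D * (2 * (N + a) + 1) ≤ n → D < m →
      ∀ q : ℝ, 0 < q → q < 1 → q ^ (2 * (N - a)) ≤ (1 - (1 - q ^ N) ^ (a + 1)) ^ 2 →
      q ^ (ν + D * (d - 1)) * ((1 - (1 - q ^ N) ^ (a + 1)) ^ 2 - q ^ (2 * (N - a))) ^ D ≤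
        q ^ (2 * (N - a) * D) * (T * ∑ j ∈ Finset.range (2 * D + 1),
          (Nat.choose (2 * m - 2 * D - 1 + j) j : ℝ) * (1 - q ^ d) ^ j))
    {η μ t : ℝ} (hη : η = 1 - ν / n) (hμ : μ = max 1 ((m : ℝ) * d / n))
    (ht : t = (exp 8 * μ * (1 + log (μ / η)) / η) ^ (1 / η)) :
    exp (n / (exp 8 * (t + d) * log t)) ≤ 2 * T := by
  have hn' : (1 : ℝ) ≤ n := by exact_mod_cast hn
  have hn0 : (0 : ℝ) < n := by linarith
  have hd' : (1 : ℝ) ≤ d := by exact_mod_cast hd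
  have hT' : (1 : ℝ) ≤ T := by exact_mod_cast hT
  have hν' : (ν : ℝ) < n := by exact_mod_cast hν
  have hη0 : 0 < η := by
    rw [hη, sub_pos, div_lt_one hn0]; exact hν'
  have hη1 : η ≤ 1 := by
    rw [hη]; have : 0 ≤ (ν : ℝ) / n := by positivity
    linarith
  have hνη : (ν : ℝ) = (1 - η) * n := by
    rw [hη]; field_simp; ring
  have hμ1 : 1 ≤ μ := by rw [hμ]; exact le_max_left _ _
  have hμm : (m : ℝ) * d ≤ μ * n := by
    have : (m : ℝ) * d / n ≤ μ := by rw [hμ]; exact le_max_right _ _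
    rwa [div_le_iff₀ hn0] at this
  obtain ⟨ht0, hlt8, hηlt, -⟩ := key hμ1 hη0 hη1 rfl ht (le_refl (log t))
  have h8 : (1000 : ℝ) ≤ exp 8 := by
    have h12 : (2.7 : ℝ) ≤ exp 1 := by
      have := exp_one_gt_d9
      linarith
    calc (1000 : ℝ) ≤ 2.7 ^ 8 := by norm_num
      _ ≤ exp 1 ^ 8 := pow_le_pow_left₀ (by norm_num) h12 8
      _ = exp 8 := by rw [← exp_nat_mul]; norm_num
  have ht8 : 1000 ≤ t := by
    refine h8.trans ?_
    rw [← exp_log ht0]; exact exp_le_exp.2 hlt8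
  obtain ⟨τ, hτ⟩ : ∃ τ, τ = ⌈t⌉₊ := ⟨_, rfl⟩
  have hτt : t ≤ τ := by rw [hτ]; exact Nat.le_ceil t
  have hτt2 : (τ : ℝ) < t + 1 := by rw [hτ]; exact Nat.ceil_lt_add_one ht0.le
  have hτ0 : (0 : ℝ) < τ := by linarith
  have hτ1 : 1000 ≤ τ := by
    have : (1000 : ℝ) ≤ τ := by linarith
    exact_mod_cast this
  obtain ⟨ℓ, hℓ⟩ : ∃ ℓ, ℓ = log (τ : ℝ) := ⟨_, rfl⟩
  have hℓt : log t ≤ ℓ := by rw [hℓ]; exact log_le_log ht0 hτt
  have hℓ2 : ℓ ≤ 2 * log t := by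
    have h1 : ℓ ≤ log (2 * t) := by rw [hℓ]; exact log_le_log hτ0 (by linarith)
    rw [log_mul (by norm_num) ht0.ne'] at h1
    have := log_two_le
    linarith
  obtain ⟨-, -, -, hkey⟩ := key hμ1 hη0 hη1 rfl ht hℓt
  have hℓ0 : 0 < ℓ := by linarith
  have hℓ1 : 1 ≤ ℓ := by linarith
  obtain ⟨a, ha⟩ : ∃ a, τ = a + 1 := ⟨τ - 1, by omega⟩
  have ha1 : 1 ≤ a := by omega
  have haτ : (a : ℝ) + 1 = τ := by rw [ha]; push_cast; ring
  obtain ⟨N0, hN0⟩ : ∃ N0, N0 = ⌈4 * ((τ : ℝ) + d) * ℓ⌉₊ := ⟨_, rfl⟩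
  have hN0a : 4 * ((τ : ℝ) + d) * ℓ ≤ N0 := by rw [hN0]; exact Nat.le_ceil _
  have hN0b : (N0 : ℝ) < 4 * (τ + d) * ℓ + 1 := by
    rw [hN0]; exact Nat.ceil_lt_add_one (by positivity)
  have hw := w_le (by linarith) hd' hlt8 hτt2 hℓ0 hℓ2 hτ0 haτ hN0b
  have hWpos : 0 < (t + d) * log t := by
    apply mul_pos <;> linarith
  have hden : 0 < exp 8 * (t + d) * log t := by
    rw [mul_assoc]; positivity
  by_cases hcase : 2 * (N0 + a) + 1 ≤ n
  · obtain ⟨D, N, hD1, hN, hDN, hnD, hnw⟩ := choose_N hcase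
    have hD1' : (1 : ℝ) ≤ D := by exact_mod_cast hD1
    have hD0 : (0 : ℝ) < D := by linarith
    have hN' : (N0 : ℝ) ≤ N := by exact_mod_cast hN
    have hNbig : 4 * ((τ : ℝ) + d) * ℓ ≤ N := hN0a.trans hN'
    have hτN : (4 : ℝ) * (τ + d) ≤ N := by
      refine le_trans ?_ hNbig
      have : 0 < 4 * ((τ : ℝ) + d) := by linarith
      calc 4 * ((τ : ℝ) + d) = 4 * ((τ : ℝ) + d) * 1 := by ring
        _ ≤ _ := by gcongr
    have hN0' : (0 : ℝ) < N := by linarith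
    have haN : a < N := by
      have : (a : ℝ) < N := by linarith
      exact_mod_cast this
    have hDN' : (D : ℝ) * (2 * (N + a) + 1) ≤ n := by exact_mod_cast hDN
    have hnD' : (n : ℝ) < D * (2 * (N + a) + 3) := by exact_mod_cast hnD
    have hnm' : (n : ℝ) ≤ m * d + ν := by exact_mod_cast hnm
    obtain ⟨x, hx⟩ : ∃ x, x = ℓ / N := ⟨_, rfl⟩
    have hx0 : 0 < x := by rw [hx]; positivity
    have hNx : N * x = ℓ := by rw [hx]; field_simp
    have hτdx : 4 * ((τ : ℝ) + d) * x ≤ 1 := by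
      rw [hx, ← mul_div_assoc, div_le_one hN0']; exact hNbig
    have hηℓ : 8 ≤ η * ℓ := by
      refine hηlt.trans ?_
      gcongr
    have hDm : D < m := D_lt hη0 hνη hnm' hd' hD1' hτ0 hℓ0 hηℓ hDN' hNbig
    obtain ⟨q, hq⟩ : ∃ q, q = exp (-x) := ⟨_, rfl⟩
    have hq0 : 0 < q := by rw [hq]; exact exp_pos _
    have hq1 : q < 1 := by rw [hq, ← exp_zero]; exact exp_lt_exp.2 (by linarith)
    have hqpow : ∀ k : ℕ, q ^ k = exp (-(k * x)) := by
      intro k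
      rw [hq, ← exp_nat_mul]
      congr 1
      ring
    have hqN : q ^ N = 1 / τ := by
      rw [hqpow, hNx, exp_neg, hℓ, exp_log hτ0, one_div]
    have hhalf : (1 / 2 : ℝ) ≤ 1 - (1 - q ^ N) ^ (a + 1) := by
      have h1 : (1 - 1 / (τ : ℝ)) ^ τ ≤ exp (-1) := one_sub_div_pow_le_exp_neg (by linarith)
      have h2 := exp_neg_one_le
      rw [hqN, ← ha]
      linarith
    have hquarter : (1 / 4 : ℝ) ≤ (1 - (1 - q ^ N) ^ (a + 1)) ^ 2 := by
      calc (1 / 4 : ℝ) = (1 / 2) ^ 2 := by norm_num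
        _ ≤ _ := pow_le_pow_left₀ (by norm_num) hhalf 2
    have hqsmall : q ^ (2 * (N - a)) ≤ 1 / 8 := by
      have h1 : (3 : ℝ) ≤ (2 * (N - a) : ℕ) * x := by
        push_cast [Nat.cast_sub haN.le]
        have h2 : 2 * ((N : ℝ) - a) * x = 2 * ℓ - 2 * (a * x) := by
          rw [← hNx]; ring
        have h3 : (a : ℝ) * x ≤ 1 := by
          refine le_trans ?_ hτdx
          have : (a : ℝ) ≤ 4 * (τ + d) := by linarith
          gcongr
        rw [h2]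
        linarith
      rw [hqpow]
      have h2 : exp (-(((2 * (N - a) : ℕ) : ℝ) * x)) ≤ exp (-3) := exp_le_exp.2 (by linarith)
      refine h2.trans ?_
      have h3 : exp (-3 : ℝ) = exp (-1) ^ 3 := by
        rw [← exp_nat_mul]; norm_num
      rw [h3]
      calc exp (-1) ^ 3 ≤ (1 / 2 : ℝ) ^ 3 :=
            pow_le_pow_left₀ (exp_pos _).le exp_neg_one_le 3
        _ = 1 / 8 := by norm_num
    have hH := H D N a hD1 ha1 haN hDN hDm q hq0 hq1 (by linarith)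
    have hqd : 1 - q ^ d ≤ d * x := by
      rw [hqpow]
      have := add_one_le_exp (-(d * x))
      linarith
    have hsum := sum_le hD1 hDm hμ1 hμm hℓ1 hx0 hNx hnD' (by linarith) hq0 hq1 hqd
    have hmain : exp (-((ν + D * (d - 1)) * x)) * (1 / 2) ^ (2 * D) ≤
        exp (-((N - a) * (2 * D) * x)) *
          (((2 : ℝ) ^ D * T) * (3 * exp 1 * μ * ℓ) ^ (2 * D)) := by
      have h1 : q ^ (ν + D * (d - 1)) = exp (-((ν + D * (d - 1)) * x)) := by
        rw [hqpow]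
        push_cast [Nat.cast_sub hd]
        rfl
      have h2 : q ^ (2 * (N - a) * D) = exp (-((N - a) * (2 * D) * x)) := by
        rw [hqpow]
        push_cast [Nat.cast_sub haN.le]
        congr 1
        ring
      rw [← h1, ← h2]
      have h3 : (1 / 2 : ℝ) ^ (2 * D) = 2 ^ D * (1 / 8) ^ D := by
        rw [pow_mul, ← mul_pow]
        norm_num
      have h4 : (1 / 8 : ℝ) ^ D ≤
          ((1 - (1 - q ^ N) ^ (a + 1)) ^ 2 - q ^ (2 * (N - a))) ^ D :=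
        pow_le_pow_left₀ (by norm_num) (by linarith) D
      have hS : 0 ≤ (3 * exp 1 * μ * ℓ) ^ (2 * D) := by positivity
      calc q ^ (ν + D * (d - 1)) * (1 / 2) ^ (2 * D)
          = 2 ^ D * (q ^ (ν + D * (d - 1)) * (1 / 8) ^ D) := by rw [h3]; ring
        _ ≤ 2 ^ D * (q ^ (ν + D * (d - 1)) *
            ((1 - (1 - q ^ N) ^ (a + 1)) ^ 2 - q ^ (2 * (N - a))) ^ D) := by gcongr
        _ ≤ 2 ^ D * (q ^ (2 * (N - a) * D) * (T * ∑ j ∈ Finset.range (2 * D + 1),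
            (Nat.choose (2 * m - 2 * D - 1 + j) j : ℝ) * (1 - q ^ d) ^ j)) := by gcongr
        _ ≤ 2 ^ D * (q ^ (2 * (N - a) * D) * (T * (3 * exp 1 * μ * ℓ) ^ (2 * D))) := by gcongr
        _ = _ := by ring
    have hTD : exp D ≤ (2 : ℝ) ^ D * T :=
      exp_le_T hd' hD1' hx0 hNx hη1 hνη hnD' haτ hτdx hμ1 hℓ1 hkey hmain
    have hTD2 : exp ((1 - log 2) * D) ≤ T := by
      have h1 : (2 : ℝ) ^ D = exp (D * log 2) := by
        rw [exp_nat_mul, exp_log (by norm_num)]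
      rw [h1] at hTD
      have h2 : exp ((1 - log 2) * D) = exp (-(D * log 2)) * exp D := by
        rw [← exp_add]; congr 1; ring
      rw [h2]
      calc exp (-(D * log 2)) * exp D ≤ exp (-(D * log 2)) * (exp (D * log 2) * T) := by gcongr
        _ = T := by rw [← mul_assoc, ← exp_add, neg_add_cancel, exp_zero, one_mul]
    have hlog2 : (0.3 : ℝ) ≤ 1 - log 2 := by
      have := log_two_lt_d9
      linarith
    have hfin : (n : ℝ) / (exp 8 * (t + d) * log t) ≤ (1 - log 2) * D := by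
      refine le_trans ?_ (mul_le_mul_of_nonneg_right hlog2 hD0.le)
      rw [div_le_iff₀ hden]
      have h2 : (n : ℝ) ≤ 2 * D * (2 * (N0 + a) + 1) := by exact_mod_cast hnw
      calc (n : ℝ) ≤ 2 * D * (2 * (N0 + a) + 1) := h2
        _ ≤ 2 * D * (34 * ((t + d) * log t)) := by gcongr
        _ = 0.3 * D * ((68 / 0.3) * ((t + d) * log t)) := by ring
        _ ≤ 0.3 * D * (exp 8 * ((t + d) * log t)) := by gcongr; norm_num; linarith
        _ = 0.3 * D * (exp 8 * (t + d) * log t) := by ring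
    calc exp (n / (exp 8 * (t + d) * log t)) ≤ exp ((1 - log 2) * D) := exp_le_exp.2 hfin
      _ ≤ T := hTD2
      _ ≤ 2 * T := by linarith
  · have h1 : (n : ℝ) ≤ 34 * ((t + d) * log t) := by
      have h11 : n ≤ 2 * (N0 + a) + 1 := by omega
      have h12 : (n : ℝ) ≤ 2 * (N0 + a) + 1 := by exact_mod_cast h11
      linarith
    have h2 : (n : ℝ) / (exp 8 * (t + d) * log t) ≤ log 2 := by
      rw [div_le_iff₀ hden]
      have h5 : (1 / 2 : ℝ) ≤ log 2 := by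
        have := log_two_gt_d9
        linarith
      calc (n : ℝ) ≤ 34 * ((t + d) * log t) := h1
        _ ≤ (1 / 2 * exp 8) * ((t + d) * log t) := by gcongr; linarith
        _ ≤ (log 2 * exp 8) * ((t + d) * log t) := by gcongr
        _ = log 2 * (exp 8 * (t + d) * log t) := by ring
    calc exp (n / (exp 8 * (t + d) * log t)) ≤ exp (log 2) := exp_le_exp.2 h2
      _ = 2 := exp_log (by norm_num)
      _ ≤ 2 * T := by linarith

/-- **ROW N**, the numbers -/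
theorem numbers : ∃ C : ℝ, 1 ≤ C ∧ ∀ n m d ν T : ℕ, 1 ≤ d → ν < n → 1 ≤ T → n ≤ m * d + ν →
    (∀ D N a : ℕ, 1 ≤ D → 1 ≤ a → a < N → D * (2 * (N + a) + 1) ≤ n → D < m →
      ∀ q : ℝ, 0 < q → q < 1 → q ^ (2 * (N - a)) ≤ (1 - (1 - q ^ N) ^ (a + 1)) ^ 2 →
      q ^ (ν + D * (d - 1)) * ((1 - (1 - q ^ N) ^ (a + 1)) ^ 2 - q ^ (2 * (N - a))) ^ D ≤
        q ^ (2 * (N - a) * D) * (T * ∑ j ∈ Finset.range (2 * D + 1),
          (Nat.choose (2 * m - 2 * D - 1 + j) j : ℝ) * (1 - q ^ d) ^ j)) →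
    ∀ η μ t : ℝ, η = 1 - (ν : ℝ) / n → μ = max 1 ((m : ℝ) * d / n) →
      t = (C * μ * (1 + Real.log (μ / η)) / η) ^ (1 / η) →
      Real.exp (n / (C * (t + d) * Real.log t)) ≤ 2 * T := by
  refine ⟨exp 8, one_le_exp (by norm_num), ?_⟩
  intro n m d ν T hd hν hT hnm H η μ t hη hμ ht
  exact num_aux (by omega) hd hν hT hnm H hη hμ ht

end Pool.ZTS
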