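import Pool.Agent.ZTS.MultAsm
import Pool.Agent.ZTS.Num

/-!
Zero tests by sums of Pfaffians (MP_381749_lc): the numerical statement.
-/

namespace Pool.ZTS

theorem n4 : Pool.ZTS.IP.N4 := by
  obtain ⟨C, hC, H⟩ := numbers
  exact ⟨C, hC, fun n m d nu T _ hd hnu hT hnm h => H n m d nu T hd hnu hT hnm h⟩

end Pool.ZTS
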