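import Pool.Agent.ZTS.Defs
import Pool.Agent.ZTS.LemM
import Pool.Agent.ZTS.Elim
import Pool.Agent.ZTS.Spec

/-!
Zero tests by sums (ZTS), row G: weights, lowest components.
-/

set_option autoImplicit false

open MvPolynomial Finset
open scoped BigOperators

namespace Pool.ZTS

section psi

variable {R Z : Type*} [CommRing R] (w : Z → ℕ)

lemma Psi_C (c : R) : Psi w (C c : MvPolynomial Z R) = Polynomial.C (C c) := by
  unfold Psi
  rw [aeval_C]
  rfl

lemma Psi_X (z : Z) : Psi w (X z : MvPolynomial Z R) = Polynomial.C (X z) * Polynomial.X ^ w z := by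
  unfold Psi
  rw [aeval_X]

lemma Psi_monomial (s : Z →₀ ℕ) (c : R) :
    Psi w (monomial s c) = Polynomial.C (monomial s c) *
      Polynomial.X ^ (s.sum fun z n => n * w z) := by
  classical
  unfold Psi
  rw [aeval_monomial]
  have h1 : (s.prod fun i k => (Polynomial.C (X i : MvPolynomial Z R) *
      Polynomial.X ^ w i) ^ k) =
      Polynomial.C (s.prod fun i k => (X i : MvPolynomial Z R) ^ k) *
        Polynomial.X ^ (s.sum fun z n => n * w z) := by
    unfold Finsupp.prod Finsupp.sum
    rw [map_prod, ← Finset.prod_pow_eq_pow_sum, ← Finset.prod_mul_distrib]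
    refine Finset.prod_congr rfl fun i _ => ?_
    dsimp only
    rw [mul_pow, map_pow, ← pow_mul, mul_comm (w i)]
  rw [h1, monomial_eq, map_mul, mul_assoc]
  rfl

/-- evaluation at one -/
lemma eval_Psi (f : MvPolynomial Z R) : Polynomial.eval 1 (Psi w f) = f := by
  have h : (Polynomial.evalRingHom (1 : MvPolynomial Z R)).comp (Psi w).toRingHom =
      RingHom.id _ := by
    apply MvPolynomial.ringHom_ext
    · intro r
      change Polynomial.eval 1 (Psi w (C r)) = C r
      rw [Psi_C, Polynomial.eval_C]
    · intro z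
      change Polynomial.eval 1 (Psi w (X z)) = X z
      rw [Psi_X]
      simp
  exact RingHom.congr_fun h f

lemma Psi_ne_zero {f : MvPolynomial Z R} (hf : f ≠ 0) : Psi w f ≠ 0 := by
  intro h
  apply hf
  rw [← eval_Psi w f, h, Polynomial.eval_zero]

/-- derivatives and components -/
lemma coeff_Psi_pderiv (z : Z) (f : MvPolynomial Z R) (n : ℕ) :
    (Psi w (pderiv z f)).coeff n = pderiv z ((Psi w f).coeff (n + w z)) := by
  classical
  induction f using MvPolynomial.induction_on' with
  | monomial s c =>
    rw [pderiv_monomial, Psi_monomial, Psi_monomial, Polynomial.coeff_C_mul,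
      Polynomial.coeff_C_mul, Polynomial.coeff_X_pow, Polynomial.coeff_X_pow]
    rcases Nat.eq_zero_or_pos (s z) with h0 | h0
    · rw [h0, Nat.cast_zero, mul_zero, monomial_zero, zero_mul]
      have h1 : pderiv z (monomial s c * (if n + w z = s.sum fun z n => n * w z then 1 else 0)) =
          0 := by
        split_ifs
        · rw [mul_one, pderiv_monomial, h0, Nat.cast_zero, mul_zero, monomial_zero]
        · rw [mul_zero, map_zero]
      rw [h1]
    · have h2 : ((s - Finsupp.single z 1).sum fun z n => n * w z) + w z =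
          s.sum fun z n => n * w z := by
        have h3 : Finsupp.single z 1 ≤ s := by
          intro y
          rcases eq_or_ne y z with rfl | hy
          · rw [Finsupp.single_eq_same]; exact h0
          · simp [Ne.symm hy]
        have h4 : s - Finsupp.single z 1 + Finsupp.single z 1 = s := tsub_add_cancel_of_le h3
        conv_rhs => rw [← h4]
        rw [Finsupp.sum_add_index' (fun _ => zero_mul _) (fun _ _ _ => add_mul _ _ _),
          Finsupp.sum_single_index (zero_mul _), one_mul]
      rw [← h2]
      by_cases h5 : n = ((s - Finsupp.single z 1).sum fun z n => n * w z)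
      · rw [if_pos h5, if_pos (by omega), mul_one, mul_one, pderiv_monomial]
      · rw [if_neg h5, if_neg (by omega), mul_zero, mul_zero, map_zero]
  | add p q hp hq =>
    rw [map_add, map_add, map_add, Polynomial.coeff_add, Polynomial.coeff_add, map_add, hp, hq]

lemma Psi_map {S : Type*} [CommRing S] (f : R →+* S) (p : MvPolynomial Z R) :
    Psi w (map f p) = (Psi w p).map (map f) := by
  have h : (Psi w).toRingHom.comp (map f) =
      (Polynomial.mapRingHom (map f)).comp (Psi w).toRingHom := by
    apply MvPolynomial.ringHom_ext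
    · intro r
      change Psi w (map f (C r)) = (Psi w (C r)).map (map f)
      rw [map_C, Psi_C, Psi_C, Polynomial.map_C, map_C]
    · intro z
      change Psi w (map f (X z)) = (Psi w (X z)).map (map f)
      rw [map_X, Psi_X, Psi_X, Polynomial.map_mul, Polynomial.map_C, map_X, Polynomial.map_pow,
        Polynomial.map_X]
  exact RingHom.congr_fun h p

end psi

section mder

variable {k ξ : Type*} [Field k] (w : ξ → ℕ)

lemma coeff_Psi_mder {D : ℕ} (κ : Fin D → ξ) (hκ : ∀ b, w (κ b) = 1) (f : MvPolynomial ξ k)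
    (n : ℕ) : (Psi w (mder κ f)).coeff n = mder κ ((Psi w f).coeff (n + D)) := by
  have key : ∀ (L : List (Fin D)) (n : ℕ),
      (Psi w (L.foldr (fun b F => pderiv (κ b) F) f)).coeff n =
      L.foldr (fun b F => pderiv (κ b) F) ((Psi w f).coeff (n + L.length)) := by
    intro L
    induction L with
    | nil => intro n; rfl
    | cons b L ih =>
      intro n
      rw [List.foldr_cons, List.foldr_cons, coeff_Psi_pderiv, ih, hκ, List.length_cons]
      have h1 : n + 1 + L.length = n + (L.length + 1) := by omega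
      rw [h1]
  have h := key (List.finRange D) n
  rw [List.length_finRange] at h
  exact h

lemma mder_zero {D : ℕ} (κ : Fin D → ξ) : mder κ (0 : MvPolynomial ξ k) = 0 := by
  unfold mder
  induction List.finRange D with
  | nil => rfl
  | cons b L ih => rw [List.foldr_cons, ih, map_zero]

end mder

/-- common order of a finite family -/
lemma exists_order {S J : Type*} [CommRing S] (p : J → Polynomial S) (h : ∃ j, p j ≠ 0) :
    ∃ (n : ℕ) (A : J → Polynomial S), (∀ j, p j = Polynomial.X ^ n * A j) ∧
      ∃ j, (A j).coeff 0 ≠ 0 := by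
  classical
  have h1 : ∃ n, ∃ j, (p j).coeff n ≠ 0 := by
    obtain ⟨j, hj⟩ := h
    by_contra hcon
    push Not at hcon
    apply hj
    ext n
    rw [hcon n j, Polynomial.coeff_zero]
  have h2 := Nat.find_spec h1
  have h3 : ∀ j, ∀ m < Nat.find h1, (p j).coeff m = 0 := by
    intro j m hm
    by_contra hne
    exact Nat.find_min h1 hm ⟨j, hne⟩
  choose A hA using fun j => (Polynomial.X_pow_dvd_iff.2 (h3 j))
  refine ⟨Nat.find h1, A, hA, ?_⟩
  obtain ⟨j, hj⟩ := h2
  refine ⟨j, ?_⟩
  rw [hA j, Polynomial.coeff_X_pow_mul', if_pos le_rfl, Nat.sub_self] at hj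
  exact hj

/-- lowest components of a relation -/
theorem lowest {k ξ J ι : Type*} [Field k] [Fintype J] [Fintype ι] {D : ℕ} (w : ξ → ℕ)
    (κ : ι → Fin D → ξ) (hκ : ∀ i b, w (κ i b) = 1) (G : MvPolynomial ξ k) (e : ℕ)
    (B : Polynomial (MvPolynomial ξ k)) (hB : Psi w G = Polynomial.X ^ (D + e) * B)
    (a : J → MvPolynomial ξ k) (c : J → ι → k) (n : ℕ) (A : J → Polynomial (MvPolynomial ξ k))
    (hA : ∀ j, Psi w (a j) = Polynomial.X ^ n * A j)
    (h : ∑ j, a j * ∑ i, C (c j i) * mder (κ i) G = 0) :
    ∑ j, (A j).coeff 0 * ∑ i, C (c j i) * mder (κ i) (B.coeff 0) = 0 := by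
  classical
  have h1 : ∀ i, ∃ M : Polynomial (MvPolynomial ξ k), Psi w (mder (κ i) G) =
      Polynomial.X ^ e * M ∧ M.coeff 0 = mder (κ i) (B.coeff 0) := by
    intro i
    have h2 : Polynomial.X ^ e ∣ Psi w (mder (κ i) G) := by
      rw [Polynomial.X_pow_dvd_iff]
      intro m hm
      rw [coeff_Psi_mder w (κ i) (hκ i), hB, Polynomial.coeff_X_pow_mul', if_neg (by omega),
        mder_zero]
    obtain ⟨M, hM⟩ := h2
    refine ⟨M, hM, ?_⟩
    have h3 := coeff_Psi_mder w (κ i) (hκ i) G e
    rw [hM, hB, Polynomial.coeff_X_pow_mul', if_pos le_rfl, Nat.sub_self,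
      Polynomial.coeff_X_pow_mul', if_pos (by omega)] at h3
    have h4 : e + D - (D + e) = 0 := by omega
    rw [h4] at h3
    exact h3
  choose M hM1 hM2 using h1
  have h2 := congrArg (Psi w) h
  rw [map_zero, map_sum] at h2
  have h3 : ∀ j, Psi w (a j * ∑ i, C (c j i) * mder (κ i) G) =
      Polynomial.X ^ (n + e) * (A j * ∑ i, Polynomial.C (C (c j i)) * M i) := by
    intro j
    rw [map_mul, map_sum, hA j]
    have h4 : ∀ i, Psi w (C (c j i) * mder (κ i) G) =
        Polynomial.X ^ e * (Polynomial.C (C (c j i)) * M i) := by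
      intro i
      rw [map_mul, Psi_C, hM1]
      ring
    rw [Finset.sum_congr rfl fun i _ => h4 i, ← Finset.mul_sum, pow_add]
    ring
  rw [Finset.sum_congr rfl fun j _ => h3 j, ← Finset.mul_sum] at h2
  have h5 : ∑ j, A j * ∑ i, Polynomial.C (C (c j i)) * M i = 0 := by
    rcases mul_eq_zero.1 h2 with h6 | h6
    · exact absurd h6 (pow_ne_zero _ Polynomial.X_ne_zero)
    · exact h6
  have h6 := congrArg (fun p => Polynomial.coeff p 0) h5
  simp only [Polynomial.finsetSum_coeff, Polynomial.mul_coeff_zero, Polynomial.coeff_zero,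
    Polynomial.coeff_C_zero, hM2] at h6
  exact h6

end Pool.ZTS
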