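import Pool.Agent.Helper67.SDet.Block

/-!
# The leading form of the permanent at the block matrices, part 1 (MP_381749_lc)
-/

set_option autoImplicit false

namespace Pool.ZTS

open Finset Matrix MvPolynomial Pool.Agent.SDet

section corner

variable {R : Type*} [CommRing R] {ρ ρ' : Type*} [Fintype ρ] [Fintype ρ'] [DecidableEq ρ]
  [DecidableEq ρ']

omit [DecidableEq ρ] [DecidableEq ρ'] in
/-- A permutation of `ρ ⊕ ρ'` which maps `ρ'` into `ρ` maps exactly one element of `ρ` into `ρ`. -/
theorem exists_unique_corner (hc : Fintype.card ρ = Fintype.card ρ' + 1)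
    (σ : Equiv.Perm (ρ ⊕ ρ')) (h : ∀ i', (σ (Sum.inr i')).isLeft = true) :
    ∃ i0 j0, σ (Sum.inl i0) = Sum.inl j0 ∧ ∀ i, i ≠ i0 → (σ (Sum.inl i)).isRight = true := by
  classical
  set A : Finset (ρ ⊕ ρ') := univ.filter fun x => (σ x).isLeft = true with hA
  have hcard : A.card = Fintype.card ρ := by
    have h1 : A.map σ.toEmbedding = univ.map Function.Embedding.inl := by
      ext x
      rw [Finset.mem_map_equiv, hA, Finset.mem_filter, Equiv.apply_symm_apply, Finset.mem_map]
      rcases x with x | x <;> simp
    rw [← Finset.card_map σ.toEmbedding, h1, Finset.card_map, Finset.card_univ]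
  set B : Finset ρ := univ.filter fun i => (σ (Sum.inl i)).isLeft = true with hB
  have h2 : A = B.disjSum (univ : Finset ρ') := by
    ext x
    rcases x with x | x
    · simp [hA, hB]
    · simp [hA, h x]
  rw [h2, Finset.card_disjSum, Finset.card_univ, hc] at hcard
  have h3 : B.card = 1 := by omega
  obtain ⟨i0, hi0⟩ := Finset.card_eq_one.1 h3
  have h4 : (σ (Sum.inl i0)).isLeft = true := by
    have : i0 ∈ B := by rw [hi0]; exact Finset.mem_singleton_self _
    exact (Finset.mem_filter.1 this).2
  obtain ⟨j0, hj0⟩ := Sum.isLeft_iff.1 h4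
  refine ⟨i0, j0, hj0, fun i hi => ?_⟩
  have h5 : i ∉ B := by rw [hi0]; simpa using hi
  rw [hB, Finset.mem_filter] at h5
  rcases hs : σ (Sum.inl i) with y | y
  · exact absurd ⟨Finset.mem_univ _, by rw [hs]; rfl⟩ h5
  · rfl

/-- the permanent of a pair of blocks is linear in the corner -/
theorem perm_corner (hc : Fintype.card ρ = Fintype.card ρ' + 1) (x : Matrix ρ ρ R)
    (T : Matrix ρ ρ' R) (W : Matrix ρ' ρ R) :
    (Matrix.fromBlocks x T W 0).permanent =
      ∑ r, ∑ c, x r c * (pairM r c 1 T W).permanent := by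
  classical
  have key : ∀ σ : Equiv.Perm (ρ ⊕ ρ'), ∏ i, (Matrix.fromBlocks x T W 0) i (σ i) =
      ∑ r, ∑ c, x r c * ∏ i, (pairM r c 1 T W) i (σ i) := by
    intro σ
    by_cases h : ∀ i', (σ (Sum.inr i')).isLeft = true
    · obtain ⟨i0, j0, h0, h1⟩ := exists_unique_corner hc σ h
      rw [Finset.sum_eq_single i0, Finset.sum_eq_single j0]
      · rw [← Finset.mul_prod_erase univ _ (Finset.mem_univ (Sum.inl i0)),
          ← Finset.mul_prod_erase univ (fun i => (pairM i0 j0 1 T W) i (σ i))
            (Finset.mem_univ (Sum.inl i0))]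
        rw [h0]
        have e1 : (pairM i0 j0 1 T W) (Sum.inl i0) (Sum.inl j0) = 1 := by simp [pairM]
        have e2 : (Matrix.fromBlocks x T W 0) (Sum.inl i0) (Sum.inl j0) = x i0 j0 := by simp
        rw [e1, e2, one_mul]
        congr 1
        refine Finset.prod_congr rfl fun i hi => ?_
        rcases i with i | i
        · have hi' : i ≠ i0 := fun e => (Finset.mem_erase.1 hi).1 (congrArg _ e)
          obtain ⟨y, hy⟩ := Sum.isRight_iff.1 (h1 i hi')
          rw [hy]
          simp [pairM]
        · obtain ⟨y, hy⟩ := Sum.isLeft_iff.1 (h i)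
          rw [hy]
          simp [pairM]
      · intro c _ hcj
        refine mul_eq_zero_of_right _ (Finset.prod_eq_zero (Finset.mem_univ (Sum.inl i0)) ?_)
        rw [h0]
        simp [pairM, hcj.symm]
      · intro h; exact absurd (Finset.mem_univ _) h
      · intro r _ hr
        refine Finset.sum_eq_zero fun c _ => mul_eq_zero_of_right _
          (Finset.prod_eq_zero (Finset.mem_univ (Sum.inl i0)) ?_)
        rw [h0]
        simp [pairM, hr.symm]
      · intro h; exact absurd (Finset.mem_univ _) h
    · push Not at h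
      obtain ⟨i', hi'⟩ := h
      have hi'' : ∃ y, σ (Sum.inr i') = Sum.inr y := by
        rcases hs : σ (Sum.inr i') with y | y
        · rw [hs] at hi'
          exact absurd rfl hi'
        · exact ⟨y, rfl⟩
      obtain ⟨y, hy⟩ := hi''
      rw [Finset.prod_eq_zero (Finset.mem_univ (Sum.inr i'))]
      · symm
        refine Finset.sum_eq_zero fun r _ => Finset.sum_eq_zero fun c _ =>
          mul_eq_zero_of_right _ (Finset.prod_eq_zero (Finset.mem_univ (Sum.inr i')) ?_)
        rw [hy]
        simp [pairM]
      · rw [hy]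
        simp
  rw [← Matrix.permanent_transpose]
  simp only [Matrix.permanent, Matrix.transpose_apply]
  rw [Finset.sum_congr rfl fun σ _ => key σ, Finset.sum_comm]
  refine Finset.sum_congr rfl fun r _ => ?_
  rw [Finset.sum_comm]
  refine Finset.sum_congr rfl fun c _ => ?_
  rw [← Finset.mul_sum]
  congr 1
  have := Matrix.permanent_transpose (pairM r c 1 T W)
  simp only [Matrix.permanent, Matrix.transpose_apply] at this
  exact this

end corner

/-- scaling of rows and columns -/
theorem perm_scale {R I : Type*} [CommRing R] [Fintype I] [DecidableEq I] (u : R)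
    (A B : Matrix I I R) (r c : I → ℕ) (h : ∀ i j, u ^ c j * A i j = u ^ r i * B i j) :
    u ^ (∑ i, c i) * A.permanent = u ^ (∑ i, r i) * B.permanent := by
  simp only [Matrix.permanent, Finset.mul_sum]
  refine Finset.sum_congr rfl fun σ _ => ?_
  rw [← Finset.prod_pow_eq_pow_sum, ← Finset.prod_pow_eq_pow_sum, ← Finset.prod_mul_distrib,
    ← Equiv.prod_comp σ (fun i => u ^ r i), ← Finset.prod_mul_distrib]
  exact Finset.prod_congr rfl fun i _ => h _ _

end Pool.ZTS
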