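import Pool.Agent.ZTS.MultAsm

/-!
# Integer matrices on a segment (a disc) outside hypersurfaces (MP_381749_lc, zero tests by sums)
-/

set_option autoImplicit false
set_option linter.unusedSectionVars false

open MvPolynomial Finset Filter Topology

namespace Pool.ZTS.IP

section hom

variable {K : Type} [Field K] {V : Type} [Finite V]

theorem eval_smul_hom {j : ℕ} {F : MvPolynomial V K} (hF : F.IsHomogeneous j) (t : K) (z : V → K) :
    eval (fun v => t * z v) F = t ^ j * eval z F := by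
  classical
  rw [eval_eq, eval_eq, Finset.mul_sum]
  refine Finset.sum_congr rfl fun u hu => ?_
  have h1 := hF (mem_support_iff.mp hu)
  rw [Finset.prod_congr rfl fun v _ => mul_pow t (z v) (u v), Finset.prod_mul_distrib,
    Finset.prod_pow_eq_pow_sum]
  have h2 : ∑ v ∈ u.support, u v = j := by
    rw [← h1, Finsupp.weight_apply, Finsupp.sum]
    simp
  rw [h2]
  ring

theorem eval_smul_eq (F : MvPolynomial V K) {D : ℕ} (hD : F.totalDegree ≤ D) {t : K} (ht : t ≠ 0)
    (z : V → K) :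
    eval (fun v => t * z v) F =
      t ^ D * ∑ j ∈ Finset.range (D + 1), (t⁻¹) ^ (D - j) * eval z (homogeneousComponent j F) := by
  have h0 : F = ∑ j ∈ Finset.range (D + 1), homogeneousComponent j F := by
    conv_lhs => rw [← sum_homogeneousComponent F]
    refine Finset.sum_subset (Finset.range_mono (by omega)) fun j _ hj => ?_
    rw [Finset.mem_range, not_lt] at hj
    exact homogeneousComponent_eq_zero _ _ (by omega)
  conv_lhs => rw [h0]
  rw [map_sum, Finset.mul_sum]
  refine Finset.sum_congr rfl fun j hj => ?_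
  rw [eval_smul_hom (homogeneousComponent_isHomogeneous j F)]
  have hj' : j ≤ D := by
    rw [Finset.mem_range] at hj
    omega
  have h1 : t ^ D * (t⁻¹) ^ (D - j) = t ^ j := by
    rw [inv_pow, ← div_eq_mul_inv, div_eq_iff (pow_ne_zero _ ht), ← pow_add]
    congr 1
    omega
  rw [← mul_assoc, h1]

end hom

variable {K : Type} [NormedField K]

theorem tendsto_two_inv (h2 : 1 < ‖(2 : K)‖) :
    Tendsto (fun r : ℕ => ((2 : K) ^ r)⁻¹) atTop (𝓝 0) := by
  have h3 : ‖(2 : K)⁻¹‖ < 1 := by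
    rw [norm_inv]
    exact inv_lt_one_of_one_lt₀ h2
  have h4 := tendsto_pow_atTop_nhds_zero_of_norm_lt_one h3
  refine h4.congr fun r => ?_
  rw [inv_pow]

/-- uniformly on a disc the top form dominates -/
theorem eventually_disc {V : Type} [Finite V] (h2 : 1 < ‖(2 : K)‖) (F : MvPolynomial V K)
    (x d : V → K) (hF : eval x (homogeneousComponent F.totalDegree F) ≠ 0) :
    ∀ᶠ r : ℕ in atTop, ∀ s : K, ‖s‖ ≤ 1 → eval (fun v => 2 ^ r * x v + s * d v) F ≠ 0 := by
  classical
  have := Fintype.ofFinite V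
  set D := F.totalDegree with hD
  let Φ : K × (V → K) → K := fun p =>
    ∑ j ∈ Finset.range (D + 1), p.1 ^ (D - j) * eval p.2 (homogeneousComponent j F)
  have hΦ : Continuous Φ := by
    refine continuous_finsetSum _ fun j _ => ?_
    exact (continuous_fst.pow _).mul ((MvPolynomial.continuous_eval _).comp continuous_snd)
  have hΦ0 : Φ (0, x) ≠ 0 := by
    have h1 : Φ (0, x) = eval x (homogeneousComponent D F) := by
      change ∑ j ∈ Finset.range (D + 1), (0 : K) ^ (D - j) * eval x (homogeneousComponent j F) = _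
      rw [Finset.sum_eq_single D]
      · simp
      · intro j hj hjD
        rw [Finset.mem_range] at hj
        rw [zero_pow (by omega), zero_mul]
      · intro h
        exact absurd (Finset.mem_range.mpr (by omega)) h
    rw [h1]
    exact hF
  have hev : ∀ᶠ p in 𝓝 ((0 : K), x), Φ p ≠ 0 := hΦ.continuousAt.eventually_ne hΦ0
  obtain ⟨δ, hδ, hball⟩ := Metric.eventually_nhds_iff.mp hev
  have ht := tendsto_two_inv h2
  have ht1 : Tendsto (fun r : ℕ => ‖((2 : K) ^ r)⁻¹‖) atTop (𝓝 0) := by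
    have := ht.norm
    rwa [norm_zero] at this
  have ht2 : Tendsto (fun r : ℕ => ‖((2 : K) ^ r)⁻¹‖ * (1 + ‖d‖)) atTop (𝓝 0) := by
    have := ht1.mul_const (1 + ‖d‖)
    rwa [zero_mul] at this
  have h20 : (2 : K) ≠ 0 := by
    intro h
    rw [h, norm_zero] at h2
    linarith
  filter_upwards [ht2.eventually (gt_mem_nhds hδ)] with r hr s hs
  have hr0 : (2 : K) ^ r ≠ 0 := pow_ne_zero _ h20
  have e1 : (fun v => 2 ^ r * x v + s * d v) =
      fun v => 2 ^ r * (x v + s * (((2 : K) ^ r)⁻¹ * d v)) := by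
    funext v
    field_simp
  rw [e1, eval_smul_eq F (le_refl D) hr0]
  refine mul_ne_zero (pow_ne_zero _ hr0) ?_
  have h5 : dist ((((2 : K) ^ r)⁻¹, fun v => x v + s * (((2 : K) ^ r)⁻¹ * d v)) : K × (V → K))
      (0, x) < δ := by
    rw [Prod.dist_eq]
    refine max_lt ?_ ?_
    · rw [dist_zero_right]
      refine lt_of_le_of_lt ?_ hr
      have : 0 ≤ ‖d‖ := norm_nonneg _
      nlinarith [norm_nonneg (((2 : K) ^ r)⁻¹)]
    · rw [dist_pi_lt_iff hδ]
      intro v
      have h6 : dist (x v + s * (((2 : K) ^ r)⁻¹ * d v)) (x v) =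
          ‖s‖ * (‖((2 : K) ^ r)⁻¹‖ * ‖d v‖) := by
        rw [dist_eq_norm, add_sub_cancel_left, norm_mul, norm_mul]
      rw [h6]
      refine lt_of_le_of_lt ?_ hr
      have h7 : ‖d v‖ ≤ ‖d‖ := norm_le_pi_norm d v
      calc ‖s‖ * (‖((2 : K) ^ r)⁻¹‖ * ‖d v‖) ≤ 1 * (‖((2 : K) ^ r)⁻¹‖ * (1 + ‖d‖)) := by
            gcongr
            linarith
        _ = _ := one_mul _
  exact hball h5

/-- the permanent of `2 ^ r X + 1` -/
theorem eventually_perm {n : ℕ} (X : Matrix (Fin n) (Fin n) ℤ) :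
    ∀ᶠ r : ℕ in atTop, ((2 ^ r : ℤ) • X + 1).permanent ≠ 0 := by
  classical
  let p : Polynomial ℤ := (Matrix.of fun i j => Polynomial.C (X i j) * Polynomial.X +
    Polynomial.C ((1 : Matrix (Fin n) (Fin n) ℤ) i j)).permanent
  have hp : ∀ t : ℤ, p.eval t = (t • X + 1).permanent := by
    intro t
    simp only [p, Matrix.permanent, Polynomial.eval_finsetSum, Polynomial.eval_prod,
      Matrix.of_apply, Polynomial.eval_add, Polynomial.eval_mul, Polynomial.eval_C,
      Polynomial.eval_X, Matrix.add_apply, Matrix.smul_apply, smul_eq_mul]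
    refine Finset.sum_congr rfl fun σ _ => Finset.prod_congr rfl fun i _ => ?_
    rw [mul_comm]
  have hp0 : p ≠ 0 := by
    intro h
    have h1 := hp 0
    rw [h, Polynomial.eval_zero, zero_smul, zero_add, Matrix.permanent_one] at h1
    exact one_ne_zero h1.symm
  have hfin : Set.Finite {t : ℤ | p.IsRoot t} := Polynomial.finite_setOfPred_isRoot hp0
  have hinj : Function.Injective fun r : ℕ => (2 ^ r : ℤ) := by
    intro a b hab
    exact Int.pow_right_injective (le_refl 2) hab
  have h3 : Set.Finite {r : ℕ | p.IsRoot (2 ^ r : ℤ)} := hfin.preimage hinj.injOn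
  have h4 : ∀ᶠ r : ℕ in cofinite, r ∉ {r : ℕ | p.IsRoot (2 ^ r : ℤ)} :=
    h3.eventually_cofinite_notMem
  rw [Nat.cofinite_eq_atTop] at h4
  filter_upwards [h4] with r hr
  rw [← hp]
  exact hr

/-- integer matrices, one with permanent zero and one not, and no polynomial of a finite family
vanishes on the disc (so on the segment) through them, if the permanent does not divide the top
forms -/
theorem int_seg [CharZero K] (h2 : 1 < ‖(2 : K)‖) {n : ℕ} (hn : 1 ≤ n) {ι : Type} [Finite ι]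
    (G : ι → MvPolynomial (Fin n × Fin n) K)
    (hG : ∀ i, ¬ permK K n ∣ homogeneousComponent (G i).totalDegree (G i)) :
    ∃ X Y : Matrix (Fin n) (Fin n) ℤ, X.permanent = 0 ∧ Y.permanent ≠ 0 ∧
      ∀ i, ∀ s : K, ‖s‖ ≤ 1 →
        eval (fun p => (X p.1 p.2 : K) + s * ((Y p.1 p.2 : K) - (X p.1 p.2 : K))) (G i) ≠ 0 := by
  classical
  have := Fintype.ofFinite ι
  have hprod : ¬ permK K n ∣ ∏ i, homogeneousComponent (G i).totalDegree (G i) := by
    intro h
    obtain ⟨i, -, hi⟩ := (Prime.dvd_finsetProd_iff (perm_prime hn) _).1 h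
    exact hG i hi
  obtain ⟨X, hX, hGX⟩ := int_pt n hn _ hprod
  rw [map_prod, Finset.prod_ne_zero_iff] at hGX
  have h3 : ∀ᶠ r : ℕ in atTop, ∀ i, ∀ s : K, ‖s‖ ≤ 1 →
      eval (fun p : Fin n × Fin n => 2 ^ r * (X p.1 p.2 : K) +
        s * (((1 : Matrix (Fin n) (Fin n) ℤ) p.1 p.2 : ℤ) : K)) (G i) ≠ 0 := by
    rw [eventually_all]
    intro i
    exact eventually_disc h2 (G i) _ _ (hGX i (Finset.mem_univ i))
  obtain ⟨r, hr1, hr2⟩ := (h3.and (eventually_perm X)).exists
  refine ⟨(2 ^ r : ℤ) • X, (2 ^ r : ℤ) • X + 1, ?_, hr2, ?_⟩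
  · rw [Matrix.permanent_smul, hX, mul_zero]
  · intro i s hs
    have h4 := hr1 i s hs
    have h5 : (fun p : Fin n × Fin n => ((((2 ^ r : ℤ) • X) p.1 p.2 : ℤ) : K) +
        s * (((((2 ^ r : ℤ) • X + 1) p.1 p.2 : ℤ) : K) - ((((2 ^ r : ℤ) • X) p.1 p.2 : ℤ) : K))) =
        fun p : Fin n × Fin n => 2 ^ r * (X p.1 p.2 : K) +
          s * (((1 : Matrix (Fin n) (Fin n) ℤ) p.1 p.2 : ℤ) : K) := by
      funext p
      simp only [Matrix.add_apply, Matrix.smul_apply, smul_eq_mul]
      push_cast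
      ring
    rw [h5]
    exact h4

end Pool.ZTS.IP
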