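import Pool.Agent.ZTS.Defs

/-!
# The special vectors (MP_381749_lc, zero tests by sums)
-/

set_option autoImplicit false

namespace Pool.ZTS

open Finset MvPolynomial Pool.SDL

section bp

variable {K : Type} [Field K]

/-- the block subpermanents are divisible by `h ^ a` -/
theorem h_dvd (N a : ℕ) (k : Fin (a + 1)) : X none ^ a ∣ bp K N a k := by
  classical
  unfold bp rper
  refine Finset.dvd_sum fun e _ => ?_
  rw [← Equiv.prod_comp e.symm]
  simp only [Equiv.apply_symm_apply]
  rw [Fintype.prod_sum_type]
  refine Dvd.dvd.mul_left ?_ _
  have h1 : (X none : MvPolynomial (Option (Fin N)) K) ^ a = ∏ _j : Fin a, X none := by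
    rw [Finset.prod_const, Finset.card_univ, Fintype.card_fin]
  rw [h1]
  refine Finset.prod_dvd_prod_of_dvd _ _ fun j _ => ?_
  rcases (e.symm (Sum.inr j)).1 with i | i
  · exact dvd_rfl
  · exact Dvd.intro_left _ rfl

/-- the quotients of the block subpermanents by `h ^ a` and the consequences of Lemma LA -/
theorem exists_q [CharZero K] (N a : ℕ) (ha : 1 ≤ a) (haN : a < N) :
    ∃ (q : Fin (a + 1) → MvPolynomial (Option (Fin N)) K) (c : Fin (a + 1) → K),
      (∀ k, bp K N a k = X none ^ a * q k) ∧
      (∑ k, C (c k) * q k = ∏ j, X (some j)) ∧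
      ∀ i : Fin N, ∃ k, eval (fun v : Option (Fin N) => v.elim 1 fun j => if j = i then 0 else 1)
        (q k) ≠ 0 := by
  classical
  choose q hq using fun k => h_dvd (K := K) N a k
  have hX : (X none : MvPolynomial (Option (Fin N)) K) ^ a ≠ 0 := pow_ne_zero _ (X_ne_zero _)
  have hsp : ∀ r ≤ a, ∃ c : Fin (a + 1) → K, ∑ k, C (c k) * q k =
      X none ^ r * rename some (esymm (Fin N) K (N - r)) := by
    intro r hr
    have h := LA (K := K) N a haN r hr
    obtain ⟨c, hc⟩ := (Submodule.mem_span_range_iff_exists_fun K).1 h
    refine ⟨c, ?_⟩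
    apply mul_left_cancel₀ hX
    rw [← mul_assoc, ← pow_add, ← hc, Finset.mul_sum]
    refine Finset.sum_congr rfl fun k _ => ?_
    rw [hq k, smul_eq_C_mul]
    ring
  obtain ⟨c, hc⟩ := hsp 0 (Nat.zero_le _)
  obtain ⟨c', hc'⟩ := hsp 1 ha
  refine ⟨q, c, hq, ?_, fun i => ?_⟩
  · rw [hc, pow_zero, one_mul, Nat.sub_zero, esymm]
    have h1 : (univ : Finset (Fin N)).powersetCard N = {univ} := by
      have := Finset.powersetCard_self (univ : Finset (Fin N))
      rwa [Finset.card_univ, Fintype.card_fin] at this
    rw [h1, Finset.sum_singleton, map_prod]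
    simp
  · by_contra hne
    push Not at hne
    have h2 := congrArg (eval (fun v : Option (Fin N) =>
      v.elim 1 fun j => if j = i then (0 : K) else 1)) hc'
    rw [map_sum] at h2
    simp only [map_mul, hne, mul_zero, Finset.sum_const_zero, map_pow, eval_X, Option.elim_none,
      one_pow, one_mul] at h2
    rw [eval_rename, esymm, map_sum, Finset.sum_eq_single (univ.erase i)] at h2
    · rw [map_prod] at h2
      have h3 : ∏ x ∈ univ.erase i, eval ((fun v : Option (Fin N) =>
          v.elim 1 fun j => if j = i then (0 : K) else 1) ∘ some) (X x) = 1 := by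
        refine Finset.prod_eq_one fun j hj => ?_
        rw [eval_X]
        simp [(Finset.mem_erase.1 hj).1]
      rw [h3] at h2
      exact zero_ne_one h2
    · intro t ht hti
      rw [map_prod]
      have hit : i ∈ t := by
        by_contra hit
        apply hti
        refine Finset.eq_of_subset_of_card_le (fun j hj => ?_) ?_
        · rw [Finset.mem_erase]
          exact ⟨fun e => hit (e ▸ hj), Finset.mem_univ _⟩
        · rw [Finset.card_erase_of_mem (Finset.mem_univ _), Finset.card_univ, Fintype.card_fin,
            (Finset.mem_powersetCard.1 ht).2]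
      refine Finset.prod_eq_zero hit ?_
      simp
    · intro h
      exfalso
      apply h
      rw [Finset.mem_powersetCard]
      refine ⟨Finset.subset_univ _, ?_⟩
      rw [Finset.card_erase_of_mem (Finset.mem_univ _), Finset.card_univ, Fintype.card_fin]

end bp

variable {K : Type} [Field K]

/-- ROW V, the special vectors (from LA, with r = 0 and r = 1) -/
theorem vec [CharZero K] (N a D : ℕ) (ha : 1 ≤ a) (haN : a < N) :
    ∃ (g : Fin D → Sp a → MvPolynomial (Ys D N) K) (v : Fin D → Sp a → K),
      (∀ b p, gg K D N a b p = rr K D N a b * g b p) ∧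
      (∀ b, ∑ p, g b p * C (v b p) = ∏ y ∈ lam D N b, X y) ∧
      ∀ z : Fin D → Ys D N, (∀ b, z b ∈ lam D N b) → ∀ b, ∃ p,
        aeval (fun y => if y ∈ Finset.univ.image z then 0 else X y :
          Ys D N → MvPolynomial (Ys D N) K) (g b p) ≠ 0 := by
  classical
  obtain ⟨q, c, hq, hc, hz⟩ := exists_q (K := K) N a ha haN
  refine ⟨fun b p => rename (fun v => (Sum.inl b, v)) (q p.1) * rename (fun v => (Sum.inr b, v)) (q p.2),
    fun b p => c p.1 * c p.2, fun b p => ?_, fun b => ?_, fun z hzl b => ?_⟩
  · rw [gg, rr, hq, hq, map_mul, map_mul, map_pow, map_pow, rename_X, rename_X]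
    ring
  · have h1 : ∀ s : Fin D ⊕ Fin D, ∑ k, C (c k) * rename (fun v => (s, v)) (q k) =
        ∏ j : Fin N, (X (s, some j) : MvPolynomial (Ys D N) K) := by
      intro s
      have := congrArg (rename (fun v : Option (Fin N) => ((s, v) : Ys D N))) hc
      rw [map_sum, map_prod] at this
      simpa using this
    rw [Fintype.sum_prod_type]
    have h2 : ∀ k k' : Fin (a + 1), (rename (fun v => ((Sum.inl b, v) : Ys D N)) (q k) *
        rename (fun v => (Sum.inr b, v)) (q k')) * C (c k * c k') =
        (C (c k) * rename (fun v => (Sum.inl b, v)) (q k)) *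
          (C (c k') * rename (fun v => (Sum.inr b, v)) (q k')) := by
      intro k k'
      rw [C_mul]
      ring
    simp only [h2]
    rw [← Finset.sum_mul_sum, h1, h1, lam, Finset.prod_product]
    rw [Finset.prod_pair (by simp), Finset.prod_map, Finset.prod_map]
    rfl
  · have hzb : ∃ i : Fin N, z b = (Sum.inl b, some i) ∨ z b = (Sum.inr b, some i) := by
      have := hzl b
      rw [lam, Finset.mem_product, Finset.mem_map] at this
      obtain ⟨h1, i, _, h2⟩ := this
      refine ⟨i, ?_⟩
      simp only [Finset.mem_insert, Finset.mem_singleton] at h1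
      rcases h1 with h1 | h1
      · left; exact Prod.ext h1 h2.symm
      · right; exact Prod.ext h1 h2.symm
    obtain ⟨i, hi⟩ := hzb
    obtain ⟨k, hk⟩ := hz i
    -- the point of evaluation
    set P : Ys D N → K := fun y => y.2.elim 1 fun j => if j = i then 0 else 1 with hP
    have hzo : ∀ b' , b' ≠ b → ∀ v : Option (Fin N), z b' ≠ (Sum.inl b, v) ∧
        z b' ≠ (Sum.inr b, v) := by
      intro b' hb' v
      have := hzl b'
      rw [lam, Finset.mem_product] at this
      have h1 := this.1
      simp only [Finset.mem_insert, Finset.mem_singleton] at h1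
      constructor
      · intro e
        rw [e] at h1
        simp at h1
        exact hb' h1.symm
      · intro e
        rw [e] at h1
        simp at h1
        exact hb' h1.symm
    have key : ∀ s : Fin D ⊕ Fin D, s = Sum.inl b ∨ s = Sum.inr b → ∀ F : MvPolynomial _ K,
        eval P (aeval (fun y => if y ∈ Finset.univ.image z then 0 else X y :
          Ys D N → MvPolynomial (Ys D N) K) (rename (fun v => (s, v)) F)) =
        eval (fun v : Option (Fin N) => v.elim 1 fun j => if j = i then 0 else 1) F := by
      intro s hs F
      rw [aeval_rename]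
      have h5 : (eval P).comp (aeval ((fun y => if y ∈ Finset.univ.image z then 0 else X y :
          Ys D N → MvPolynomial (Ys D N) K) ∘ fun v => (s, v))).toRingHom =
          eval (fun v : Option (Fin N) => v.elim 1 fun j => if j = i then (0 : K) else 1) := by
        apply MvPolynomial.ringHom_ext
        · intro x; simp
        · intro v
          simp only [RingHom.comp_apply, AlgHom.toRingHom_eq_coe, RingHom.coe_coe, aeval_X,
            Function.comp_apply, eval_X]
          split_ifs with h
          · rw [map_zero]
            obtain ⟨b', _, hb'⟩ := Finset.mem_image.1 h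
            have hbb : b' = b := by
              by_contra hne
              rcases hs with rfl | rfl
              · exact (hzo b' hne v).1 hb'
              · exact (hzo b' hne v).2 hb'
            subst hbb
            have hv : v = some i := by
              rcases hi with hi | hi
              · rw [hi] at hb'
                exact (congrArg Prod.snd hb').symm
              · rw [hi] at hb'
                exact (congrArg Prod.snd hb').symm
            rw [hv]
            simp
          · rw [eval_X]
      exact congrArg (fun f => f F) h5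
    refine ⟨(k, k), fun h => ?_⟩
    have h6 := congrArg (eval P) h
    rw [map_mul, map_mul, key _ (Or.inl rfl), key _ (Or.inr rfl), map_zero] at h6
    exact mul_ne_zero hk hk h6

end Pool.ZTS
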